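import Pool.Agent.Lib.MP_b4a791_lc.A.ClL

/-!
# MP_b4a791_lc, Part A: promising new points to the targets of a stack
-/

namespace Pool.Agent.Lib.MP_b4a791_lc

variable {f : Col}

/-- Append the bit `b` to the row of the target `t` of the frame `j`. -/
def addBit (Φ : ℕ → Frame) (j t : ℕ) (b : Bool) : ℕ → Frame :=
  fun j' => if j' = j then
    ⟨(Φ j).lvl, (Φ j).n, fun t' => if t' = t then
      ⟨((Φ j).tg t).lo, ((Φ j).tg t).hi, ((Φ j).tg t).row ++ [b]⟩ else (Φ j).tg t'⟩
  else Φ j'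

private lemma addBit_lvl (Φ : ℕ → Frame) (j t : ℕ) (b : Bool) (i : ℕ) :
    (addBit Φ j t b i).lvl = (Φ i).lvl := by
  unfold addBit
  split_ifs with h
  · rw [h]
  · rfl

private lemma addBit_n (Φ : ℕ → Frame) (j t : ℕ) (b : Bool) (i : ℕ) :
    (addBit Φ j t b i).n = (Φ i).n := by
  unfold addBit
  split_ifs with h
  · rw [h]
  · rfl

private lemma addBit_ne (Φ : ℕ → Frame) {j : ℕ} (t : ℕ) (b : Bool) {i : ℕ} (h : i ≠ j) :
    addBit Φ j t b i = Φ i := if_neg h

private lemma addBit_self (Φ : ℕ → Frame) (j t : ℕ) (b : Bool) :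
    addBit Φ j t b j = ⟨(Φ j).lvl, (Φ j).n, fun t' => if t' = t then
      ⟨((Φ j).tg t).lo, ((Φ j).tg t).hi, ((Φ j).tg t).row ++ [b]⟩ else (Φ j).tg t'⟩ := if_pos rfl

private lemma addBit_le (Φ : ℕ → Frame) (j t : ℕ) (b : Bool) (i s : ℕ) :
    Tgt.Le ((addBit Φ j t b i).tg s) ((Φ i).tg s) := by
  by_cases h : i = j
  · subst h
    rw [addBit_self]
    dsimp only
    split_ifs with h2
    · subst h2
      exact ⟨le_rfl, le_rfl, List.prefix_append _ _⟩
    · exact Tgt.Le.refl _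
  · rw [addBit_ne Φ t b h]
    exact Tgt.Le.refl _

private lemma addBit_len (Φ : ℕ → Frame) (j t : ℕ) (b : Bool) :
    ((addBit Φ j t b j).tg t).row.length = ((Φ j).tg t).row.length + 1 := by
  rw [addBit_self]
  simp

/-- One bit (induction on `m`, with `ph`). -/
theorem Cl.bit (hf : MD f) {Φ : ℕ → Frame} {m : ℕ}
    (hmono : ∀ i j, i ≤ j → j < m → (Φ i).lvl ≤ (Φ j).lvl) {j : ℕ} (hj : j < m) {t : ℕ}
    (ht : t < (Φ j).n) {W : Word} {k : ℕ} (hk : ∀ i < m, (Φ i).lvl ≤ k) (hkd : k ≤ dep W)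
    (hc : Cl f Φ m W k) (hr : ((Φ j).tg t).row.length < W.length) :
    ∃ W' b, Ext k W W' ∧ Cl f (addBit Φ j t b) m W' k := by
  induction m generalizing W k with
  | zero => omega
  | succ m ih =>
    have key := ph (S := {V : Word // Ext k W V}) (fun V' V => Ext k V.1 V'.1)
      (fun V => Ext.refl _ _) (fun a b c h1 h2 => h2.trans h1)
      (fun V b => ∃ W'' φ', Ext (addBit Φ j t b m).lvl V.1 W'' ∧ Shr φ' (addBit Φ j t b m) ∧
        (∀ s < (addBit Φ j t b m).n, HT f W'' (addBit Φ j t b m).lvl (φ'.tg s)) ∧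
        Cl f (addBit Φ j t b) m W'' (addBit Φ j t b m).lvl)
      (fun V' V b h1 ⟨W'', φ', h2, h3, h4, h5⟩ => by
        refine ⟨W'', φ', (h1.mono ?_).trans h2, h3, h4, h5⟩
        rw [addBit_lvl]
        exact hk m (Nat.lt_succ_self m))
      ⟨W, Ext.refl _ _⟩ ?_
    · obtain ⟨⟨W0, hW0⟩, b, -, hP⟩ := key
      exact ⟨W0, b, hW0, fun V hV => hP ⟨V, hW0.trans hV⟩ hV⟩
    · rintro ⟨V, hV⟩ -
      obtain ⟨W2, φ', h1, h2, h3, h4⟩ := hc V hV
      have hlk : (Φ m).lvl ≤ k := hk m (Nat.lt_succ_self m)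
      have hd : (Φ m).lvl ≤ dep W2 := h1.dep_le (hlk.trans (hV.dep_le hkd))
      have hlen : ((Φ j).tg t).row.length < W2.length :=
        lt_of_lt_of_le hr (hV.len_le.trans h1.len_le)
      by_cases hjm : j = m
      · subst hjm
        obtain ⟨W3, lo', hi', b, h5, h6, h7, h8, h9⟩ := (h3 t ht).bit hf hd (h2.ne t ht)
          (by rw [h2.row t ht]; exact hlen)
        refine ⟨b, W3, ⟨(Φ j).lvl, (Φ j).n, fun s => if s = t then
          ⟨lo', hi', ((Φ j).tg t).row ++ [b]⟩ else φ'.tg s⟩, ?_, ?_, ?_, ?_⟩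
        · rw [addBit_lvl]
          exact h1.trans h5
        · rw [addBit_self]
          refine ⟨rfl, rfl, fun s hs => ?_, fun s hs => ?_, fun s hs => ?_⟩
          · dsimp only
            split_ifs with hst
            · exact ⟨(h2.le t ht).lo.trans h6, h8.trans (h2.le t ht).hi, List.prefix_rfl⟩
            · exact h2.le s hs
          · dsimp only
            split_ifs with hst
            · rfl
            · exact h2.row s hs
          · dsimp only
            split_ifs with hst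
            · exact h7
            · exact h2.ne s hs
        · rw [addBit_lvl, addBit_n]
          intro s hs
          dsimp only
          split_ifs with hst
          · rw [← h2.row t ht]
            exact h9
          · exact (h3 s hs).mono h5 le_rfl le_rfl List.prefix_rfl
        · rw [addBit_lvl]
          exact (Cl.congr (fun i hi => (addBit_ne Φ t b (Nat.ne_of_lt hi)).symm) _ _).1
            (h4.mono h5 le_rfl)
      · have hj' : j < m := by omega
        obtain ⟨W3, b, h5, h6⟩ := ih (fun i l hil hl => hmono i l hil (by omega)) hj'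
          (fun i hi => hmono i m hi.le (Nat.lt_succ_self m)) hd h4 hlen
        refine ⟨b, W3, φ', ?_, ?_, ?_, ?_⟩
        · rw [addBit_lvl]
          exact h1.trans h5
        · rw [addBit_ne Φ t b (Ne.symm hjm)]
          exact h2
        · rw [addBit_lvl, addBit_n]
          exact fun s hs => (h3 s hs).mono h5 le_rfl le_rfl List.prefix_rfl
        · rw [addBit_lvl]
          exact h6

private def defic (N m : ℕ) (Φ : ℕ → Frame) : ℕ :=
  ∑ j ∈ Finset.range m, ∑ t ∈ Finset.range (Φ j).n, (N - ((Φ j).tg t).row.length)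

private lemma defic_lt (N m : ℕ) (Φ : ℕ → Frame) {j : ℕ} (hj : j < m) {t : ℕ}
    (ht : t < (Φ j).n) (b : Bool) (hr : ((Φ j).tg t).row.length < N) :
    defic N m (addBit Φ j t b) < defic N m Φ := by
  have hle : ∀ i s, N - ((addBit Φ j t b i).tg s).row.length ≤ N - ((Φ i).tg s).row.length :=
    fun i s => Nat.sub_le_sub_left (addBit_le Φ j t b i s).row.length_le N
  unfold defic
  refine Finset.sum_lt_sum (fun i _ => ?_) ⟨j, Finset.mem_range.2 hj, ?_⟩
  · rw [addBit_n]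
    exact Finset.sum_le_sum fun s _ => hle i s
  · rw [addBit_n]
    refine Finset.sum_lt_sum (fun s _ => hle j s) ⟨t, Finset.mem_range.2 ht, ?_⟩
    rw [addBit_len]
    omega

private theorem extend_aux (hf : MD f) {m : ℕ} {k : ℕ} (N : ℕ) (D : ℕ) :
    ∀ (Φ : ℕ → Frame) (W : Word), defic N m Φ = D →
    (∀ i j, i ≤ j → j < m → (Φ i).lvl ≤ (Φ j).lvl) →
    (∀ i < m, (Φ i).lvl ≤ k) → k ≤ dep W → Cl f Φ m W k → N ≤ W.length →
    ∃ W' Φ', Ext k W W' ∧ Cl f Φ' m W' k ∧
      (∀ j < m, (Φ' j).lvl = (Φ j).lvl ∧ (Φ' j).n = (Φ j).n) ∧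
      (∀ j < m, ∀ t < (Φ j).n, Tgt.Le ((Φ' j).tg t) ((Φ j).tg t) ∧
        N ≤ ((Φ' j).tg t).row.length) := by
  induction D using Nat.strong_induction_on with
  | _ D ih =>
    intro Φ W hD hmono hk hkd hc hN
    by_cases hall : ∀ j < m, ∀ t < (Φ j).n, N ≤ ((Φ j).tg t).row.length
    · exact ⟨W, Φ, Ext.refl _ _, hc, fun j _ => ⟨rfl, rfl⟩,
        fun j hj t ht => ⟨Tgt.Le.refl _, hall j hj t ht⟩⟩
    · push Not at hall
      obtain ⟨j, hj, t, ht, hlt⟩ := hall
      obtain ⟨W1, b, h1, h2⟩ := Cl.bit hf hmono hj ht hk hkd hc (lt_of_lt_of_le hlt hN)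
      obtain ⟨W2, Φ2, h3, h4, h5, h6⟩ := ih _ (by rw [← hD]; exact defic_lt N m Φ hj ht b hlt)
        (addBit Φ j t b) W1 rfl
        (fun i l hil hl => by rw [addBit_lvl, addBit_lvl]; exact hmono i l hil hl)
        (fun i hi => by rw [addBit_lvl]; exact hk i hi) (h1.dep_le hkd) h2
        (hN.trans h1.len_le)
      refine ⟨W2, Φ2, h1.trans h3, h4, fun i hi => ?_, fun i hi s hs => ?_⟩
      · have := h5 i hi
        rwa [addBit_lvl, addBit_n] at this
      · have h7 := h6 i hi s (by rw [addBit_n]; exact hs)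
        exact ⟨h7.1.trans (addBit_le Φ j t b i s), h7.2⟩

/-- All rows can be extended to length at least `N` (same levels, numbers of targets, intervals);
rows never get longer than `max N (old length)`. -/
theorem Cl.extend (hf : MD f) {Φ : ℕ → Frame} {m : ℕ}
    (hmono : ∀ i j, i ≤ j → j < m → (Φ i).lvl ≤ (Φ j).lvl) {W : Word} {k : ℕ}
    (hk : ∀ i < m, (Φ i).lvl ≤ k) (hkd : k ≤ dep W) (hc : Cl f Φ m W k) (N : ℕ)
    (hN : N ≤ W.length) :
    ∃ W' Φ', Ext k W W' ∧ Cl f Φ' m W' k ∧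
      (∀ j < m, (Φ' j).lvl = (Φ j).lvl ∧ (Φ' j).n = (Φ j).n) ∧
      (∀ j < m, ∀ t < (Φ j).n, Tgt.Le ((Φ' j).tg t) ((Φ j).tg t) ∧
        N ≤ ((Φ' j).tg t).row.length) :=
  extend_aux hf N _ Φ W rfl hmono hk hkd hc hN

end Pool.Agent.Lib.MP_b4a791_lc
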