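import Pool.Agent.Lib.MP_b4a791_lc.A.HTL

/-!
# MP_b4a791_lc, Part A: the closing property, basic facts
-/

namespace Pool.Agent.Lib.MP_b4a791_lc

variable {f : Col}

lemma FLe.refl (φ : Frame) : FLe id φ φ := ⟨rfl, fun t ht => ⟨ht, Tgt.Le.refl _⟩⟩

lemma FLe.trans {h h' : ℕ → ℕ} {φ φ' φ'' : Frame} (a : FLe h φ' φ) (b : FLe h' φ'' φ') :
    FLe (h' ∘ h) φ'' φ :=
  ⟨b.1.trans a.1, fun t ht =>
    ⟨(b.2 _ (a.2 t ht).1).1, (b.2 _ (a.2 t ht).1).2.trans (a.2 t ht).2⟩⟩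

lemma Shr.fle {φ' φ : Frame} (h : Shr φ' φ) : FLe id φ' φ :=
  ⟨h.lvl, fun t ht => ⟨by rw [h.n]; exact ht, h.le t ht⟩⟩

/-- The closing property only depends on the frames below `m`. -/
theorem Cl.congr {Φ Φ' : ℕ → Frame} {m : ℕ} (h : ∀ j < m, Φ j = Φ' j) (W : Word) (k : ℕ) :
    Cl f Φ m W k ↔ Cl f Φ' m W k := by
  induction m generalizing W k with
  | zero => exact Iff.rfl
  | succ m ih =>
    have h0 : Φ m = Φ' m := h m (Nat.lt_succ_self m)
    have ih' : ∀ (V : Word) (l : ℕ), Cl f Φ m V l ↔ Cl f Φ' m V l :=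
      fun V l => ih (fun j hj => h j (Nat.lt_succ_of_lt hj)) V l
    simp only [Cl, h0, ih']

theorem Cl.mono {Φ : ℕ → Frame} {m : ℕ} {W W' : Word} {k k' : ℕ} (h : Cl f Φ m W k)
    (hW : Ext k W W') (hk : k ≤ k') : Cl f Φ m W' k' := by
  cases m with
  | zero => trivial
  | succ m =>
    intro V hV
    exact h V (hW.trans (hV.mono hk))

/-- Weaken the frames: forget targets, enlarge intervals, shorten rows. -/
theorem Cl.weaken {Φ Φ' : ℕ → Frame} {m : ℕ} {h : ℕ → ℕ → ℕ}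
    (hle : ∀ j < m, FLe (h j) (Φ' j) (Φ j)) {W : Word} {k : ℕ} (hc : Cl f Φ' m W k) :
    Cl f Φ m W k := by
  induction m generalizing W k with
  | zero => trivial
  | succ m ih =>
    intro V hV
    obtain ⟨hl, ht⟩ := hle m (Nat.lt_succ_self m)
    obtain ⟨V', φ', h1, h2, h3, h4⟩ := hc V hV
    rw [hl] at h1 h3 h4
    refine ⟨V', ⟨(Φ m).lvl, (Φ m).n, fun t => ⟨(φ'.tg (h m t)).lo, (φ'.tg (h m t)).hi,
      ((Φ m).tg t).row⟩⟩, h1, ⟨rfl, rfl, ?_, fun _ _ => rfl, ?_⟩, ?_,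
      ih (fun j hj => hle j (Nat.lt_succ_of_lt hj)) h4⟩
    · intro t htn
      have a1 := (ht t htn).2
      have a2 := h2.le _ (ht t htn).1
      exact ⟨a1.lo.trans a2.lo, a2.hi.trans a1.hi, List.prefix_rfl⟩
    · intro t htn
      exact h2.ne _ (ht t htn).1
    · intro t htn
      refine HT.mono (h3 _ (ht t htn).1) (Ext.refl _ _) le_rfl le_rfl ?_
      show ((Φ m).tg t).row <+: (φ'.tg (h m t)).row
      rw [h2.row _ (ht t htn).1]
      exact (ht t htn).2.row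

/-- The intervals of the frames of a stack with the closing property are nonempty. -/
theorem Cl.ne {Φ : ℕ → Frame} {m : ℕ} {W : Word} {k : ℕ} (hc : Cl f Φ m W k) {j : ℕ} (hj : j < m)
    {t : ℕ} (ht : t < (Φ j).n) : ((Φ j).tg t).lo < ((Φ j).tg t).hi := by
  induction m generalizing W k with
  | zero => exact absurd hj (Nat.not_lt_zero j)
  | succ m ih =>
    obtain ⟨V', φ', _, h2, _, h4⟩ := hc W (Ext.refl _ _)
    rcases Nat.lt_succ_iff_lt_or_eq.1 hj with h | h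
    · exact ih h4 h
    · subst h
      have a := h2.le t ht
      exact (a.lo.trans_lt (h2.ne t ht)).trans_le a.hi

/-- Closing down to the frame `J` (levels are nondecreasing). -/
theorem Cl.close {Φ : ℕ → Frame} {m : ℕ} {W : Word} {k : ℕ} (hc : Cl f Φ m W k) {J : ℕ}
    (hJ : J < m) (hmono : ∀ i j, i ≤ j → j < m → (Φ i).lvl ≤ (Φ j).lvl)
    (hk : ∀ j < m, (Φ j).lvl ≤ k) (hkd : k ≤ dep W) :
    ∃ W' φ', Ext (Φ J).lvl W W' ∧ Shr φ' (Φ J) ∧
      (∀ t < (Φ J).n, HT f W' (Φ J).lvl (φ'.tg t)) ∧ Cl f Φ J W' (Φ J).lvl := by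
  induction m generalizing W k with
  | zero => exact absurd hJ (Nat.not_lt_zero J)
  | succ m ih =>
    obtain ⟨W1, φ1, h1, h2, h3, h4⟩ := hc W (Ext.refl _ _)
    rcases Nat.lt_succ_iff_lt_or_eq.1 hJ with h | h
    · have hm : (Φ m).lvl ≤ dep W1 := h1.dep_le ((hk m (Nat.lt_succ_self m)).trans hkd)
      obtain ⟨W2, φ2, g1, g2, g3, g4⟩ := ih h4 h
        (fun i j hij hj => hmono i j hij (Nat.lt_succ_of_lt hj))
        (fun j hj => hmono j m hj.le (Nat.lt_succ_self m)) hm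
      exact ⟨W2, φ2, (h1.mono (hmono J m h.le (Nat.lt_succ_self m))).trans g1, g2, g3, g4⟩
    · subst h
      exact ⟨W1, φ1, h1, h2, h3, h4⟩

end Pool.Agent.Lib.MP_b4a791_lc
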