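import Pool.Agent.Lib.MP_b4a791_lc.A.TyL

/-!
# MP_b4a791_lc, Part A: coarse states (definitions)

Section A.8 of the paper proof. The gaps of a coarse node are described by a map
`slot : ℚ → ℕ` from positions of future coarse children to targets of the node state.
-/

namespace Pool.Agent.Lib.MP_b4a791_lc

/-- The slot structure of the current coarse node. `kids` is the list of pairs
(coarse position, base position) of its coarse children. -/
structure Slots (f : Col) (N : NS) (c : Cons) (C : ℕ → ℕ → Bool) (ψ : Bool → Bool)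
    (slot : ℚ → ℕ) (kids : List (ℚ × ℚ)) : Prop where
  good : NGood f N
  dom : CDom c N.m
  full : Full f N c C
  lt : ∀ x, slot x < N.n
  ord : ∀ x y, x < y → slot x ≠ slot y → (N.tg (slot x)).hi ≤ (N.tg (slot y)).lo ∧
    C (slot x) (slot y) = ψ true ∧ C (slot y) (slot x) = ψ false
  hom : ∀ x, Hom f N c C (slot x) ψ
  kid : ∀ p ∈ kids, ∀ x, (p.1 < x → p.2 ≤ (N.tg (slot x)).lo) ∧
    (x < p.1 → (N.tg (slot x)).hi ≤ p.2)

/-- Data of an outer open coarse node: its type `ψ`, the coarse position `q` of its open child,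
the labels `A x u` of the designated point number `u` toward a future child at position `x`, the
children so far (including the open one), the base level. -/
structure Dat where
  ψ : Bool → Bool
  q : ℚ
  A : ℚ → ℕ → Bool
  kids : List (ℚ × ℚ)
  lev : ℕ

/-- The outer open coarse nodes, seen from the state `s` with constraints `c`;
`pts` are the designated points. -/
def Env (f : Col) (pts : List ℕ) : List Dat → PS → Cons → Prop
  | [], _, _ => True
  | D :: L, s, c => ∃ (N : NS) (c0 : Cons) (C0 : ℕ → ℕ → Bool) (slot : ℚ → ℕ) (h : ℕ → ℕ → ℕ),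
      Slots f N c0 C0 D.ψ slot D.kids ∧ N.k = D.lev ∧ Desc h N s ∧
      (∀ x, c N.m (h N.m (slot x)) (D.ψ (decide (D.q ≤ x)))) ∧
      (∀ j t b, push h c0 j t b → c j t b) ∧
      (∀ x u p, pts[u]? = some p →
        ((s.Φ N.m).tg (h N.m (slot x))).row[p]? = some (D.A x u)) ∧
      Env f pts L ⟨N.m, s.Φ, s.W, N.k, N.r⟩ (push h c0)

/-- Coarse states. -/
structure CSt where
  L : List Dat
  N : NS
  c : Cons
  C : ℕ → ℕ → Bool
  ψ : Bool → Bool
  slot : ℚ → ℕ
  A : ℚ → ℕ → Bool
  kids : List (ℚ × ℚ)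
  pts : List ℕ

/-- Valid coarse states. -/
structure CVal (f : Col) (S : CSt) : Prop where
  slots : Slots f S.N S.c S.C S.ψ S.slot S.kids
  env : Env f S.pts S.L S.N.toPS S.c
  lab : ∀ x u p, S.pts[u]? = some p → (S.N.tg (S.slot x)).row[p]? = some (S.A x u)
  lt : ∀ p ∈ S.pts, p < S.N.W.length

/-- Closing the innermost coarse node. -/
structure PopRel (S S' : CSt) (D : Dat) : Prop where
  L : S.L = D :: S'.L
  ψ : S'.ψ = D.ψ
  A : S'.A = D.A
  kids : S'.kids = D.kids
  pts : S'.pts = S.pts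
  lev : S'.N.k = D.lev
  ext : Ext D.lev S.N.W S'.N.W
  lt : D.lev < S.N.k

/-- The labels after adding the designated point number `n` in the child at position `q`. -/
def updA (A : ℚ → ℕ → Bool) (ψ : Bool → Bool) (q : ℚ) (n : ℕ) : ℚ → ℕ → Bool :=
  fun x u => if u < n then A x u else ψ (decide (q ≤ x))

/-- Update of the data of an outer node. -/
def Dat.upd (n : ℕ) (D : Dat) : Dat := ⟨D.ψ, D.q, updA D.A D.ψ D.q n, D.kids, D.lev⟩

/-- Opening a coarse child at position `q` of the current coarse node. -/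
structure OpenRel (f : Col) (q : ℚ) (S S' : CSt) : Prop where
  ex : ∃ x pos e,
    S'.L = ⟨S.ψ, q, updA S.A S.ψ q S.pts.length, (q, pos) :: S.kids, S.N.k⟩ ::
      S.L.map (Dat.upd S.pts.length) ∧
    S'.pts = S.pts ++ [x] ∧ S'.kids = [] ∧
    (∀ y u, S'.A y u = if u < S.pts.length then S.A q u else e) ∧
    S.N.W.length ≤ x ∧ x < S'.N.W.length ∧
    (∀ u p, S.pts[u]? = some p → f S'.N.W p x = some (S.A q u)) ∧
    (path S'.N.W)[S.N.k]? = some pos ∧
    ∀ p ∈ S.kids, (p.1 < q → p.2 < pos) ∧ (q < p.1 → pos < p.2)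
  ext : Ext S.N.k S.N.W S'.N.W
  lt : S.N.k < S'.N.k

end Pool.Agent.Lib.MP_b4a791_lc
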