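import Pool.Agent.Lib.MP_b4a791_lc.A.CoSlot

/-! The environment of outer coarse nodes. -/

namespace Pool.Agent.Lib.MP_b4a791_lc

variable {f : Col}

/-- `Desc` is inherited by extensions. -/
theorem Desc.ext_ple {N : NS} {s s' : PS} {h h' : ℕ → ℕ → ℕ} (hd : Desc h N s)
    (hs : PLe h' s' s) : Desc (hcomp h' h) N s' := by
  refine ⟨hd.m_lt.trans_le hs.m_le, fun j hj => ?_, ?_, fun j hj hj' => ?_, ?_, ?_⟩
  · exact (hd.fle j hj).trans (hs.fle j (hj.trans hd.m_lt))
  · exact hd.fr.trans (hs.fle _ hd.m_lt)
  · rcases lt_or_ge j s.m with h1 | h1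
    · rw [(hs.fle j h1).1]
      exact hd.new j hj h1
    · exact (hd.k_lt.le).trans (hs.new j h1 hj')
  · exact hd.ext.trans (hs.ext.mono hd.k_lt.le)
  · exact hd.k_lt.trans_le hs.k_le

/-- The environment is inherited by extensions. -/
theorem Env.mono {pts : List ℕ} {L : List Dat} {s s' : PS} {c : Cons} {h : ℕ → ℕ → ℕ}
    (he : Env f pts L s c) (hs : PLe h s' s) : Env f pts L s' (push h c) := by
  induction L generalizing s s' c with
  | nil => trivial
  | cons D L ih =>
    obtain ⟨N, c0, C0, slot, g, h1, h2, h3, h4, h5, h6, h7⟩ := he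
    refine ⟨N, c0, C0, slot, hcomp h g, h1, h2, h3.ext_ple hs, fun x => ?_, ?_, ?_, ?_⟩
    · exact ⟨_, rfl, h4 x⟩
    · rw [← push_push]
      exact push_mono h5
    · intro x u p hp
      have ha := h6 x u p hp
      have hb : g N.m (slot x) < (s.Φ N.m).n := (h3.fr.2 (slot x) (h1.lt x)).1
      have hc := ((hs.fle _ h3.m_lt).2 _ hb).2.row
      have hd : ((s'.Φ N.m).tg (hcomp h g N.m (slot x))).row =
        ((s'.Φ N.m).tg (h N.m (g N.m (slot x)))).row := rfl
      rw [hd]
      obtain ⟨t, ht⟩ := hc
      rw [← ht, List.getElem?_append_left (List.getElem?_eq_some_iff.1 ha).1]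
      exact ha
    · rw [← push_push]
      refine ih h7 ⟨le_rfl, fun j hj => hs.fle j (hj.trans h3.m_lt),
        fun j h8 h9 => absurd h9 (not_lt.2 h8), ?_, le_rfl, List.prefix_rfl⟩
      exact hs.ext.mono h3.k_lt.le

/-- More constraints. -/
theorem Env.sup {pts : List ℕ} {L : List Dat} {s : PS} {c c' : Cons}
    (he : Env f pts L s c) (hc : ∀ j t b, c j t b → c' j t b) : Env f pts L s c' := by
  cases L with
  | nil => trivial
  | cons D L =>
    obtain ⟨N, c0, C0, slot, g, h1, h2, h3, h4, h5, h6, h7⟩ := he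
    exact ⟨N, c0, C0, slot, g, h1, h2, h3, fun x => hc _ _ _ (h4 x),
      fun j t b h => hc _ _ _ (h5 j t b h), h6, h7⟩

/-- A new designated point whose labels satisfy the constraints. -/
theorem Env.add {pts : List ℕ} {L : List Dat} {s : PS} {c : Cons} {x : ℕ}
    (he : Env f pts L s c) (hx : Sat s.Φ x c) :
    Env f (pts ++ [x]) (L.map (Dat.upd pts.length)) s c := by
  induction L generalizing s c with
  | nil => trivial
  | cons D L ih =>
    obtain ⟨N, c0, C0, slot, g, h1, h2, h3, h4, h5, h6, h7⟩ := he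
    refine ⟨N, c0, C0, slot, g, h1, h2, h3, h4, h5, ?_, ?_⟩
    · intro y u p hp
      simp only [Dat.upd, updA]
      rcases lt_or_ge u pts.length with hu | hu
      · rw [List.getElem?_append_left hu] at hp
        rw [if_pos hu]
        exact h6 y u p hp
      · rw [List.getElem?_append_right hu] at hp
        have hu' : u - pts.length = 0 := by
          by_contra hne
          rw [List.getElem?_eq_none (by simp; omega)] at hp
          simp at hp
        rw [hu'] at hp
        have hp' : x = p := by simpa using hp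
        subst hp'
        rw [if_neg (by omega)]
        exact hx _ _ _ (h4 y)
    · exact ih h7 fun j t b h => hx j t b (h5 j t b h)

end Pool.Agent.Lib.MP_b4a791_lc
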