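import Pool.Agent.Lib.MP_b4a791_lc.A.Words

/-!
# MP_b4a791_lc, Part A: transitivity of the colors of designated points (abstract part)
-/

namespace Pool.Agent.Lib.MP_b4a791_lc

/-- Labels along coarse words: `A w i x u` is the label of the designated point number `u`
toward a future child at position `x` of the open coarse node number `i ≤ dep w`;
`col u v` would be the color of designated points, read at the word where `v` is created:
`col w u` is the color of the pair (`u`, `w.length`) when the move after `w` is `m`. -/
structure LabData (A : Word → ℕ → ℚ → ℕ → Bool) (ψ : Word → ℕ → Bool → Bool) : Prop where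
  psi : ∀ w (m : Move) i, i ≤ min m.1 (dep w) → ψ (w ++ [m]) i = ψ w i
  old : ∀ w (m : Move) i x u, i ≤ min m.1 (dep w) → u < w.length →
    A (w ++ [m]) i x u = A w i x u
  lab_lt : ∀ w (m : Move) i x q, i < min m.1 (dep w) → (path w)[i]? = some q →
    A (w ++ [m]) i x w.length = ψ w i (decide (q ≤ x))
  lab_eq : ∀ w (m : Move) x,
    A (w ++ [m]) (min m.1 (dep w)) x w.length = ψ w (min m.1 (dep w)) (decide (m.2 ≤ x))
  new_old : ∀ w (m : Move) x u, u < w.length →
    A (w ++ [m]) (min m.1 (dep w) + 1) x u = A w (min m.1 (dep w)) m.2 u
  new_new : ∀ w (m : Move), ∃ e, ∀ x, A (w ++ [m]) (min m.1 (dep w) + 1) x w.length = e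

/-- Color of the pair `(u, w.length)` created by the move `m` after `w`. -/
def labCol (A : Word → ℕ → ℚ → ℕ → Bool) (w : Word) (m : Move) (u : ℕ) : Bool :=
  A w (min m.1 (dep w)) m.2 u

/-- First invariant. -/
theorem LabData.inv {A : Word → ℕ → ℚ → ℕ → Bool} {ψ : Word → ℕ → Bool → Bool}
    (h : LabData A ψ) (w : Word) : ∀ i' i, i' ≤ i → i ≤ dep w → ∀ x' x u, u < w.length →
      A w i' x' u = A w i x u ∨
        (i' = i ∧ A w i' x' u = ψ w i' (decide (x ≤ x'))) ∨
        (i' < i ∧ ∃ q, (path w)[i']? = some q ∧ A w i' x' u = ψ w i' (decide (q ≤ x'))) := by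
  induction w using List.reverseRecOn with
  | nil => intro i' i _ _ x' x u hu; simp at hu
  | append_singleton w m ih =>
    intro i' i hi' hi x' x u hu
    rw [dep_snoc] at hi
    have hkd : min m.1 (dep w) ≤ dep w := min_le_right _ _
    have hpath_lt : ∀ l, l < min m.1 (dep w) → (path (w ++ [m]))[l]? = (path w)[l]? := by
      intro l hl
      have h1 : l < m.1 := lt_of_lt_of_le hl (min_le_left _ _)
      have h2 : l < dep w := lt_of_lt_of_le hl (min_le_right _ _)
      rw [path_snoc, List.getElem?_append_left (by rw [List.length_take]; exact hl),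
        List.getElem?_take, if_pos h1]
    have hpath_eq : (path (w ++ [m]))[min m.1 (dep w)]? = some m.2 := by
      have h1 : ((path w).take m.1).length = min m.1 (dep w) := List.length_take
      rw [path_snoc, List.getElem?_append_right (by rw [h1]), h1]
      simp
    have hdec : ∀ y' y z : ℚ, (decide (z ≤ y') = decide (z ≤ y)) ∨
        (decide (z ≤ y') = decide (y ≤ y')) := by
      intro y' y z
      by_cases h1 : z ≤ y' <;> by_cases h2 : z ≤ y
      · left; simp [h1, h2]
      · right
        have h3 : y ≤ y' := (le_of_not_ge h2).trans h1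
        simp [h1, h3]
      · right
        have h3 : ¬ y ≤ y' := fun h => h1 (h2.trans h)
        simp [h1, h3]
      · left; simp [h1, h2]
    rw [List.length_append, List.length_singleton] at hu
    rcases Nat.lt_or_ge u w.length with hu' | hu'
    · -- old point
      rcases Nat.lt_or_ge (min m.1 (dep w)) i with hik | hik
      · have hi1 : i = min m.1 (dep w) + 1 := by omega
        subst hi1
        rw [h.new_old w m x u hu']
        rcases Nat.lt_or_ge (min m.1 (dep w)) i' with hik' | hik'
        · have hi1' : i' = min m.1 (dep w) + 1 := by omega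
          subst hi1'
          left
          rw [h.new_old w m x' u hu']
        · rw [h.old w m i' x' u hik' hu', h.psi w m i' hik']
          rcases ih i' (min m.1 (dep w)) hik' hkd x' m.2 u hu' with h1 | ⟨h1, h2⟩ | ⟨h1, q, h2, h3⟩
          · left; exact h1
          · right; right
            refine ⟨by omega, m.2, ?_, h2⟩
            rw [h1]; exact hpath_eq
          · right; right
            refine ⟨by omega, q, ?_, h3⟩
            rw [hpath_lt i' h1]; exact h2
      · have hik' : i' ≤ min m.1 (dep w) := hi'.trans hik
        rw [h.old w m i' x' u hik' hu', h.old w m i x u hik hu', h.psi w m i' hik']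
        rcases ih i' i hi' (hik.trans hkd) x' x u hu' with h1 | ⟨h1, h2⟩ | ⟨h1, q, h2, h3⟩
        · left; exact h1
        · right; left; exact ⟨h1, h2⟩
        · right; right
          refine ⟨h1, q, ?_, h3⟩
          rw [hpath_lt i' (lt_of_lt_of_le h1 hik)]; exact h2
    · -- new point
      have huw : u = w.length := by omega
      subst huw
      rcases Nat.lt_trichotomy i' (min m.1 (dep w)) with hik' | hik' | hik'
      · -- i' < k
        have hlt : i' < (path w).length := lt_of_lt_of_le hik' hkd
        have hq : (path w)[i']? = some ((path w)[i']) := List.getElem?_eq_getElem hlt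
        rw [h.psi w m i' hik'.le]
        have hA' := h.lab_lt w m i' x' _ hik' hq
        rcases Nat.lt_or_ge i' i with hlt' | hge'
        · right; right
          refine ⟨hlt', _, ?_, hA'⟩
          rw [hpath_lt i' hik']; exact hq
        · have hii : i = i' := le_antisymm hge' hi'
          subst hii
          have hA := h.lab_lt w m i x _ hik' hq
          rcases hdec x' x ((path w)[i]) with h1 | h1
          · left; rw [hA', hA, h1]
          · right; left
            exact ⟨rfl, by rw [hA', h1]⟩
      · -- i' = k
        have hpe : (path (w ++ [m]))[i']? = some m.2 := by rw [hik']; exact hpath_eq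
        have hA' : ∀ y, A (w ++ [m]) i' y w.length = ψ w i' (decide (m.2 ≤ y)) := by
          intro y
          rw [hik']; exact h.lab_eq w m y
        rw [h.psi w m i' hik'.le]
        rcases Nat.lt_or_ge i' i with hlt' | hge'
        · right; right
          exact ⟨hlt', _, hpe, hA' x'⟩
        · have hii : i = i' := le_antisymm hge' hi'
          subst hii
          rcases hdec x' x m.2 with h1 | h1
          · left; rw [hA', hA', h1]
          · right; left
            exact ⟨rfl, by rw [hA', h1]⟩
      · -- i' = k + 1
        have h1 : i' = min m.1 (dep w) + 1 := by omega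
        have h2 : i = min m.1 (dep w) + 1 := by omega
        obtain ⟨e, he⟩ := h.new_new w m
        left
        rw [h1, h2, he, he]

/-- Second invariant (compatibility). -/
theorem LabData.comp {A : Word → ℕ → ℚ → ℕ → Bool} {ψ : Word → ℕ → Bool → Bool}
    (h : LabData A ψ) (w : Word) (m : Move) (w' : Word) (hw : w ++ [m] <+: w') :
    ∀ i ≤ dep w', ∀ x u, u < w.length →
      A w' i x u = labCol A w m u ∨ A w' i x u = A w' i x w.length := by
  obtain ⟨L, rfl⟩ := hw
  induction L using List.reverseRecOn with
  | nil =>
    intro i hi x u hu
    rw [List.append_nil] at hi ⊢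
    rw [dep_snoc] at hi
    rcases Nat.lt_or_ge (min m.1 (dep w)) i with hik | hik
    · have hi1 : i = min m.1 (dep w) + 1 := by omega
      subst hi1
      left
      rw [h.new_old w m x u hu]
      rfl
    · rw [h.old w m i x u hik hu]
      rcases h.inv w i (min m.1 (dep w)) hik (min_le_right _ _) x m.2 u hu with
        h1 | ⟨h1, h2⟩ | ⟨h1, q, h2, h3⟩
      · left; exact h1
      · right
        have h3 := h.lab_eq w m x
        rw [← h1] at h3
        rw [h2, h3]
      · right
        rw [h3, h.lab_lt w m i x q h1 h2]
  | append_singleton L m' ih =>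
    intro i hi x u hu
    rw [← List.append_assoc] at hi ⊢
    rw [dep_snoc] at hi
    have hlen : w.length < (w ++ [m] ++ L).length := by
      simp only [List.length_append, List.length_singleton]; omega
    have hu' : u < (w ++ [m] ++ L).length := hu.trans hlen
    rcases Nat.lt_or_ge (min m'.1 (dep (w ++ [m] ++ L))) i with hik | hik
    · have hi1 : i = min m'.1 (dep (w ++ [m] ++ L)) + 1 := by omega
      subst hi1
      rw [h.new_old _ m' x u hu', h.new_old _ m' x w.length hlen]
      exact ih _ (min_le_right _ _) m'.2 u hu
    · rw [h.old _ m' i x u hik hu', h.old _ m' i x w.length hik hlen]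
      exact ih i (hik.trans (min_le_right _ _)) x u hu

/-- Transitivity: for designated points `u < v < t`, where `v` is created by the move `m` after
`w` and `t` by the move `m'` after `w'`. -/
theorem LabData.trans {A : Word → ℕ → ℚ → ℕ → Bool} {ψ : Word → ℕ → Bool → Bool}
    (h : LabData A ψ) (w : Word) (m : Move) (w' : Word) (m' : Move) (hw : w ++ [m] <+: w')
    (u : ℕ) (hu : u < w.length) (b : Bool) (h1 : labCol A w m u = b)
    (h2 : labCol A w' m' w.length = b) : labCol A w' m' u = b := by
  rcases h.comp w m w' hw (min m'.1 (dep w')) (min_le_right _ _) m'.2 u hu with h3 | h3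
  · rw [labCol, h3, h1]
  · rw [labCol, h3]
    exact h2

end Pool.Agent.Lib.MP_b4a791_lc
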