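import Pool.Agent.Lib.MP_b4a791_lc.A.Words

/-!
# MP_b4a791_lc, Part A: the sibling property of embeddings (abstract part)
-/

namespace Pool.Agent.Lib.MP_b4a791_lc

/-- The sibling property. -/
def SibStr (σ : Word → Word) : Prop :=
  ∀ (v2 w2 v4 w4 : Word) (K : ℕ) (q2 q4 : ℚ), Ext (K + 1) v2 w2 → Ext K w2 v4 →
    Ext (K + 1) v4 w4 → (path v2)[K]? = some q2 → (path v4)[K]? = some q4 → q2 ≠ q4 →
    ∃ (l : ℕ) (p2 p4 : ℚ), (path (σ v2))[l]? = some p2 ∧ (path (σ v4))[l]? = some p4 ∧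
      Ext (l + 1) (σ v2) (σ w2) ∧ Ext l (σ w2) (σ v4) ∧ Ext (l + 1) (σ v4) (σ w4) ∧
      p2 ≠ p4 ∧ (p2 < p4 ↔ q2 < q4)

theorem SibStr.id : SibStr (fun w => w) := by
  intro v2 w2 v4 w4 K q2 q4 h1 h2 h3 h4 h5 h6
  exact ⟨K, q2, q4, h4, h5, h1, h2, h3, h6, Iff.rfl⟩

theorem SibStr.comp {σ τ : Word → Word} (hσ : SibStr σ) (hτ : SibStr τ) :
    SibStr (fun w => τ (σ w)) := by
  intro v2 w2 v4 w4 K q2 q4 h1 h2 h3 h4 h5 h6
  obtain ⟨l, p2, p4, a1, a2, a3, a4, a5, a6, a7⟩ := hσ v2 w2 v4 w4 K q2 q4 h1 h2 h3 h4 h5 h6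
  obtain ⟨l', r2, r4, b1, b2, b3, b4, b5, b6, b7⟩ := hτ _ _ _ _ l p2 p4 a3 a4 a5 a1 a2 a6
  exact ⟨l', r2, r4, b1, b2, b3, b4, b5, b6, b7.trans a7⟩

/-- Data along coarse words from which the sibling property follows: base levels `lev w i`
and lists of kids for the open coarse nodes `i ≤ dep w`. -/
structure LevData (σ : Word → Word) (lev : Word → ℕ → ℕ) (kids : Word → ℕ → List (ℚ × ℚ)) :
    Prop where
  nil : ∀ i, kids [] i = []
  lev_eq : ∀ w (m : Move) i, i ≤ min m.1 (dep w) → lev (w ++ [m]) i = lev w i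
  ext : ∀ w (m : Move), Ext (lev w (min m.1 (dep w))) (σ w) (σ (w ++ [m]))
  lev_lt : ∀ w i, i < dep w → lev w i < lev w (i + 1)
  lev_dep : ∀ w i, i ≤ dep w → lev w i ≤ dep (σ w)
  kids_lt : ∀ w (m : Move) i, i < min m.1 (dep w) → kids (w ++ [m]) i = kids w i
  kids_new : ∀ w (m : Move), kids (w ++ [m]) (min m.1 (dep w) + 1) = []
  kids_eq : ∀ w (m : Move), ∃ pos, kids (w ++ [m]) (min m.1 (dep w)) =
      (m.2, pos) :: kids w (min m.1 (dep w)) ∧
    (path (σ (w ++ [m])))[lev w (min m.1 (dep w))]? = some pos ∧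
    ∀ p ∈ kids w (min m.1 (dep w)), (p.1 < m.2 → p.2 < pos) ∧ (m.2 < p.1 → pos < p.2)

private lemma Sib_mono {σ : Word → Word} {lev : Word → ℕ → ℕ} {kids : Word → ℕ → List (ℚ × ℚ)}
    (h : LevData σ lev kids) (w : Word) {i j : ℕ} (hij : i ≤ j) (hj : j ≤ dep w) :
    lev w i ≤ lev w j := by
  induction j, hij using Nat.le_induction with
  | base => exact le_rfl
  | succ j _ ih => exact (ih (by omega)).trans (h.lev_lt w j (by omega)).le

private lemma Sib_lt {σ : Word → Word} {lev : Word → ℕ → ℕ} {kids : Word → ℕ → List (ℚ × ℚ)}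
    (h : LevData σ lev kids) (w : Word) {i j : ℕ} (hij : i < j) (hj : j ≤ dep w) :
    lev w i < lev w j :=
  (h.lev_lt w i (by omega)).trans_le (Sib_mono h w hij hj)

/-- Levels along `Ext`. -/
theorem LevData.along {σ : Word → Word} {lev : Word → ℕ → ℕ} {kids : Word → ℕ → List (ℚ × ℚ)}
    (h : LevData σ lev kids) {w w' : Word} {i : ℕ} (hi : i ≤ dep w) (hw : Ext i w w') :
    (∀ j ≤ i, lev w' j = lev w j) ∧ Ext (lev w i) (σ w) (σ w') ∧
      ∀ p ∈ kids w i, p ∈ kids w' i := by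
  refine Ext.induct (P := fun w' => (∀ j ≤ i, lev w' j = lev w j) ∧
    Ext (lev w i) (σ w) (σ w') ∧ ∀ p ∈ kids w i, p ∈ kids w' i)
    ⟨fun j _ => rfl, Ext.refl _ _, fun p hp => hp⟩ (fun W' m h' ih hm => ?_) hw
  obtain ⟨h1, h2, h3⟩ := ih
  have hd : i ≤ dep W' := h'.dep_le hi
  have hk : i ≤ min m.1 (dep W') := le_min hm hd
  refine ⟨fun j hj => ?_, ?_, fun p hp => ?_⟩
  · rw [h.lev_eq W' m j (hj.trans hk), h1 j hj]
  · refine h2.trans ((h.ext W' m).mono ?_)
    rw [← h1 i le_rfl]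
    exact Sib_mono h W' hk (min_le_right _ _)
  · have h4 := h3 p hp
    rcases hk.lt_or_eq with h5 | h5
    · rw [h.kids_lt W' m i h5]
      exact h4
    · obtain ⟨pos, h6, -, -⟩ := h.kids_eq W' m
      rw [← h5] at h6
      rw [h6]
      exact List.mem_cons_of_mem _ h4

/-- The open child is in the list of kids, with its base position. -/
theorem LevData.open_kid {σ : Word → Word} {lev : Word → ℕ → ℕ}
    {kids : Word → ℕ → List (ℚ × ℚ)} (h : LevData σ lev kids) (w : Word) {i : ℕ} {q : ℚ}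
    (hq : (path w)[i]? = some q) :
    ∃ pos, (q, pos) ∈ kids w i ∧ (path (σ w))[lev w i]? = some pos := by
  induction w using List.reverseRecOn with
  | nil => simp at hq
  | append_singleton w m ih =>
    have hlt := path_get_lt hq
    rw [dep_snoc] at hlt
    have hlen : ((path w).take m.1).length = min m.1 (dep w) := by
      rw [List.length_take]
      rfl
    rw [path_snoc] at hq
    rcases Nat.lt_or_ge i (min m.1 (dep w)) with h1 | h1
    · rw [List.getElem?_append_left (by rw [hlen]; exact h1), List.getElem?_take,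
        if_pos (lt_of_lt_of_le h1 (min_le_left _ _))] at hq
      obtain ⟨pos, h2, h3⟩ := ih hq
      refine ⟨pos, ?_, ?_⟩
      · rw [h.kids_lt w m i h1]
        exact h2
      · rw [h.lev_eq w m i h1.le,
          (h.ext w m).get (Sib_lt h w h1 (min_le_right _ _)) (h.lev_dep w _ (min_le_right _ _))]
        exact h3
    · have h2 : i = min m.1 (dep w) := by omega
      rw [List.getElem?_append_right (by rw [hlen]; exact h1), hlen, h2, Nat.sub_self] at hq
      have hq' : m.2 = q := by simpa using hq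
      obtain ⟨pos, h3, h4, -⟩ := h.kids_eq w m
      refine ⟨pos, ?_, ?_⟩
      · rw [h2, h3, hq']
        exact List.mem_cons_self
      · rw [h2, h.lev_eq w m _ le_rfl]
        exact h4

/-- The lists of kids are order preserving. -/
theorem LevData.kids_ord {σ : Word → Word} {lev : Word → ℕ → ℕ}
    {kids : Word → ℕ → List (ℚ × ℚ)} (h : LevData σ lev kids) (w : Word) (i : ℕ)
    (hi : i ≤ dep w) : ∀ p ∈ kids w i, ∀ p' ∈ kids w i, p.1 < p'.1 → p.2 < p'.2 := by
  induction w using List.reverseRecOn generalizing i with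
  | nil =>
    intro p hp
    rw [h.nil i] at hp
    exact absurd hp List.not_mem_nil
  | append_singleton w m ih =>
    rw [dep_snoc] at hi
    rcases lt_trichotomy i (min m.1 (dep w)) with h1 | h1 | h1
    · rw [h.kids_lt w m i h1]
      exact ih i (h1.le.trans (min_le_right _ _))
    · subst h1
      obtain ⟨pos, h2, -, h4⟩ := h.kids_eq w m
      rw [h2]
      intro p hp p' hp' hlt
      rcases List.mem_cons.1 hp with rfl | hp
      · rcases List.mem_cons.1 hp' with rfl | hp'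
        · exact absurd hlt (lt_irrefl _)
        · exact (h4 p' hp').2 hlt
      · rcases List.mem_cons.1 hp' with rfl | hp'
        · exact (h4 p hp).1 hlt
        · exact ih _ (min_le_right _ _) p hp p' hp' hlt
    · have h2 : i = min m.1 (dep w) + 1 := by omega
      rw [h2, h.kids_new w m]
      intro p hp
      exact absurd hp List.not_mem_nil

theorem LevData.sibStr {σ : Word → Word} {lev : Word → ℕ → ℕ}
    {kids : Word → ℕ → List (ℚ × ℚ)} (h : LevData σ lev kids) : SibStr σ := by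
  intro v2 w2 v4 w4 K q2 q4 h1 h2 h3 h4 h5 h6
  have d2 : K < dep v2 := path_get_lt h4
  have d4 : K < dep v4 := path_get_lt h5
  obtain ⟨a1, a2, -⟩ := h.along (i := K + 1) d2 h1
  obtain ⟨-, -, a3⟩ := h.along (i := K) d2.le (h1.mono (Nat.le_succ K))
  have dw2 : K + 1 ≤ dep w2 := h1.dep_le d2
  obtain ⟨b1, b2, b3⟩ := h.along (i := K) (by omega) h2
  obtain ⟨-, c2, -⟩ := h.along (i := K + 1) d4 h3
  have e1 : lev w2 K = lev v2 K := a1 K (Nat.le_succ K)
  have e2 : lev v4 K = lev v2 K := (b1 K le_rfl).trans e1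
  obtain ⟨p2, k2, k2'⟩ := h.open_kid v2 h4
  obtain ⟨p4, k4, k4'⟩ := h.open_kid v4 h5
  have k2'' : (q2, p2) ∈ kids v4 K := b3 _ (a3 _ k2)
  have hord := h.kids_ord v4 K d4.le
  refine ⟨lev v2 K, p2, p4, k2', by rw [← e2]; exact k4', a2.mono ?_, by rw [← e1]; exact b2,
    c2.mono ?_, ?_, ?_⟩
  · exact Nat.succ_le_of_lt (h.lev_lt v2 K d2)
  · rw [← e2]
    exact Nat.succ_le_of_lt (h.lev_lt v4 K d4)
  · rcases lt_or_gt_of_ne h6 with h7 | h7
    · exact (hord _ k2'' _ k4 h7).ne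
    · exact (hord _ k4 _ k2'' h7).ne'
  · constructor
    · intro h8
      by_contra h9
      rcases lt_or_gt_of_ne h6 with h7 | h7
      · exact h9 h7
      · exact absurd h8 (hord _ k4 _ k2'' h7).le.not_gt
    · intro h8
      exact hord _ k2'' _ k4 h8

end Pool.Agent.Lib.MP_b4a791_lc
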