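import Pool.Agent.Lib.MP_b4a791_lc.A.CoStep
import Pool.Agent.Lib.MP_b4a791_lc.A.Sib
import Pool.Agent.Lib.MP_b4a791_lc.A.Lab

/-!
# MP_b4a791_lc, Part A: coarse states along coarse words
-/

namespace Pool.Agent.Lib.MP_b4a791_lc

variable {f : Col}

/-- Base level of the open coarse node number `i` (counted from the root; the last one is
number `S.L.length`). -/
def CSt.lev (S : CSt) (i : ℕ) : ℕ :=
  match S.L.reverse[i]? with
  | some D => D.lev
  | none => S.N.k

/-- Kids of the open coarse node number `i`. -/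
def CSt.kid (S : CSt) (i : ℕ) : List (ℚ × ℚ) :=
  match S.L.reverse[i]? with
  | some D => D.kids
  | none => S.kids

/-- Labels of the open coarse node number `i`. -/
def CSt.lab (S : CSt) (i : ℕ) : ℚ → ℕ → Bool :=
  match S.L.reverse[i]? with
  | some D => D.A
  | none => S.A

/-- Type of the open coarse node number `i`. -/
def CSt.typ (S : CSt) (i : ℕ) : Bool → Bool :=
  match S.L.reverse[i]? with
  | some D => D.ψ
  | none => S.ψ

/-- `S1` arises from `S` by closing `n` coarse nodes. -/
structure PopsRel (S S1 : CSt) (n : ℕ) : Prop where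
  le : n ≤ S.L.length
  L : S1.L = S.L.drop n
  lev : S1.N.k = S.lev (S.L.length - n)
  kids : S1.kids = S.kid (S.L.length - n)
  A : S1.A = S.lab (S.L.length - n)
  ψ : S1.ψ = S.typ (S.L.length - n)
  pts : S1.pts = S.pts
  ext : Ext S1.N.k S.N.W S1.N.W

/-- Levels are strictly increasing. -/
theorem Env.lev_lt {pts : List ℕ} {L : List Dat} {s : PS} {c : Cons} (he : Env f pts L s c) :
    List.Pairwise (fun D D' => D'.lev < D.lev) L ∧ ∀ D ∈ L, D.lev < s.k := by
  induction L generalizing s c with
  | nil => exact ⟨List.Pairwise.nil, fun D hD => absurd hD List.not_mem_nil⟩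
  | cons D L ih =>
    obtain ⟨N, c0, C0, slot, h, -, hk, hd, -, -, -, he'⟩ := he
    obtain ⟨h1, h2⟩ := ih he'
    have h3 : N.k < s.k := hd.k_lt
    refine ⟨List.pairwise_cons.2 ⟨fun D' hD' => ?_, h1⟩, fun D' hD' => ?_⟩
    · rw [← hk]
      exact h2 D' hD'
    · rcases List.mem_cons.1 hD' with rfl | hD'
      · rw [← hk]
        exact h3
      · exact (h2 D' hD').trans h3

private theorem CoRec_some {S : CSt} {i : ℕ} (hi : i < S.L.length) :
    ∃ D ∈ S.L, S.L.reverse[i]? = some D ∧ S.lev i = D.lev := by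
  have h : i < S.L.reverse.length := by rwa [List.length_reverse]
  refine ⟨S.L.reverse[i], ?_, List.getElem?_eq_getElem h, ?_⟩
  · exact List.mem_reverse.1 (List.getElem_mem h)
  · unfold CSt.lev
    rw [List.getElem?_eq_getElem h]

private theorem CoRec_none {S : CSt} {i : ℕ} (hi : S.L.length ≤ i) :
    S.L.reverse[i]? = none := by
  rw [List.getElem?_eq_none_iff, List.length_reverse]
  exact hi

private theorem CoRec_lev_top {S : CSt} : S.lev S.L.length = S.N.k := by
  unfold CSt.lev
  rw [CoRec_none le_rfl]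

theorem CVal.lev_lt {S : CSt} (hS : CVal f S) {i : ℕ} (hi : i < S.L.length) :
    S.lev i < S.lev (i + 1) := by
  obtain ⟨h1, h2⟩ := hS.env.lev_lt
  obtain ⟨D, hD, hD1, hD2⟩ := CoRec_some hi
  rcases Nat.lt_or_ge (i + 1) S.L.length with h | h
  · obtain ⟨D', hD', hD1', hD2'⟩ := CoRec_some h
    rw [hD2, hD2']
    have h3 : List.Pairwise (fun D D' : Dat => D.lev < D'.lev) S.L.reverse :=
      List.pairwise_reverse.2 h1
    obtain ⟨k1, k2⟩ := List.getElem?_eq_some_iff.1 hD1
    obtain ⟨k1', k2'⟩ := List.getElem?_eq_some_iff.1 hD1'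
    have h4 := List.pairwise_iff_getElem.1 h3 i (i + 1) k1 k1' (Nat.lt_succ_self i)
    rw [k2, k2'] at h4
    exact h4
  · have h3 : i + 1 = S.L.length := le_antisymm hi h
    rw [hD2, h3, CoRec_lev_top]
    exact h2 D hD

theorem CVal.lev_dep {S : CSt} (hS : CVal f S) {i : ℕ} (hi : i ≤ S.L.length) :
    S.lev i ≤ dep S.N.W := by
  have h0 : S.N.k ≤ dep S.N.W := hS.slots.good.good.k_le
  rcases Nat.lt_or_ge i S.L.length with h | h
  · obtain ⟨D, hD, -, hD2⟩ := CoRec_some h
    rw [hD2]
    exact (hS.env.lev_lt.2 D hD).le.trans h0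
  · have h3 : i = S.L.length := le_antisymm hi h
    rw [h3, CoRec_lev_top]
    exact h0

/-- Closing `n` coarse nodes (iterate `exists_pop`). -/
theorem exists_pops {S : CSt} (hS : CVal f S) (n : ℕ) (hn : n ≤ S.L.length) :
    ∃ S1, CVal f S1 ∧ PopsRel S S1 n := by
  induction n with
  | zero =>
    refine ⟨S, hS, Nat.zero_le _, List.drop_zero.symm, ?_, ?_, ?_, ?_, rfl, Ext.refl _ _⟩
    · exact CoRec_lev_top.symm
    · unfold CSt.kid
      rw [Nat.sub_zero, CoRec_none le_rfl]
    · unfold CSt.lab
      rw [Nat.sub_zero, CoRec_none le_rfl]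
    · unfold CSt.typ
      rw [Nat.sub_zero, CoRec_none le_rfl]
  | succ n ih =>
    obtain ⟨S1, h1, h2⟩ := ih (by omega)
    have hlt : n < S.L.length := by omega
    have h3 : S1.L = S.L[n] :: S.L.drop (n + 1) := by
      rw [h2.L]
      exact List.drop_eq_getElem_cons hlt
    obtain ⟨S', h4, h5⟩ := exists_pop h1 h3
    have h6 : S'.L = S.L.drop (n + 1) := by
      have := h5.L
      rw [h3] at this
      exact (List.cons.inj this).2.symm
    have h7 : S.L.reverse[S.L.length - (n + 1)]? = some S.L[n] := by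
      rw [List.getElem?_reverse (by omega)]
      have h8 : S.L.length - 1 - (S.L.length - (n + 1)) = n := by omega
      rw [h8]
      exact List.getElem?_eq_getElem hlt
    refine ⟨S', h4, hn, h6, ?_, ?_, ?_, ?_, h5.pts.trans h2.pts, ?_⟩
    · unfold CSt.lev
      rw [h7]
      exact h5.lev
    · unfold CSt.kid
      rw [h7]
      exact h5.kids
    · unfold CSt.lab
      rw [h7]
      exact h5.A
    · unfold CSt.typ
      rw [h7]
      exact h5.ψ
    · rw [h5.lev]
      exact (h2.ext.mono h5.lt.le).trans h5.ext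

/-- Coarse states along all coarse words. -/
structure States (f : Col) (W0 : Word) (St : Word → CSt) : Prop where
  val : ∀ w, CVal f (St w)
  L0 : (St []).L = []
  pts0 : (St []).pts = []
  kids0 : (St []).kids = []
  k0 : (St []).N.k = dep W0
  ext0 : Ext (dep W0) W0 (St []).N.W
  step : ∀ w (m : Move), ∃ S1, CVal f S1 ∧
    PopsRel (St w) S1 ((St w).L.length - min m.1 (St w).L.length) ∧
    OpenRel f m.2 S1 (St (w ++ [m]))

/-- Existence, by recursion on the word (e.g. `List.foldl` over the moves of a choice function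
on valid states, started at `exists_start`). -/
theorem exists_states (hf : MD f) (W0 : Word) : ∃ St, States f W0 St := by
  obtain ⟨S0, h0, h1, h2, h3, h4, h5⟩ := exists_start hf W0
  have hstep : ∀ (S : {S : CSt // CVal f S}) (m : Move), ∃ S' : {S : CSt // CVal f S},
      ∃ S1, CVal f S1 ∧ PopsRel S.1 S1 (S.1.L.length - min m.1 S.1.L.length) ∧
        OpenRel f m.2 S1 S'.1 := by
    rintro ⟨S, hS⟩ m
    obtain ⟨S1, a1, a2⟩ := exists_pops hS (S.L.length - min m.1 S.L.length) (Nat.sub_le _ _)
    obtain ⟨S', b1, b2⟩ := exists_open hf a1 m.2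
    exact ⟨⟨S', b1⟩, S1, a1, a2, b2⟩
  choose st hst using hstep
  refine ⟨fun w => (w.foldl st ⟨S0, h0⟩).1, ?_⟩
  exact
    { val := fun w => (w.foldl st ⟨S0, h0⟩).2
      L0 := h1
      pts0 := h2
      kids0 := h3
      k0 := h4
      ext0 := h5
      step := fun w m => by
        simp only [List.foldl_append, List.foldl_cons, List.foldl_nil]
        exact hst _ m }

/-- the last step in terms of the data of the previous state -/
private theorem CoRec_stp {W0 : Word} {St : Word → CSt} (h : States f W0 St) (w : Word) (m : Move)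
    {k : ℕ} (hk : k = min m.1 (St w).L.length) :
    ∃ x pos e,
      (St (w ++ [m])).L.reverse = (((St w).L.reverse.take k).map (Dat.upd (St w).pts.length)) ++
        [⟨(St w).typ k, m.2, updA ((St w).lab k) ((St w).typ k) m.2 (St w).pts.length,
          (m.2, pos) :: (St w).kid k, (St w).lev k⟩] ∧
      (St (w ++ [m])).pts = (St w).pts ++ [x] ∧ (St (w ++ [m])).kids = [] ∧
      (∀ y u, (St (w ++ [m])).A y u =
        if u < (St w).pts.length then (St w).lab k m.2 u else e) ∧
      (path (St (w ++ [m])).N.W)[(St w).lev k]? = some pos ∧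
      (∀ p ∈ (St w).kid k, (p.1 < m.2 → p.2 < pos) ∧ (m.2 < p.1 → pos < p.2)) ∧
      Ext ((St w).lev k) (St w).N.W (St (w ++ [m])).N.W := by
  obtain ⟨S1, -, hp, ho⟩ := h.step w m
  obtain ⟨x, pos, e, o1, o2, o3, o4, -, -, -, o5, o6⟩ := ho.ex
  have hkl : k ≤ (St w).L.length := by rw [hk]; exact min_le_right _ _
  have hn : (St w).L.length - ((St w).L.length - min m.1 (St w).L.length) = k := by
    rw [← hk]; omega
  have p1 := hp.L
  have p2 := hp.lev
  have p3 := hp.kids
  have p4 := hp.A
  have p5 := hp.ψ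
  have p6 := hp.pts
  have p7 := hp.ext
  rw [hn] at p2 p3 p4 p5
  have oe := ho.ext
  rw [p2] at o1 o5 oe p7
  rw [p3] at o1 o6
  rw [p4, p6] at o1 o4
  rw [p5] at o1
  rw [p6] at o2
  refine ⟨x, pos, e, ?_, o2, o3, o4, o5, o6, p7.trans oe⟩
  rw [o1, List.reverse_cons, p1, ← hk, ← List.map_reverse, List.reverse_drop]
  congr 4
  omega

/-- The number of outer records is the depth. -/
theorem States.len {W0 : Word} {St : Word → CSt} (h : States f W0 St) (w : Word) :
    (St w).L.length = dep w ∧ (St w).pts.length = w.length := by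
  induction w using List.reverseRecOn with
  | nil =>
    rw [h.L0, h.pts0]
    exact ⟨rfl, rfl⟩
  | append_singleton w m ih =>
    obtain ⟨x, pos, e, h1, h2, -⟩ := CoRec_stp h w m rfl
    constructor
    · rw [← List.length_reverse, h1, List.length_append, List.length_map, List.length_take,
        List.length_reverse, List.length_singleton, dep_snoc, ih.1]
      omega
    · rw [h2, List.length_append, List.length_append, ih.2]
      rfl

/-- The coarse positions of the records are the positions of the open coarse nodes. -/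
theorem States.pos {W0 : Word} {St : Word → CSt} (h : States f W0 St) (w : Word) :
    (St w).L.reverse.map Dat.q = path w := by
  induction w using List.reverseRecOn with
  | nil =>
    rw [h.L0]
    rfl
  | append_singleton w m ih =>
    obtain ⟨x, pos, e, h1, -⟩ := CoRec_stp h w m rfl
    have hc : Dat.q ∘ Dat.upd (St w).pts.length = Dat.q := rfl
    rw [h1, List.map_append, List.map_map, hc, List.map_take, ih, path_snoc, (h.len w).1]
    have h2 : (path w).take (min m.1 (dep w)) = (path w).take m.1 := by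
      rw [List.take_eq_take_iff]
      show min (min m.1 (path w).length) (path w).length = _
      omega
    rw [h2]
    rfl

private theorem CoRec_some' {S : CSt} {i : ℕ} (hi : i < S.L.length) :
    ∃ D, S.L.reverse[i]? = some D := by
  obtain ⟨D, -, h, -⟩ := CoRec_some hi
  exact ⟨D, h⟩

/-- the data of the new state -/
private theorem CoRec_new {W0 : Word} {St : Word → CSt} (h : States f W0 St) (w : Word)
    (m : Move) :
    ∃ pos e,
      (∀ i, i < min m.1 (dep w) → ∃ D : Dat, (St w).L.reverse[i]? = some D ∧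
        (St (w ++ [m])).L.reverse[i]? = some (D.upd w.length)) ∧
      (St (w ++ [m])).L.reverse[min m.1 (dep w)]? =
        some ⟨(St w).typ (min m.1 (dep w)), m.2,
          updA ((St w).lab (min m.1 (dep w))) ((St w).typ (min m.1 (dep w))) m.2 w.length,
          (m.2, pos) :: (St w).kid (min m.1 (dep w)), (St w).lev (min m.1 (dep w))⟩ ∧
      (St (w ++ [m])).L.reverse[min m.1 (dep w) + 1]? = none ∧
      (St (w ++ [m])).kids = [] ∧
      (∀ y u, (St (w ++ [m])).A y u =
        if u < w.length then (St w).lab (min m.1 (dep w)) m.2 u else e) ∧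
      (path (St (w ++ [m])).N.W)[(St w).lev (min m.1 (dep w))]? = some pos ∧
      (∀ p ∈ (St w).kid (min m.1 (dep w)), (p.1 < m.2 → p.2 < pos) ∧ (m.2 < p.1 → pos < p.2)) ∧
      Ext ((St w).lev (min m.1 (dep w))) (St w).N.W (St (w ++ [m])).N.W := by
  obtain ⟨hl, hpt⟩ := h.len w
  obtain ⟨x, pos, e, h1, h2, h3, h4, h5, h6, h7⟩ := CoRec_stp h w m rfl
  rw [hl] at h1 h4 h5 h6 h7
  rw [hpt] at h1 h4
  have hlen : (((St w).L.reverse.take (min m.1 (dep w))).map (Dat.upd w.length)).length =
      min m.1 (dep w) := by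
    rw [List.length_map, List.length_take, List.length_reverse, hl]
    omega
  refine ⟨pos, e, ?_, ?_, ?_, h3, h4, h5, h6, h7⟩
  · intro i hi
    obtain ⟨D, hD⟩ := CoRec_some' (S := St w) (i := i) (by rw [hl]; omega)
    refine ⟨D, hD, ?_⟩
    rw [h1, List.getElem?_append_left (by rw [hlen]; exact hi), List.getElem?_map,
      List.getElem?_take, if_pos hi, hD]
    rfl
  · rw [h1, List.getElem?_append_right (by rw [hlen]), hlen, Nat.sub_self]
    rfl
  · rw [h1, List.getElem?_append_right (by rw [hlen]; omega), hlen, Nat.add_sub_cancel_left]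
    rfl

theorem States.levData {W0 : Word} {St : Word → CSt} (h : States f W0 St) :
    LevData (fun w => (St w).N.W) (fun w => (St w).lev) (fun w => (St w).kid) where
  nil := by
    intro i
    show (St []).kid i = []
    unfold CSt.kid
    rw [h.L0]
    exact h.kids0
  lev_eq := by
    intro w m i hi
    obtain ⟨pos, e, h1, h2, h3, h4, h5, h6, h7, h8⟩ := CoRec_new h w m
    show (St (w ++ [m])).lev i = (St w).lev i
    rcases lt_or_eq_of_le hi with hi | hi
    · obtain ⟨D, a, b⟩ := h1 i hi
      unfold CSt.lev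
      rw [a, b]
      rfl
    · rw [hi]
      conv_lhs => unfold CSt.lev
      rw [h2]
  ext := by
    intro w m
    obtain ⟨pos, e, h1, h2, h3, h4, h5, h6, h7, h8⟩ := CoRec_new h w m
    exact h8
  lev_lt := by
    intro w i hi
    exact (h.val w).lev_lt (by rw [(h.len w).1]; exact hi)
  lev_dep := by
    intro w i hi
    exact (h.val w).lev_dep (by rw [(h.len w).1]; exact hi)
  kids_lt := by
    intro w m i hi
    obtain ⟨pos, e, h1, h2, h3, h4, h5, h6, h7, h8⟩ := CoRec_new h w m
    show (St (w ++ [m])).kid i = (St w).kid i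
    obtain ⟨D, a, b⟩ := h1 i hi
    unfold CSt.kid
    rw [a, b]
    rfl
  kids_new := by
    intro w m
    obtain ⟨pos, e, h1, h2, h3, h4, h5, h6, h7, h8⟩ := CoRec_new h w m
    show (St (w ++ [m])).kid (min m.1 (dep w) + 1) = []
    unfold CSt.kid
    rw [h3]
    exact h4
  kids_eq := by
    intro w m
    obtain ⟨pos, e, h1, h2, h3, h4, h5, h6, h7, h8⟩ := CoRec_new h w m
    refine ⟨pos, ?_, h6, h7⟩
    show (St (w ++ [m])).kid (min m.1 (dep w)) = _
    conv_lhs => unfold CSt.kid
    rw [h2]

theorem States.labData {W0 : Word} {St : Word → CSt} (h : States f W0 St) :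
    LabData (fun w => (St w).lab) (fun w => (St w).typ) where
  psi := by
    intro w m i hi
    obtain ⟨pos, e, h1, h2, h3, h4, h5, h6, h7, h8⟩ := CoRec_new h w m
    show (St (w ++ [m])).typ i = (St w).typ i
    rcases lt_or_eq_of_le hi with hi | hi
    · obtain ⟨D, a, b⟩ := h1 i hi
      unfold CSt.typ
      rw [a, b]
      rfl
    · rw [hi]
      conv_lhs => unfold CSt.typ
      rw [h2]
  old := by
    intro w m i x u hi hu
    obtain ⟨pos, e, h1, h2, h3, h4, h5, h6, h7, h8⟩ := CoRec_new h w m
    show (St (w ++ [m])).lab i x u = (St w).lab i x u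
    rcases lt_or_eq_of_le hi with hi | hi
    · obtain ⟨D, a, b⟩ := h1 i hi
      unfold CSt.lab
      rw [a, b]
      show updA D.A D.ψ D.q w.length x u = D.A x u
      unfold updA
      rw [if_pos hu]
    · rw [hi]
      conv_lhs => unfold CSt.lab
      rw [h2]
      show updA _ _ _ w.length x u = _
      unfold updA
      rw [if_pos hu]
  lab_lt := by
    intro w m i x q hi hq
    obtain ⟨pos, e, h1, h2, h3, h4, h5, h6, h7, h8⟩ := CoRec_new h w m
    show (St (w ++ [m])).lab i x w.length = (St w).typ i (decide (q ≤ x))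
    obtain ⟨D, a, b⟩ := h1 i hi
    have hDq : D.q = q := by
      rw [← h.pos w, List.getElem?_map, a] at hq
      exact Option.some.inj hq
    unfold CSt.lab CSt.typ
    rw [a, b]
    show updA D.A D.ψ D.q w.length x w.length = D.ψ (decide (q ≤ x))
    unfold updA
    rw [if_neg (lt_irrefl _), hDq]
  lab_eq := by
    intro w m x
    obtain ⟨pos, e, h1, h2, h3, h4, h5, h6, h7, h8⟩ := CoRec_new h w m
    show (St (w ++ [m])).lab (min m.1 (dep w)) x w.length =
      (St w).typ (min m.1 (dep w)) (decide (m.2 ≤ x))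
    conv_lhs => unfold CSt.lab
    rw [h2]
    show updA _ _ _ w.length x w.length = _
    unfold updA
    rw [if_neg (lt_irrefl _)]
  new_old := by
    intro w m x u hu
    obtain ⟨pos, e, h1, h2, h3, h4, h5, h6, h7, h8⟩ := CoRec_new h w m
    show (St (w ++ [m])).lab (min m.1 (dep w) + 1) x u = (St w).lab (min m.1 (dep w)) m.2 u
    conv_lhs => unfold CSt.lab
    rw [h3]
    show (St (w ++ [m])).A x u = _
    rw [h5, if_pos hu]
  new_new := by
    intro w m
    obtain ⟨pos, e, h1, h2, h3, h4, h5, h6, h7, h8⟩ := CoRec_new h w m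
    refine ⟨e, fun x => ?_⟩
    show (St (w ++ [m])).lab (min m.1 (dep w) + 1) x w.length = e
    conv_lhs => unfold CSt.lab
    rw [h3]
    show (St (w ++ [m])).A x w.length = e
    rw [h5, if_neg (lt_irrefl _)]

end Pool.Agent.Lib.MP_b4a791_lc
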