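import Pool.Agent.Lib.MP_b4a791_lc.A.CoDefs

/-!
# MP_b4a791_lc, Part A: splitting a slot
-/

namespace Pool.Agent.Lib.MP_b4a791_lc

variable {f : Col}

/-- Splitting the slot at `q` (step (o1)): `Hom` at `slot q`, applied to `N` itself, gives a
homogeneous triple `a < b < c` below `slot q`; `slot' x = a` resp. `c` if `slot x = slot q` and
`x < q` resp. `q ≤ x`, and `slot' x` is a representative of `slot x` otherwise; `M = b`. -/
theorem Slots.split {N : NS} {c : Cons} {C : ℕ → ℕ → Bool} {ψ : Bool → Bool} {slot : ℚ → ℕ}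
    {kids : List (ℚ × ℚ)} (hS : Slots f N c C ψ slot kids) (q : ℚ) :
    ∃ N' h κ C' slot' M, NLe h κ N' N ∧ Slots f N' (push h c) C' ψ slot' kids ∧ M < N'.n ∧
      (∀ x, slot' x ≠ M ∧ C' M (slot' x) = ψ (decide (q ≤ x)) ∧
        Tgt.Le (N'.tg (slot' x)) (N.tg (slot x))) ∧
      Tgt.Le (N'.tg M) (N.tg (slot q)) ∧
      (∀ x, x < q → (N'.tg (slot' x)).hi ≤ (N'.tg M).lo) ∧
      ∀ x, q ≤ x → (N'.tg M).hi ≤ (N'.tg (slot' x)).lo := by
  have hT : Ty f N (push hid c) C (slot q) ψ :=
    hS.hom q N hid id C (slot q) hS.good (NLe.refl N) (by rw [push_hid]; exact hS.full)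
      (fun a _ b _ _ => rfl) (hS.lt q) rfl
  rw [push_hid] at hT
  obtain ⟨N', h, κ, C', a, b, d, hg, hle, hF, hC, hTr, ha, hb, hd⟩ := hT
  choose rep hrep1 hrep2 using hle.surj
  obtain ⟨slot', hslot'⟩ : ∃ slot' : ℚ → ℕ, ∀ x, slot' x =
      if slot x = slot q then (if x < q then a else d) else rep (slot x) (hS.lt x) :=
    ⟨_, fun _ => rfl⟩
  have s1 : ∀ x, slot x = slot q → x < q → slot' x = a := fun x h1 h2 => by
    rw [hslot', if_pos h1, if_pos h2]
  have s2 : ∀ x, slot x = slot q → q ≤ x → slot' x = d := fun x h1 h2 => by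
    rw [hslot', if_pos h1, if_neg (not_lt.2 h2)]
  have s3 : ∀ x, slot x ≠ slot q → slot' x = rep (slot x) (hS.lt x) := fun x h1 => by
    rw [hslot', if_neg h1]
  have hκ : ∀ x, κ (slot' x) = slot x := by
    intro x
    by_cases h1 : slot x = slot q
    · rcases lt_or_ge x q with h2 | h2
      · rw [s1 x h1 h2, ha, h1]
      · rw [s2 x h1 h2, hd, h1]
    · rw [s3 x h1]
      exact hrep2 _ _
  have hlt : ∀ x, slot' x < N'.n := by
    intro x
    by_cases h1 : slot x = slot q
    · rcases lt_or_ge x q with h2 | h2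
      · rw [s1 x h1 h2]
        exact hTr.la
      · rw [s2 x h1 h2]
        exact hTr.lc
    · rw [s3 x h1]
      exact hrep1 _ _
  have hab : a ≠ b := by
    rintro rfl
    exact absurd hTr.ab (not_le.2 (hg.ne _ hTr.la))
  have hdb : d ≠ b := by
    rintro rfl
    exact absurd hTr.bc (not_le.2 (hg.ne _ hTr.lc))
  have hTL : ∀ x, Tgt.Le (N'.tg (slot' x)) (N.tg (slot x)) := fun x => by
    have := (hle.map (slot' x) (hlt x)).2
    rwa [hκ x] at this
  have hTM : Tgt.Le (N'.tg b) (N.tg (slot q)) := by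
    have := (hle.map b hTr.lb).2
    rwa [hb] at this
  refine ⟨N', h, κ, C', slot', b, hle, ?_, hTr.lb, ?_, hTM, ?_, ?_⟩
  · refine ⟨hg, ?_, hF, hlt, ?_, ?_, ?_⟩
    · rintro j t' v ⟨t, -, h1⟩
      rw [hle.m_eq]
      exact hS.dom j t v h1
    · intro x y hxy hne
      by_cases h1 : slot x = slot y
      · by_cases h2 : slot x = slot q
        · have h3 : slot y = slot q := by rw [← h1, h2]
          have h4 : x < q := by
            by_contra h4
            rw [not_lt] at h4
            exact hne (by rw [s2 x h2 h4, s2 y h3 (h4.trans hxy.le)])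
          have h5 : q ≤ y := by
            by_contra h5
            rw [not_le] at h5
            exact hne (by rw [s1 x h2 h4, s1 y h3 h5])
          rw [s1 x h2 h4, s2 y h3 h5]
          exact ⟨hTr.ab.trans ((hg.ne _ hTr.lb).le.trans hTr.bc), hTr.cac, hTr.cca⟩
        · exfalso
          apply hne
          rw [s3 x h2, s3 y (by rw [← h1]; exact h2)]
          congr 1
      · obtain ⟨h2, h3, h4⟩ := hS.ord x y hxy h1
        have h5 : κ (slot' x) ≠ κ (slot' y) := by rw [hκ, hκ]; exact h1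
        refine ⟨(hTL x).hi.trans (h2.trans (hTL y).lo), ?_, ?_⟩
        · rw [hC _ (hlt x) _ (hlt y) h5, hκ, hκ, h3]
        · rw [hC _ (hlt y) _ (hlt x) h5.symm, hκ, hκ, h4]
    · intro x
      refine Hom.inherit hle hC ?_
      rw [hκ x]
      exact hS.hom x
    · intro p hp x
      exact ⟨fun h1 => ((hS.kid p hp x).1 h1).trans (hTL x).lo,
        fun h1 => (hTL x).hi.trans ((hS.kid p hp x).2 h1)⟩
  · intro x
    refine ⟨?_, ?_, hTL x⟩
    · by_cases h1 : slot x = slot q
      · rcases lt_or_ge x q with h2 | h2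
        · rw [s1 x h1 h2]
          exact hab
        · rw [s2 x h1 h2]
          exact hdb
      · intro h2
        apply h1
        rw [← hκ x, h2, hb]
    · by_cases h1 : slot x = slot q
      · rcases lt_or_ge x q with h2 | h2
        · rw [s1 x h1 h2, hTr.cba, decide_eq_false (not_le.2 h2)]
        · rw [s2 x h1 h2, hTr.cbc, decide_eq_true h2]
      · have h5 : κ b ≠ κ (slot' x) := by rw [hκ, hb]; exact Ne.symm h1
        rw [hC _ hTr.lb _ (hlt x) h5, hκ, hb]
        rcases lt_or_ge x q with h2 | h2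
        · rw [(hS.ord x q h2 h1).2.2, decide_eq_false (not_le.2 h2)]
        · have h3 : q < x := lt_of_le_of_ne h2 (by rintro rfl; exact h1 rfl)
          rw [(hS.ord q x h3 (Ne.symm h1)).2.1, decide_eq_true h2]
  · intro x hx
    by_cases h1 : slot x = slot q
    · rw [s1 x h1 hx]
      exact hTr.ab
    · exact (hTL x).hi.trans ((hS.ord x q hx h1).1.trans hTM.lo)
  · intro x hx
    by_cases h1 : slot x = slot q
    · rw [s2 x h1 hx]
      exact hTr.bc
    · have h3 : q < x := lt_of_le_of_ne hx (by rintro rfl; exact h1 rfl)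
      exact hTM.hi.trans ((hS.ord q x h3 (Ne.symm h1)).1.trans (hTL x).lo)

/-- The slot structure is inherited by refinements with the same targets (`κ = id`). -/
theorem Slots.inherit {N N' : NS} {c : Cons} {C : ℕ → ℕ → Bool} {ψ : Bool → Bool}
    {slot : ℚ → ℕ} {kids : List (ℚ × ℚ)} (hS : Slots f N c C ψ slot kids) {h : ℕ → ℕ → ℕ}
    (hN' : NGood f N') (hle : NLe h id N' N) : Slots f N' (push h c) C ψ slot kids := by
  have hlt : ∀ x, slot x < N'.n := fun x => by
    obtain ⟨t', h1, h2⟩ := hle.surj (slot x) (hS.lt x)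
    rw [← h2]
    exact h1
  have hTL : ∀ x, Tgt.Le (N'.tg (slot x)) (N.tg (slot x)) := fun x =>
    (hle.map (slot x) (hlt x)).2
  refine ⟨hN', ?_, ?_, hlt, ?_, ?_, ?_⟩
  · rintro j t' v ⟨t, -, h1⟩
    rw [hle.m_eq]
    exact hS.dom j t v h1
  · exact hS.full.inherit hN' hle (fun _ _ _ _ h1 => h1)
  · intro x y hxy hne
    obtain ⟨h2, h3, h4⟩ := hS.ord x y hxy hne
    exact ⟨(hTL x).hi.trans (h2.trans (hTL y).lo), h3, h4⟩
  · intro x
    exact Hom.inherit (κ := id) hle (fun a _ b _ _ => rfl) (hS.hom x)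
  · intro p hp x
    exact ⟨fun h1 => ((hS.kid p hp x).1 h1).trans (hTL x).lo,
      fun h1 => (hTL x).hi.trans ((hS.kid p hp x).2 h1)⟩

/-- A new kid at `q` with base position in the middle target. -/
theorem Slots.addKid {N : NS} {c : Cons} {C : ℕ → ℕ → Bool} {ψ : Bool → Bool}
    {slot : ℚ → ℕ} {kids : List (ℚ × ℚ)} (hS : Slots f N c C ψ slot kids) {q pos : ℚ}
    (h1 : ∀ x, x < q → (N.tg (slot x)).hi ≤ pos) (h2 : ∀ x, q ≤ x → pos ≤ (N.tg (slot x)).lo) :
    Slots f N c C ψ slot ((q, pos) :: kids) := by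
  refine ⟨hS.good, hS.dom, hS.full, hS.lt, hS.ord, hS.hom, ?_⟩
  intro p hp x
  rcases List.mem_cons.1 hp with rfl | hp
  · exact ⟨fun h3 => h2 x (le_of_lt h3), fun h3 => h1 x h3⟩
  · exact hS.kid p hp x

end Pool.Agent.Lib.MP_b4a791_lc
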