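import Pool.Agent.Lib.MP_b4a791_lc.A.CoEnv

/-!
# MP_b4a791_lc, Part A: steps of coarse states
-/

namespace Pool.Agent.Lib.MP_b4a791_lc

variable {f : Col}

/-- Lengthening a word by moves of level `k` above finitely many bounds. -/
private theorem CoStep_long (k : ℕ) (W : Word) (n : ℕ) (g : ℕ → ℕ) :
    ∃ W', Ext k W W' ∧ ∀ t < n, g t ≤ W'.length := by
  refine ⟨W ++ List.replicate ((Finset.range n).sup g) (k, 0), ⟨_, rfl, ?_⟩, fun t ht => ?_⟩
  · intro m hm
    rw [List.eq_of_mem_replicate hm]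
  · have h1 : g t ≤ (Finset.range n).sup g := Finset.le_sup (f := g) (Finset.mem_range.2 ht)
    rw [List.length_append, List.length_replicate]
    omega

/-- Closing (uses `Cl.close` for the frame `N0.m`, the node state
`⟨N0.m, s.Φ, W'', N0.k, N0.r, N0.n, fun t => φ'.tg (h N0.m t)⟩` and `Slots.inherit`). To get
`NGood.len` first lengthen `W''` by many moves `(N0.k, 0)` (`HT.mono`, `Cl.mono`), so that its length
exceeds the lengths of all rows. -/
theorem exists_pop {S : CSt} (hS : CVal f S) {D : Dat} {L : List Dat} (hL : S.L = D :: L) :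
    ∃ S', CVal f S' ∧ PopRel S S' D := by
  have hE := hS.env
  rw [hL] at hE
  obtain ⟨N0, c0, C0, slot, h, hSl, hk, hD, -, -, hlab, hE'⟩ := hE
  have hGS := hS.slots.good.good
  have hG0 := hSl.good
  have hlvl : (S.N.Φ N0.m).lvl = N0.k := hD.fr.1
  obtain ⟨W1, φ', e1, hshr, hHT, hCl⟩ := Cl.close (f := f) (Φ := S.N.Φ) (m := S.N.m)
    (W := S.N.W) (k := S.N.k) hGS.cl (J := N0.m) hD.m_lt hGS.lvl_mono hGS.lvl_le hGS.k_le
  rw [hlvl] at e1 hHT hCl
  have e0 : Ext N0.k N0.W S.N.W := hD.ext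
  obtain ⟨W2, e2, hlen⟩ := CoStep_long N0.k W1 N0.n (fun t => (φ'.tg (h N0.m t)).row.length)
  have e12 : Ext N0.k S.N.W W2 := e1.trans e2
  have e02 : Ext N0.k N0.W W2 := e0.trans e12
  have hfr : ∀ t < N0.n, h N0.m t < (S.N.Φ N0.m).n ∧
      Tgt.Le ((S.N.Φ N0.m).tg (h N0.m t)) (N0.tg t) := hD.fr.2
  have hTL : ∀ t < N0.n, Tgt.Le (φ'.tg (h N0.m t)) (N0.tg t) := fun t ht =>
    (hshr.le _ (hfr t ht).1).trans (hfr t ht).2
  have hN' : NGood f (⟨N0.m, S.N.Φ, W2, N0.k, N0.r, N0.n, fun t => φ'.tg (h N0.m t)⟩ : NS) := by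
    refine ⟨⟨e02.dep_le hG0.good.k_le, ?_, ?_, hG0.good.rec_.mono e02 le_rfl, hCl.mono e2 le_rfl,
      le_trans hG0.good.len e02.len_le⟩, ?_, ?_, ?_, ?_⟩
    · intro i j hij hj
      exact hGS.lvl_mono i j hij (lt_trans hj hD.m_lt)
    · intro j hj
      have h1 : (S.N.Φ j).lvl ≤ (S.N.Φ N0.m).lvl := hGS.lvl_mono j N0.m (le_of_lt hj) hD.m_lt
      rw [hlvl] at h1
      exact h1
    · intro t ht
      exact hshr.ne _ (hfr t ht).1
    · intro t ht
      exact (hHT _ (hfr t ht).1).mono e2 le_rfl le_rfl List.prefix_rfl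
    · intro t ht
      exact (hG0.row t ht).trans (hTL t ht).row
    · intro t ht
      exact hlen t ht
  have hle : NLe h id (⟨N0.m, S.N.Φ, W2, N0.k, N0.r, N0.n, fun t => φ'.tg (h N0.m t)⟩ : NS) N0 :=
    ⟨rfl, rfl, rfl, hD.fle, e02, fun t ht => ⟨ht, hTL t ht⟩, fun t ht => ⟨t, ht, rfl⟩⟩
  have hSl' := hSl.inherit hN' hle
  refine ⟨⟨L, ⟨N0.m, S.N.Φ, W2, N0.k, N0.r, N0.n, fun t => φ'.tg (h N0.m t)⟩, push h c0, C0, D.ψ,
    slot, D.A, D.kids, S.pts⟩, ⟨hSl', ?_, ?_, ?_⟩, ⟨hL, rfl, rfl, rfl, rfl, hk, ?_, ?_⟩⟩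
  · have hP : PLe hid (NS.toPS ⟨N0.m, S.N.Φ, W2, N0.k, N0.r, N0.n,
        fun t => φ'.tg (h N0.m t)⟩) ⟨N0.m, S.N.Φ, S.N.W, N0.k, N0.r⟩ :=
      ⟨le_rfl, fun _ _ => FLe.refl _, fun _ h1 h2 => absurd h2 (not_lt.2 h1), e12, le_rfl,
        List.prefix_rfl⟩
    have h1 := hE'.mono hP
    rw [push_hid] at h1
    exact h1
  · intro x u p hp
    show (φ'.tg (h N0.m (slot x))).row[p]? = some (D.A x u)
    rw [hshr.row _ (hfr _ (hSl.lt x)).1]
    exact hlab x u p hp
  · intro p hp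
    exact lt_of_lt_of_le (hS.lt p hp) e12.len_le
  · show Ext D.lev S.N.W W2
    rw [← hk]
    exact e12
  · rw [← hk]
    exact hD.k_lt

/-- Auxiliary form of `exists_fresh` (used in `exists_start`). -/
private theorem CoStep_fresh (hf : MD f) {s : PS} (hs : Good f s) {c : Cons} (hc : Sust f s c)
    (hd : CDom c s.m) :
    ∃ N h C ψ g, PLe h N.toPS s ∧ N.k = s.k ∧ Slots f N (push h c) C ψ (fun _ => g) [] ∧
      s.r <+: (N.tg g).row := by
  have hN0 : NGood f (⟨s.m, s.Φ, s.W, s.k, s.r, 1, fun _ => ⟨0, 1, s.r⟩⟩ : NS) := by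
    refine ⟨hs, fun _ _ => ?_, fun _ _ => ?_, fun _ _ => ?_, fun _ _ => ?_⟩
    · show (0 : ℚ) < 1
      exact one_pos
    · exact HT.of_rec hs.k_le hs.rec_
    · exact List.prefix_rfl
    · exact hs.len
  have hU := UE.zero hN0 (c := c) hc (fun _ _ => false)
  obtain ⟨N1, h1, C1, g1, l1, n1, u1, -⟩ := exists_full hf hN0 hd hU
  have hd1 : CDom (push h1 c) N1.m := by
    rintro j t b ⟨t', -, h⟩
    rw [l1.m_eq]
    exact hd _ _ _ h
  have h01 : 0 < N1.n := by
    rw [n1]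
    exact Nat.one_pos
  obtain ⟨N2, h2, κ, C2, g, ψ, g2, l2, u2, -, hg, -, hh⟩ := exists_hom hf g1 hd1 u1 h01
  have l12 := l1.trans l2
  rw [push_push] at u2 hh
  refine ⟨N2, hcomp h2 h1, C2, ψ, g, l12.ple, l12.k_eq,
    ⟨g2, ?_, u2, fun _ => hg, fun _ _ _ h => absurd rfl h, fun _ => hh, fun p hp => ?_⟩, ?_⟩
  · rintro j t b ⟨t', -, h⟩
    rw [l12.m_eq]
    exact hd _ _ _ h
  · simp at hp
  · have h3 := g2.row g hg
    rw [l12.r_eq] at h3
    exact h3

/-- The initial coarse state. -/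
theorem exists_start (hf : MD f) (W0 : Word) :
    ∃ S, CVal f S ∧ S.L = [] ∧ S.pts = [] ∧ S.kids = [] ∧ S.N.k = dep W0 ∧
      Ext (dep W0) W0 S.N.W := by
  have hs : Good f (⟨0, fun _ => ⟨0, 0, fun _ => ⟨0, 1, []⟩⟩, W0, dep W0, []⟩ : PS) :=
    ⟨le_rfl, fun i j _ hj => absurd hj (Nat.not_lt_zero j), fun j hj => absurd hj (Nat.not_lt_zero j),
      Rec.nil _ _, trivial, Nat.zero_le _⟩
  obtain ⟨N, h, C, ψ, g, h1, h2, h3, -⟩ := CoStep_fresh hf hs (Sust.empty hf _)
    (fun _ _ _ hF => hF.elim)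
  refine ⟨⟨[], N, _, C, ψ, fun _ => g, fun _ _ => false, [], []⟩, ⟨h3, trivial, ?_, ?_⟩, rfl, rfl,
    rfl, h2, h1.ext⟩
  · intro x u p hp
    simp at hp
  · intro p hp
    simp at hp

/-- A fresh coarse node at the state `s` with sustained constraints `c` (steps (o4)):
`UE.zero`, `exists_hom` for the node state with the only target `((0,1), s.r)`. -/
theorem exists_fresh (hf : MD f) {s : PS} (hs : Good f s) {c : Cons} (hc : Sust f s c)
    (hd : CDom c s.m) :
    ∃ N h C ψ g, PLe h N.toPS s ∧ N.k = s.k ∧ Slots f N (push h c) C ψ (fun _ => g) [] ∧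
      s.r <+: (N.tg g).row :=
  CoStep_fresh hf hs hc hd

/-- all frames nonempty -/
private def CoStep_fix (Φ : ℕ → Frame) : ℕ → Frame := fun j =>
  if (Φ j).n = 0 then ⟨(Φ j).lvl, 1, fun _ => ⟨0, 1, []⟩⟩ else Φ j

private lemma CoStep_fix_lvl (Φ : ℕ → Frame) (j : ℕ) : (CoStep_fix Φ j).lvl = (Φ j).lvl := by
  unfold CoStep_fix
  split_ifs <;> rfl

private lemma CoStep_fix_pos (Φ : ℕ → Frame) (j : ℕ) : 0 < (CoStep_fix Φ j).n := by
  unfold CoStep_fix
  split_ifs with h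
  · exact Nat.one_pos
  · exact Nat.pos_of_ne_zero h

private lemma CoStep_fix_fle (Φ : ℕ → Frame) (j : ℕ) : FLe id (CoStep_fix Φ j) (Φ j) := by
  unfold CoStep_fix
  split_ifs with h
  · refine ⟨rfl, fun t ht => ?_⟩
    omega
  · exact FLe.refl _

private lemma CoStep_fix_cl {Φ : ℕ → Frame} {m : ℕ} : ∀ {W : Word} {k : ℕ},
    (∀ i j, i ≤ j → j < m → (Φ i).lvl ≤ (Φ j).lvl) → (∀ j < m, (Φ j).lvl ≤ k) → k ≤ dep W →
    Cl f Φ m W k → Cl f (CoStep_fix Φ) m W k := by
  induction m with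
  | zero =>
    intro W k _ _ _ _
    trivial
  | succ m ih =>
    intro W k hmono hk hkd hc W' hW'
    obtain ⟨W'', φ', e1, e2, e3, e4⟩ := hc W' hW'
    have hd1 : (Φ m).lvl ≤ dep W' := (hk m (Nat.lt_succ_self m)).trans (hW'.dep_le hkd)
    have hd : (Φ m).lvl ≤ dep W'' := e1.dep_le hd1
    have e4' : Cl f (CoStep_fix Φ) m W'' (Φ m).lvl :=
      ih (fun i j hij hj => hmono i j hij (by omega)) (fun j hj => hmono j m hj.le (Nat.lt_succ_self m))
        hd e4
    by_cases hn : (Φ m).n = 0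
    · have e : CoStep_fix Φ m = ⟨(Φ m).lvl, 1, fun _ => ⟨0, 1, []⟩⟩ := by
        unfold CoStep_fix
        rw [if_pos hn]
      refine ⟨W'', ⟨(Φ m).lvl, 1, fun _ => ⟨0, 1, []⟩⟩, ?_, ?_, ?_, ?_⟩
      · rw [CoStep_fix_lvl]
        exact e1
      · rw [e]
        exact ⟨rfl, rfl, fun _ _ => Tgt.Le.refl _, fun _ _ => rfl, fun _ _ => by norm_num⟩
      · intro t _
        rw [CoStep_fix_lvl]
        exact HT.of_rec hd (Rec.nil _ _)
      · rw [CoStep_fix_lvl]
        exact e4'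
    · have e : CoStep_fix Φ m = Φ m := by
        unfold CoStep_fix
        rw [if_neg hn]
      rw [e]
      exact ⟨W'', φ', e1, e2, e3, e4'⟩

/-- all frames may be assumed to be nonempty -/
private lemma CoStep_nonempty {s : PS} (hs : Good f s) :
    Good f ⟨s.m, CoStep_fix s.Φ, s.W, s.k, s.r⟩ ∧
      ∀ h : ℕ → ℕ → ℕ, (∀ j t, t < (s.Φ j).n → h j t = t) →
        PLe h ⟨s.m, CoStep_fix s.Φ, s.W, s.k, s.r⟩ s := by
  constructor
  · refine ⟨hs.k_le, ?_, ?_, hs.rec_, ?_, hs.len⟩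
    · intro i j hij hj
      show (CoStep_fix s.Φ i).lvl ≤ (CoStep_fix s.Φ j).lvl
      rw [CoStep_fix_lvl, CoStep_fix_lvl]
      exact hs.lvl_mono i j hij hj
    · intro j hj
      show (CoStep_fix s.Φ j).lvl ≤ s.k
      rw [CoStep_fix_lvl]
      exact hs.lvl_le j hj
    · exact CoStep_fix_cl hs.lvl_mono hs.lvl_le hs.k_le hs.cl
  · intro h hh
    refine ⟨le_rfl, ?_, ?_, Ext.refl _ _, le_rfl, List.prefix_rfl⟩
    · intro j _
      obtain ⟨a, b⟩ := CoStep_fix_fle s.Φ j
      refine ⟨a, fun t ht => ?_⟩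
      rw [hh j t ht]
      exact b t ht
    · intro j h1 h2
      exact absurd h1 (not_le.2 h2)

private lemma CoStep_pre {l l' : List Bool} (h : l <+: l') {i : ℕ} {b : Bool}
    (hi : l[i]? = some b) : l'[i]? = some b := by
  obtain ⟨t, rfl⟩ := h
  have hlt : i < l.length := by
    by_contra hc
    rw [List.getElem?_eq_none (by omega)] at hi
    exact absurd hi (by simp)
  rw [List.getElem?_append_left hlt]
  exact hi

private lemma CoStep_snoc {l : List ℕ} {x u p : ℕ} (h : (l ++ [x])[u]? = some p) :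
    (u < l.length ∧ l[u]? = some p) ∨ (u = l.length ∧ p = x) := by
  rcases lt_or_ge u l.length with h1 | h1
  · left
    rw [List.getElem?_append_left h1] at h
    exact ⟨h1, h⟩
  · right
    rw [List.getElem?_append_right h1] at h
    have h2 : u - l.length = 0 := by
      by_contra hc
      rw [List.getElem?_eq_none (by simp; omega)] at h
      exact absurd h (by simp)
    rw [h2] at h
    simp only [List.getElem?_cons_zero, Option.some.injEq] at h
    exact ⟨by omega, h.symm⟩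

/-- Opening (steps (o1)-(o5)). -/
theorem exists_open (hf : MD f) {S : CSt} (hS : CVal f S) (q : ℚ) :
    ∃ S', CVal f S' ∧ OpenRel f q S S' := by
  -- (o1) split the slot
  obtain ⟨N1, h1, κ1, C1, slot1, M, le1, sl1, hM, hx1, hM1, hlo, hhi⟩ := hS.slots.split q
  -- (o2) open a child at the middle target
  obtain ⟨s2, h2, ch2, su2⟩ := Full.child sl1.good sl1.full hM
  obtain ⟨pos, hpos, hpos1, hpos2⟩ := ch2.pos
  -- all frames nonempty, constraints on real targets only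
  obtain ⟨g2, ple2⟩ := CoStep_nonempty ch2.good
  set s2' : PS := ⟨s2.m, CoStep_fix s2.Φ, s2.W, s2.k, s2.r⟩ with hs2'
  set h : ℕ → ℕ → ℕ := fun j t => if t < (s2.Φ j).n then t else 0 with hh
  have pleh : PLe h s2' s2 := ple2 h (fun j t ht => by rw [hh]; exact if_pos ht)
  set cc : Cons := cup (push h1 S.c) (fun j b v => j = N1.m ∧ b < N1.n ∧ M ≠ b ∧ v = C1 M b) with hcc
  set c2 : Cons := push h (push h2 cc) with hc2
  have su2' : Sust f s2' c2 := su2.mono pleh
  have dom0 : CDom S.c S.N.m := hS.slots.dom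
  have hm1 : N1.m = S.N.m := le1.m_eq
  have hk1 : N1.k = S.N.k := le1.k_eq
  have hm2 : N1.m < s2.m := ch2.desc.m_lt
  have domcc : ∀ j t b, cc j t b → j < s2.m := by
    rintro j t b (⟨t', -, h3⟩ | ⟨h3, -⟩)
    · have := dom0 _ _ _ h3
      omega
    · omega
  have real2 : ∀ j t b, c2 j t b → j < s2'.m ∧ t < (s2'.Φ j).n := by
    rintro j t b ⟨t', ht, ⟨t'', -, h3⟩⟩
    refine ⟨domcc _ _ _ h3, ?_⟩
    rw [ht, hh]
    show (if t' < (s2.Φ j).n then t' else 0) < (CoStep_fix s2.Φ j).n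
    split_ifs with h4
    · exact ((CoStep_fix_fle s2.Φ j).2 t' h4).1
    · exact CoStep_fix_pos _ _
  -- (o3) add the point
  obtain ⟨s3, h3, x, g3, ple3, add3, sat3⟩ := su2' s2' hid g2 (PLe.refl _)
  rw [push_hid] at sat3
  set c3 : Cons := push h3 c2 with hc3
  have su3 : Sust f s3 c3 := su2'.mono ple3
  have real3 : ∀ j t b, c3 j t b → j < s3.m ∧ t < (s3.Φ j).n := by
    rintro j t b ⟨t', ht, h4⟩
    obtain ⟨a, b'⟩ := real2 _ _ _ h4
    refine ⟨lt_of_lt_of_le a ple3.m_le, ?_⟩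
    rw [ht]
    exact ((ple3.fle j a).2 t' b').1
  -- (o4) a fresh coarse node
  obtain ⟨N4, h4, C4, ψ4, g4, ple4, hk4, sl4, hr4⟩ := exists_fresh hf g3 su3
    (fun j t b hc => (real3 j t b hc).1)
  have sat4 : Sat N4.toPS.Φ x (push h4 c3) := by
    rintro j t b ⟨t', ht, h5⟩
    obtain ⟨a, b'⟩ := real3 _ _ _ h5
    have e := sat3 j t' b h5
    rw [ht]
    exact CoStep_pre ((ple4.fle j a).2 t' b').2.row e
  -- the composed index map
  set H : ℕ → ℕ → ℕ := hcomp h4 (hcomp h3 (hcomp h h2)) with hH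
  have hdesc : Desc H N1 N4.toPS :=
    Desc.ext_ple (Desc.ext_ple (Desc.ext_ple ch2.desc pleh) ple3) ple4
  have hpush : push h4 c3 = push H cc := by
    rw [hc3, hc2, push_push, push_push, push_push, hH]
    rfl
  -- words
  have ext3 : Ext s2.k s2.W s3.W := ple3.ext
  have ext4 : Ext s3.k s3.W N4.W := ple4.ext
  have k23 : s2.k ≤ s3.k := ple3.k_le
  have k12 : N1.k < s2.k := ch2.desc.k_lt
  have extS : Ext S.N.k S.N.W N4.W := by
    have e1 : Ext S.N.k S.N.W N1.W := le1.ext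
    have e2 : Ext S.N.k N1.W s2.W := by
      rw [← hk1]
      exact ch2.desc.ext
    exact ((e1.trans e2).trans (ext3.mono (by omega))).trans (ext4.mono (by omega))
  have lenS2 : S.N.W.length ≤ s2.W.length := by
    have e1 : Ext S.N.k S.N.W N1.W := le1.ext
    exact e1.len_le.trans ch2.desc.ext.len_le
  have hx2 : s2.W.length ≤ x := add3.le
  have hx3 : x < s3.W.length := add3.lt
  have hx4 : x < N4.W.length := lt_of_lt_of_le hx3 ext4.len_le
  -- labels of the old points in the recurrent row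
  have lab2 : ∀ u p, S.pts[u]? = some p → s2.r[p]? = some (S.A q u) := by
    intro u p hp
    exact CoStep_pre ch2.row (CoStep_pre hM1.row (hS.lab q u p hp))
  have r23 : s2.r <+: s3.r := ple3.row
  obtain ⟨e, he⟩ : ∃ e, s3.r[x]? = some e := ⟨_, List.getElem?_eq_getElem add3.res⟩
  -- the labels in the targets of the middle node
  have hfr : ∀ y, H N1.m (slot1 y) < (N4.Φ N1.m).n ∧
      Tgt.Le ((N4.Φ N1.m).tg (H N1.m (slot1 y))) (N1.tg (slot1 y)) := by
    intro y
    exact hdesc.fr.2 (slot1 y) (sl1.lt y)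
  have hcon : ∀ y, push h4 c3 N1.m (H N1.m (slot1 y)) (S.ψ (decide (q ≤ y))) := by
    intro y
    rw [hpush]
    refine ⟨slot1 y, rfl, Or.inr ⟨rfl, sl1.lt y, (hx1 y).1.symm, ?_⟩⟩
    exact (hx1 y).2.1.symm
  set S' : CSt :=
    { L := ⟨S.ψ, q, updA S.A S.ψ q S.pts.length, (q, pos) :: S.kids, S.N.k⟩ ::
        S.L.map (Dat.upd S.pts.length)
      N := N4
      c := push h4 c3
      C := C4
      ψ := ψ4
      slot := fun _ => g4
      A := fun _ u => if u < S.pts.length then S.A q u else e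
      kids := []
      pts := S.pts ++ [x] } with hS'
  refine ⟨S', ⟨sl4, ?_, ?_, ?_⟩, ⟨?_, extS, ?_⟩⟩
  · -- environment
    refine ⟨N1, push h1 S.c, C1, slot1, H, ?_, hk1, hdesc, hcon, ?_, ?_, ?_⟩
    · refine sl1.addKid ?_ ?_
      · intro y hy
        exact (hlo y hy).trans hpos1.le
      · intro y hy
        exact hpos2.le.trans (hhi y hy)
    · intro j t b hc
      show push h4 c3 j t b
      rw [hpush]
      exact push_mono (fun _ _ _ => Or.inl) j t b hc
    · intro y u p hp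
      show ((N4.Φ N1.m).tg (H N1.m (slot1 y))).row[p]? = some (updA S.A S.ψ q S.pts.length y u)
      unfold updA
      rcases CoStep_snoc hp with ⟨h5, h6⟩ | ⟨h5, h6⟩
      · rw [if_pos h5]
        exact CoStep_pre (hfr y).2.row (CoStep_pre (hx1 y).2.2.row (hS.lab y u p h6))
      · rw [if_neg (by omega), h6]
        exact sat4 _ _ _ (hcon y)
    · -- the outer records
      have ple5 : PLe (hcomp H h1) ⟨N1.m, N4.Φ, N4.W, N1.k, N1.r⟩ S.N.toPS := by
        refine ⟨hm1.ge, ?_, ?_, extS, hk1.ge, ?_⟩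
        · intro j hj
          have hj1 : j < N1.m := by
            rw [hm1]
            exact hj
          exact (le1.fle j hj).trans (hdesc.fle j hj1)
        · intro j h5 h6
          have h5' : S.N.m ≤ j := h5
          have h6' : j < N1.m := h6
          omega
        · show S.N.r <+: N1.r
          rw [le1.r_eq]
      have env5 := Env.mono hS.env ple5
      rw [← push_push] at env5
      refine Env.add env5 ?_
      intro j t b hc
      apply sat4 j t b
      rw [hpush]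
      exact push_mono (fun _ _ _ => Or.inl) j t b hc
  · -- labels
    intro y u p hp
    show (N4.tg g4).row[p]? = some (if u < S.pts.length then S.A q u else e)
    rcases CoStep_snoc hp with ⟨h5, h6⟩ | ⟨h5, h6⟩
    · rw [if_pos h5]
      exact CoStep_pre hr4 (CoStep_pre r23 (lab2 u p h6))
    · rw [if_neg (by omega), h6]
      exact CoStep_pre hr4 he
  · -- points
    intro p hp
    rcases List.mem_append.1 hp with h5 | h5
    · exact lt_of_lt_of_le (hS.lt p h5) (lenS2.trans (ext3.len_le.trans ext4.len_le))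
    · rw [List.mem_singleton] at h5
      rw [h5]
      exact hx4
  · refine ⟨x, pos, e, rfl, rfl, rfl, fun _ _ => rfl, lenS2.trans hx2, hx4, ?_, ?_, ?_⟩
    · intro u p hp
      have h5 := add3.row p (S.A q u) (lab2 u p hp)
      exact hf.mono _ _ ext4.pfx _ _ _ h5
    · show (path N4.W)[S.N.k]? = some pos
      rw [← hk1, ext4.get (by omega) g3.k_le, ext3.get k12 ch2.good.k_le]
      exact hpos
    · intro p hp
      obtain ⟨a, b⟩ := hS.slots.kid p hp q
      constructor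
      · intro h5
        exact lt_of_le_of_lt ((a h5).trans hM1.lo) hpos1
      · intro h5
        exact lt_of_lt_of_le hpos2 (hM1.hi.trans (b h5))
  · show S.N.k < N4.k
    rw [hk4]
    omega

end Pool.Agent.Lib.MP_b4a791_lc
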