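import Mathlib

/-!
# MP_b4a791_lc, Part A: definitions of the combinatorial core

Words of moves, tree of nodes, colorings of pairs of points along words, recurrence of rows,
targets, frames, states, children.  See `/team-store/h60_MP_b4a791.md`.
-/

namespace Pool.Agent.Lib.MP_b4a791_lc

/-- A move `(k, q)`: go back to the open node of level `k` (if `k` is at most the current depth)
and open a child of it at position `q`.  Move number `i` of a word creates point number `i`. -/
abbrev Move := ℕ × ℚ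

/-- Words of moves, in chronological order. -/
abbrev Word := List Move

/-- The effect of a move on the list of positions of the open nodes. -/
def stepPath (p : List ℚ) (m : Move) : List ℚ := p.take m.1 ++ [m.2]

/-- The positions of the open nodes after a word. -/
def path (W : Word) : List ℚ := W.foldl stepPath []

/-- Depth: the number of open nodes (the root is not counted). -/
def dep (W : Word) : ℕ := (path W).length

/-- `Ext k W W'`: `W'` extends `W` and all new moves have level at least `k`. -/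
def Ext (k : ℕ) (W W' : Word) : Prop := ∃ L : Word, W' = W ++ L ∧ ∀ m ∈ L, k ≤ m.1

/-- A partial coloring of pairs of points along words. -/
abbrev Col := Word → ℕ → ℕ → Option Bool

/-- Monotone and dense partial colorings. -/
structure MD (f : Col) : Prop where
  mono : ∀ W W' : Word, W <+: W' → ∀ x z b, f W x z = some b → f W' x z = some b
  dense : ∀ (W : Word) (x z : ℕ), x < z → z < W.length →
    ∃ W' b, Ext (dep W) W W' ∧ f W' x z = some b

/-- The row of `z` is `r`: for `i < r.length` the color of `(i, z)` is decided and equal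
to the `i`-th entry of `r`. -/
def RowAt (f : Col) (W : Word) (r : List Bool) (z : ℕ) : Prop :=
  ∀ i b, r[i]? = some b → f W i z = some b

/-- The row `r` is recurrent in the node of level `k` of `W`. -/
def Rec (f : Col) (W : Word) (k : ℕ) (r : List Bool) : Prop :=
  ∀ W', Ext k W W' → ∃ W'' z, Ext (dep W') W' W'' ∧ W'.length ≤ z ∧ z < W''.length ∧
    RowAt f W'' r z

/-- A target: an interval of positions with a promised row. -/
structure Tgt where
  lo : ℚ
  hi : ℚ
  row : List Bool

/-- `T'` refines `T`. -/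
structure Tgt.Le (T' T : Tgt) : Prop where
  lo : T.lo ≤ T'.lo
  hi : T'.hi ≤ T.hi
  row : T.row <+: T'.row

/-- `T` is a hereditary target of level `l`. -/
def HT (f : Col) (W : Word) (l : ℕ) (T : Tgt) : Prop :=
  ∀ W', Ext l W W' → ∀ a b : ℚ, T.lo ≤ a → a < b → b ≤ T.hi →
    ∃ W'' q, Ext l W' W'' ∧ (path W'')[l]? = some q ∧ a < q ∧ q < b ∧
      Rec f W'' (dep W'') T.row

/-- A frame: a level and finitely many targets (those with index `< n`). -/
structure Frame where
  lvl : ℕ
  n : ℕ
  tg : ℕ → Tgt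

/-- `φ'` refines `φ` through the map `h` of indices; `φ'` may have more targets. -/
def FLe (h : ℕ → ℕ) (φ' φ : Frame) : Prop :=
  φ'.lvl = φ.lvl ∧ ∀ t < φ.n, h t < φ'.n ∧ Tgt.Le (φ'.tg (h t)) (φ.tg t)

/-- `φ'` is obtained from `φ` by shrinking the intervals to nonempty intervals. -/
structure Shr (φ' φ : Frame) : Prop where
  lvl : φ'.lvl = φ.lvl
  n : φ'.n = φ.n
  le : ∀ t < φ.n, Tgt.Le (φ'.tg t) (φ.tg t)
  row : ∀ t < φ.n, (φ'.tg t).row = (φ.tg t).row
  ne : ∀ t < φ.n, (φ'.tg t).lo < (φ'.tg t).hi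

/-- The closing property of the stack of frames `Φ 0, …, Φ (m-1)`: from every later word of the
node of level `k` one can go back to the node of the frame `m-1`, with shrunk targets. -/
def Cl (f : Col) (Φ : ℕ → Frame) : ℕ → Word → ℕ → Prop
  | 0, _, _ => True
  | m + 1, W, k => ∀ W', Ext k W W' → ∃ W'' φ', Ext (Φ m).lvl W' W'' ∧ Shr φ' (Φ m) ∧
      (∀ t < (Φ m).n, HT f W'' (Φ m).lvl (φ'.tg t)) ∧ Cl f Φ m W'' (Φ m).lvl

/-- States inside a node (of level `k`), with a recurrent row `r`. -/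
structure PS where
  m : ℕ
  Φ : ℕ → Frame
  W : Word
  k : ℕ
  r : List Bool

/-- Valid states. -/
structure Good (f : Col) (s : PS) : Prop where
  k_le : s.k ≤ dep s.W
  lvl_mono : ∀ i j, i ≤ j → j < s.m → (s.Φ i).lvl ≤ (s.Φ j).lvl
  lvl_le : ∀ j < s.m, (s.Φ j).lvl ≤ s.k
  rec_ : Rec f s.W s.k s.r
  cl : Cl f s.Φ s.m s.W s.k
  len : s.r.length ≤ s.W.length

/-- `s'` extends `s` through the maps `h`. -/
structure PLe (h : ℕ → ℕ → ℕ) (s' s : PS) : Prop where
  m_le : s.m ≤ s'.m
  fle : ∀ j < s.m, FLe (h j) (s'.Φ j) (s.Φ j)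
  new : ∀ j, s.m ≤ j → j < s'.m → s.k ≤ (s'.Φ j).lvl
  ext : Ext s.k s.W s'.W
  k_le : s.k ≤ s'.k
  row : s.r <+: s'.r

/-- Constraints: `c j t b` asks for label `b` at target `t` of frame `j`. -/
abbrev Cons := ℕ → ℕ → Bool → Prop

/-- Transport of constraints. -/
def push (h : ℕ → ℕ → ℕ) (c : Cons) : Cons := fun j t' b => ∃ t, t' = h j t ∧ c j t b

/-- Union of constraints. -/
def cup (c c' : Cons) : Cons := fun j t b => c j t b ∨ c' j t b

/-- One constraint. -/
def one (j t : ℕ) (b : Bool) : Cons := fun j' t' b' => j' = j ∧ t' = t ∧ b' = b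

/-- The labels of `x` satisfy the constraints. -/
def Sat (Φ : ℕ → Frame) (x : ℕ) (c : Cons) : Prop :=
  ∀ j t b, c j t b → ((Φ j).tg t).row[x]? = some b

/-- `s''` adds the point `x` over `s'`: its row is the recurrent row of `s'`, and it is promised
to all targets of `s''`. -/
structure AddP (f : Col) (s' s'' : PS) (x : ℕ) : Prop where
  le : s'.W.length ≤ x
  lt : x < s''.W.length
  row : RowAt f s''.W s'.r x
  res : x < s''.r.length
  prom : ∀ j < s''.m, ∀ t < (s''.Φ j).n, x < ((s''.Φ j).tg t).row.length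

/-- The constraints `c` are sustained at `s`. -/
def Sust (f : Col) (s : PS) (c : Cons) : Prop :=
  ∀ s' h, Good f s' → PLe h s' s → ∃ s'' h' x, Good f s'' ∧ PLe h' s'' s' ∧
    AddP f s' s'' x ∧ Sat s''.Φ x (push h' (push h c))

/-- Node states: states with a finite set of targets of the current node. -/
structure NS where
  m : ℕ
  Φ : ℕ → Frame
  W : Word
  k : ℕ
  r : List Bool
  n : ℕ
  tg : ℕ → Tgt

/-- Underlying state. -/
def NS.toPS (N : NS) : PS := ⟨N.m, N.Φ, N.W, N.k, N.r⟩

/-- The frame of a node state. -/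
def NS.fr (N : NS) : Frame := ⟨N.k, N.n, N.tg⟩

/-- Valid node states. -/
structure NGood (f : Col) (N : NS) : Prop where
  good : Good f N.toPS
  ne : ∀ t < N.n, (N.tg t).lo < (N.tg t).hi
  ht : ∀ t < N.n, HT f N.W N.k (N.tg t)
  row : ∀ t < N.n, N.r <+: (N.tg t).row
  len : ∀ t < N.n, (N.tg t).row.length ≤ N.W.length

/-- `N'` refines the node state `N` (same node) through the maps `h` (outer frames) and
`κ` (each target of `N'` refines a target of `N`, and `κ` is surjective). -/
structure NLe (h : ℕ → ℕ → ℕ) (κ : ℕ → ℕ) (N' N : NS) : Prop where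
  m_eq : N'.m = N.m
  k_eq : N'.k = N.k
  r_eq : N'.r = N.r
  fle : ∀ j < N.m, FLe (h j) (N'.Φ j) (N.Φ j)
  ext : Ext N.k N.W N'.W
  map : ∀ t' < N'.n, κ t' < N.n ∧ Tgt.Le (N'.tg t') (N.tg (κ t'))
  surj : ∀ t < N.n, ∃ t' < N'.n, κ t' = t

/-- `s` is a state inside a descendant of the node of `N`, the targets of `N` having
become frame number `N.m`. -/
structure Desc (h : ℕ → ℕ → ℕ) (N : NS) (s : PS) : Prop where
  m_lt : N.m < s.m
  fle : ∀ j < N.m, FLe (h j) (s.Φ j) (N.Φ j)
  fr : FLe (h N.m) (s.Φ N.m) N.fr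
  new : ∀ j, N.m < j → j < s.m → N.k ≤ (s.Φ j).lvl
  ext : Ext N.k N.W s.W
  k_lt : N.k < s.k

/-- `s` is a state inside a child of the node of `N` located in the target `a`. -/
structure Child (f : Col) (h : ℕ → ℕ → ℕ) (N : NS) (a : ℕ) (s : PS) : Prop where
  good : Good f s
  desc : Desc h N s
  pos : ∃ q, (path s.W)[N.k]? = some q ∧ (N.tg a).lo < q ∧ q < (N.tg a).hi
  row : (N.tg a).row <+: s.r

/-- The row of constraints of the target `a` of `N'`. -/
def rowc (m n : ℕ) (κ : ℕ → ℕ) (E : ℕ → ℕ → Prop) (C : ℕ → ℕ → Bool) (a : ℕ) : Cons :=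
  fun j b v => j = m ∧ b < n ∧ E (κ a) (κ b) ∧ v = C (κ a) (κ b)

/-- The constraints only concern frames below `m`. -/
def CDom (c : Cons) (m : ℕ) : Prop := ∀ j t b, c j t b → j < m

/-- All pairs of `E` have the sustained color `C` over `N`. -/
def UE (f : Col) (N : NS) (c : Cons) (E : ℕ → ℕ → Prop) (C : ℕ → ℕ → Bool) : Prop :=
  ∀ N' h κ, NGood f N' → NLe h κ N' N → ∀ a < N'.n, ∃ s h', Child f h' N' a s ∧
    Sust f s (push h' (cup (push h c) (rowc N.m N'.n κ E C a)))

/-- Full sustained matrices. -/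
def Full (f : Col) (N : NS) (c : Cons) (C : ℕ → ℕ → Bool) : Prop :=
  UE f N c (fun a b => a ≠ b) C

/-- Compatibility of matrices. -/
def Compat (κ : ℕ → ℕ) (n : ℕ) (C' C : ℕ → ℕ → Bool) : Prop :=
  ∀ a < n, ∀ b < n, κ a ≠ κ b → C' a b = C (κ a) (κ b)

/-- Homogeneous ordered triples of targets. -/
structure Trip (N : NS) (C : ℕ → ℕ → Bool) (ψ : Bool → Bool) (a b c : ℕ) : Prop where
  la : a < N.n
  lb : b < N.n
  lc : c < N.n
  ab : (N.tg a).hi ≤ (N.tg b).lo
  bc : (N.tg b).hi ≤ (N.tg c).lo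
  cab : C a b = ψ true
  cac : C a c = ψ true
  cbc : C b c = ψ true
  cba : C b a = ψ false
  cca : C c a = ψ false
  ccb : C c b = ψ false

/-- There is a refinement with a homogeneous triple of type `ψ` below the target `g`. -/
def Ty (f : Col) (N : NS) (c : Cons) (C : ℕ → ℕ → Bool) (g : ℕ) (ψ : Bool → Bool) : Prop :=
  ∃ N' h κ C' x y z, NGood f N' ∧ NLe h κ N' N ∧ Full f N' (push h c) C' ∧
    Compat κ N'.n C' C ∧ Trip N' C' ψ x y z ∧ κ x = g ∧ κ y = g ∧ κ z = g

/-- Hereditary version of `Ty`. -/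
def Hom (f : Col) (N : NS) (c : Cons) (C : ℕ → ℕ → Bool) (g : ℕ) (ψ : Bool → Bool) : Prop :=
  ∀ N' h κ C' g', NGood f N' → NLe h κ N' N → Full f N' (push h c) C' → Compat κ N'.n C' C →
    g' < N'.n → κ g' = g → Ty f N' (push h c) C' g' ψ

end Pool.Agent.Lib.MP_b4a791_lc
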