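import Pool.Agent.Lib.MP_b4a791_lc.A.CoRec

/-!
# MP_b4a791_lc, Part A: the Embedding Theorem
-/

namespace Pool.Agent.Lib.MP_b4a791_lc

/-- `σ` embeds the free words into the base words below `W0`; `X w` is the list of the designated
points, `f` is transitive on them. -/
structure Emb (f : Col) (W0 : Word) (σ : Word → Word) (X : Word → List ℕ) : Prop where
  root : ∀ w, Ext (dep W0) W0 (σ w)
  pre : ∀ w w', w <+: w' → σ w <+: σ w'
  len : ∀ w, (X w).length = w.length
  new : ∀ w (m : Move), ∃ x : ℕ, X (w ++ [m]) = X w ++ [x] ∧ (σ w).length ≤ x ∧ x < (σ (w ++ [m])).length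
  sib : SibStr σ
  dec : ∀ w (i j a b : ℕ), i < j → (X w)[i]? = some a → (X w)[j]? = some b → ∃ v, f (σ w) a b = some v
  trans : ∀ w (i j t a b c : ℕ) (v : Bool), i < j → j < t → (X w)[i]? = some a → (X w)[j]? = some b →
    (X w)[t]? = some c → f (σ w) a b = some v → f (σ w) b c = some v → f (σ w) a c = some v

variable {f : Col}

private theorem Emb_step {W0 : Word} {St : Word → CSt} (h : States f W0 St) (w : Word)
    (m : Move) : (St w).N.W <+: (St (w ++ [m])).N.W ∧
      ∃ x, (St (w ++ [m])).pts = (St w).pts ++ [x] ∧ (St w).N.W.length ≤ x ∧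
        x < (St (w ++ [m])).N.W.length ∧
        ∀ u p, (St w).pts[u]? = some p → f (St (w ++ [m])).N.W p x =
          some (labCol (fun w => (St w).lab) w m u) := by
  obtain ⟨S1, hS1, hP, hO⟩ := h.step w m
  have hl : (St w).L.length = dep w := (h.len w).1
  have hle : min m.1 (St w).L.length ≤ (St w).L.length := min_le_right _ _
  have hidx : (St w).L.length - ((St w).L.length - min m.1 (St w).L.length) =
      min m.1 (dep w) := by
    rw [← hl]
    omega
  have hA : S1.A = (St w).lab (min m.1 (dep w)) := by
    rw [hP.A, hidx]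
  have hpre1 : (St w).N.W <+: S1.N.W := hP.ext.pfx
  refine ⟨hpre1.trans hO.ext.pfx, ?_⟩
  obtain ⟨x, pos, e, h1, h2, h3, h4, h5, h6, h7, h8, h9⟩ := hO.ex
  refine ⟨x, ?_, hpre1.length_le.trans h5, h6, ?_⟩
  · rw [h2, hP.pts]
  · intro u p hp
    rw [← hP.pts] at hp
    rw [h7 u p hp, hA]
    rfl

private theorem Emb_mono {W0 : Word} {St : Word → CSt} (h : States f W0 St) (w w' : Word)
    (hw : w <+: w') : (St w).N.W <+: (St w').N.W ∧ (St w).pts <+: (St w').pts := by
  obtain ⟨L, rfl⟩ := hw
  induction L using List.reverseRecOn with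
  | nil => simp
  | append_singleton L m ih =>
    have h1 := Emb_step h (w ++ L) m
    rw [List.append_assoc] at h1
    obtain ⟨h2, x, h3, -⟩ := h1
    refine ⟨ih.1.trans h2, ih.2.trans ?_⟩
    rw [h3]
    exact List.prefix_append _ _

private theorem Emb_get {α : Type*} {l l' : List α} (hl : l <+: l') {i : ℕ} (hi : i < l.length) :
    l'[i]? = l[i]? := by
  obtain ⟨t, rfl⟩ := hl
  rw [List.getElem?_append_left hi]

/-- The color of two designated points. -/
theorem States.color (hf : MD f) {W0 : Word} {St : Word → CSt} (h : States f W0 St)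
    (w : Word) (m : Move) (w' : Word) (hw : w ++ [m] <+: w') (u : ℕ) (hu : u < w.length) (a b : ℕ)
    (ha : (St w').pts[u]? = some a) (hb : (St w').pts[w.length]? = some b) :
    f (St w').N.W a b = some (labCol (fun w => (St w).lab) w m u) := by
  obtain ⟨hpre, x, hx, -, -, hcol⟩ := Emb_step h w m
  obtain ⟨hm1, hm2⟩ := Emb_mono h _ _ hw
  have hl : (St w).pts.length = w.length := (h.len w).2
  have hl2 : (St (w ++ [m])).pts.length = w.length + 1 := by
    rw [hx]
    simp [hl]
  rw [Emb_get hm2 (by omega), hx, List.getElem?_append_left (by omega)] at ha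
  rw [Emb_get hm2 (by omega), hx, List.getElem?_append_right (by omega), hl] at hb
  simp only [Nat.sub_self, List.getElem?_cons_zero, Option.some.injEq] at hb
  subst hb
  exact hf.mono _ _ hm1 _ _ _ (hcol u a ha)

private theorem Emb_lev0 {W0 : Word} {St : Word → CSt} (h : States f W0 St) (w : Word) :
    (St w).lev 0 = dep W0 := by
  induction w using List.reverseRecOn with
  | nil =>
    have : (St []).lev 0 = (St []).N.k := by
      simp [CSt.lev, h.L0]
    rw [this, h.k0]
  | append_singleton w m ih =>
    have := h.levData.lev_eq w m 0 (Nat.zero_le _)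
    rw [← ih]
    exact this

private theorem Emb_levle {W0 : Word} {St : Word → CSt} (h : States f W0 St) (w : Word) (i : ℕ)
    (hi : i ≤ dep w) : dep W0 ≤ (St w).lev i := by
  induction i with
  | zero => exact (Emb_lev0 h w).ge
  | succ i ih =>
    have h1 := ih (by omega)
    have h2 : (St w).lev i < (St w).lev (i + 1) := h.levData.lev_lt w i (by omega)
    omega

private theorem Emb_take (w : Word) (j : ℕ) (hj : j < w.length) :
    ∃ m, w.take j ++ [m] = w.take (j + 1) := by
  refine ⟨w[j], ?_⟩
  rw [List.take_succ_eq_append_getElem hj]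

theorem States.emb (hf : MD f) {W0 : Word} {St : Word → CSt} (h : States f W0 St) :
    Emb f W0 (fun w => (St w).N.W) (fun w => (St w).pts) := by
  refine ⟨?_, ?_, ?_, ?_, ?_, ?_, ?_⟩
  · intro w
    induction w using List.reverseRecOn with
    | nil => exact h.ext0
    | append_singleton w m ih =>
      refine ih.trans ?_
      exact Ext.mono (Emb_levle h w _ (min_le_right _ _)) (h.levData.ext w m)
  · intro w w' hw
    exact (Emb_mono h w w' hw).1
  · intro w
    exact (h.len w).2
  · intro w m
    obtain ⟨-, x, hx, h1, h2, -⟩ := Emb_step h w m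
    exact ⟨x, hx, h1, h2⟩
  · exact h.levData.sibStr
  · intro w i j a b hij ha hb
    have hj : j < w.length := by
      rw [← (h.len w).2]
      exact (List.getElem?_eq_some_iff.1 hb).1
    obtain ⟨m, hm⟩ := Emb_take w j hj
    have hlen : (w.take j).length = j := by
      rw [List.length_take]
      omega
    refine ⟨_, h.color hf (w.take j) m w ?_ i (by omega) a b ha (by rw [hlen]; exact hb)⟩
    rw [hm]
    exact List.take_prefix _ _
  · intro w i j t a b c v hij hjt ha hb hc hab hbc
    have ht : t < w.length := by
      rw [← (h.len w).2]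
      exact (List.getElem?_eq_some_iff.1 hc).1
    obtain ⟨m, hm⟩ := Emb_take w j (by omega)
    obtain ⟨m', hm'⟩ := Emb_take w t ht
    have hlen : (w.take j).length = j := by
      rw [List.length_take]
      omega
    have hlen' : (w.take t).length = t := by
      rw [List.length_take]
      omega
    have hp1 : w.take j ++ [m] <+: w := by
      rw [hm]
      exact List.take_prefix _ _
    have hp2 : w.take t ++ [m'] <+: w := by
      rw [hm']
      exact List.take_prefix _ _
    have e1 := h.color hf (w.take j) m w hp1 i (by omega) a b ha (by rw [hlen]; exact hb)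
    have e2 := h.color hf (w.take t) m' w hp2 j (by omega) b c hb (by rw [hlen']; exact hc)
    have e3 := h.color hf (w.take t) m' w hp2 i (by omega) a c ha (by rw [hlen']; exact hc)
    rw [e3]
    rw [hab] at e1
    rw [hbc] at e2
    have hpp : w.take j ++ [m] <+: w.take t := by
      rw [hm]
      exact List.take_prefix_take_left (by omega)
    have := h.labData.trans (w.take j) m (w.take t) m' hpp i (by omega) v
      (Option.some.inj e1).symm (by rw [hlen]; exact (Option.some.inj e2).symm)
    rw [this]

/-- The Embedding Theorem. -/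
theorem exists_emb (hf : MD f) (W0 : Word) : ∃ σ X, Emb f W0 σ X := by
  obtain ⟨St, h⟩ := exists_states hf W0
  exact ⟨_, _, h.emb hf⟩

end Pool.Agent.Lib.MP_b4a791_lc
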