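import Pool.Agent.Lib.MP_b4a791_lc.A.U1

/-!
# MP_b4a791_lc, Part A: full matrices
-/

namespace Pool.Agent.Lib.MP_b4a791_lc

variable {f : Col}

/-- Iterate `UE.add` over a list of pairs. -/
theorem UE.addList (hf : MD f) {N : NS} {c : Cons} {E : ℕ → ℕ → Prop} {C : ℕ → ℕ → Bool}
    (hN : NGood f N) (hcd : CDom c N.m) (hU : UE f N c E C) (L : List (ℕ × ℕ))
    (hL : ∀ p ∈ L, p.1 ≠ p.2 ∧ p.1 < N.n ∧ p.2 < N.n) :
    ∃ N' h C', NGood f N' ∧ NLe h id N' N ∧ N'.n = N.n ∧
      UE f N' (push h c) (fun a b => E a b ∨ (a, b) ∈ L) C' ∧ ∀ a b, E a b → C' a b = C a b := by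
  classical
  induction L generalizing N c E C with
  | nil =>
    refine ⟨N, hid, C, hN, NLe.refl N, rfl, ?_, fun _ _ _ => rfl⟩
    rw [push_hid]
    refine UE.congr hU (fun a _ b _ h => ?_) (fun _ _ _ _ _ => rfl)
    simpa using h
  | cons p L ih =>
    obtain ⟨i, j⟩ := p
    have hLt : ∀ p ∈ L, p.1 ≠ p.2 ∧ p.1 < N.n ∧ p.2 < N.n :=
      fun p hp => hL p (List.mem_cons_of_mem _ hp)
    obtain ⟨hij, hi, hj⟩ := hL (i, j) List.mem_cons_self
    simp only at hij hi hj
    by_cases hE : E i j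
    · obtain ⟨N', h, C', h1, h2, h3, h4, h5⟩ := ih hN hcd hU hLt
      refine ⟨N', h, C', h1, h2, h3, ?_, h5⟩
      refine UE.congr h4 (fun a _ b _ hab => ?_) (fun _ _ _ _ _ => rfl)
      rcases hab with hab | hab
      · exact Or.inl hab
      · rcases List.mem_cons.1 hab with hab | hab
        · rw [Prod.mk.injEq] at hab
          obtain ⟨rfl, rfl⟩ := hab
          exact Or.inl hE
        · exact Or.inr hab
    · obtain ⟨N1, h1, b, g1, l1, n1, u1⟩ := UE.add hf hN hij hi hj hE hcd hU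
      have hcd1 : CDom (push h1 c) N1.m := by
        rintro j' t' b' ⟨t, _, hc⟩
        rw [l1.m_eq]
        exact hcd _ _ _ hc
      have hL1 : ∀ p ∈ L, p.1 ≠ p.2 ∧ p.1 < N1.n ∧ p.2 < N1.n := by
        rw [n1]
        exact hLt
      obtain ⟨N2, h2, C2, g2, l2, n2, u2, e2⟩ := ih g1 hcd1 u1 hL1
      refine ⟨N2, hcomp h2 h1, C2, g2, l1.trans l2, n2.trans n1, ?_, ?_⟩
      · rw [← push_push]
        refine UE.congr u2 (fun a _ b' _ hab => ?_) (fun _ _ _ _ _ => rfl)
        rcases hab with hab | hab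
        · exact Or.inl (Or.inl hab)
        · rcases List.mem_cons.1 hab with hab | hab
          · rw [Prod.mk.injEq] at hab
            exact Or.inl (Or.inr hab)
          · exact Or.inr hab
      · intro a b' hab
        rw [e2 a b' (Or.inl hab)]
        unfold updC
        rw [if_neg]
        rintro ⟨rfl, rfl⟩
        exact hE hab

/-- Every partial matrix extends to a full one. -/
theorem exists_full (hf : MD f) {N : NS} {c : Cons} {E : ℕ → ℕ → Prop} {C : ℕ → ℕ → Bool}
    (hN : NGood f N) (hcd : CDom c N.m) (hU : UE f N c E C) :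
    ∃ N' h C', NGood f N' ∧ NLe h id N' N ∧ N'.n = N.n ∧ Full f N' (push h c) C' ∧
      ∀ a b, E a b → C' a b = C a b := by
  classical
  obtain ⟨N', h, C', h1, h2, h3, h4, h5⟩ := UE.addList hf hN hcd hU
    (((List.range N.n).product (List.range N.n)).filter (fun p => decide (p.1 ≠ p.2)))
    (by
      rintro ⟨a, b⟩ hp
      rw [List.mem_filter] at hp
      obtain ⟨hp1, hp2⟩ := hp
      rw [List.pair_mem_product, List.mem_range, List.mem_range] at hp1
      exact ⟨by simpa using hp2, hp1.1, hp1.2⟩)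
  refine ⟨N', h, C', h1, h2, h3, ?_, h5⟩
  refine UE.congr h4 (fun a ha b hb hab => Or.inr ?_) (fun _ _ _ _ _ => rfl)
  rw [List.mem_filter, List.pair_mem_product, List.mem_range, List.mem_range]
  rw [h3] at ha hb
  exact ⟨⟨ha, hb⟩, by simpa using hab⟩

end Pool.Agent.Lib.MP_b4a791_lc
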