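import Pool.Agent.Lib.MP_b4a791_lc.A.RecL

/-!
# MP_b4a791_lc, Part A: hereditary targets
-/

namespace Pool.Agent.Lib.MP_b4a791_lc

variable {f : Col}

lemma Tgt.Le.refl (T : Tgt) : Tgt.Le T T := ⟨le_rfl, le_rfl, List.prefix_rfl⟩

lemma Tgt.Le.trans {T T' T'' : Tgt} (h : Tgt.Le T T') (h' : Tgt.Le T' T'') : Tgt.Le T T'' :=
  ⟨h'.lo.trans h.lo, h.hi.trans h'.hi, h'.row.trans h.row⟩

/-- `HT` is monotone in the word and in the interval (for the same or a shorter row). -/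
theorem HT.mono {W W' : Word} {l : ℕ} {T T' : Tgt} (h : HT f W l T) (hW : Ext l W W')
    (hlo : T.lo ≤ T'.lo) (hhi : T'.hi ≤ T.hi) (hr : T'.row <+: T.row) : HT f W' l T' := by
  intro V hV a b ha hab hb
  obtain ⟨V', q, h1, h2, h3, h4, h5⟩ := h V (hW.trans hV) a b (hlo.trans ha) hab (hb.trans hhi)
  exact ⟨V', q, h1, h2, h3, h4, h5.pre hr⟩

/-- A recurrent row makes every interval of the current node a target. -/
theorem HT.of_rec {W : Word} {l : ℕ} {T : Tgt} (hl : l ≤ dep W) (h : Rec f W l T.row) :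
    HT f W l T := by
  intro V hV a b ha hab hb
  refine ⟨V ++ [(l, (a + b) / 2)], (a + b) / 2, Ext.snoc V le_rfl,
    path_snoc_get _ (hV.dep_le hl), by linarith, by linarith, ?_⟩
  refine h.mono (hV.trans (Ext.snoc V le_rfl)) ?_
  rw [dep_snoc_le _ (hV.dep_le hl)]
  omega

/-- One more bit. [`ph` on pairs (word, interval); `Rec.bit` for the step.] -/
theorem HT.bit (hf : MD f) {W : Word} {l : ℕ} {T : Tgt} (hl : l ≤ dep W) (h : HT f W l T)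
    (hne : T.lo < T.hi) (hr : T.row.length < W.length) :
    ∃ W' lo' hi' b, Ext l W W' ∧ T.lo ≤ lo' ∧ lo' < hi' ∧ hi' ≤ T.hi ∧
      HT f W' l ⟨lo', hi', T.row ++ [b]⟩ := by
  have key := ph (S := {s : Word × ℚ × ℚ // Ext l W s.1 ∧ T.lo ≤ s.2.1 ∧ s.2.1 < s.2.2 ∧
      s.2.2 ≤ T.hi})
    (fun s' s => Ext l s.1.1 s'.1.1 ∧ s.1.2.1 ≤ s'.1.2.1 ∧ s'.1.2.2 ≤ s.1.2.2)
    (fun s => ⟨Ext.refl _ _, le_rfl, le_rfl⟩)
    (fun a b c h1 h2 => ⟨h2.1.trans h1.1, h2.2.1.trans h1.2.1, h1.2.2.trans h2.2.2⟩)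
    (fun s b => ∃ V q, Ext l s.1.1 V ∧ (path V)[l]? = some q ∧ s.1.2.1 < q ∧ q < s.1.2.2 ∧
      Rec f V (dep V) (T.row ++ [b]))
    (fun s' s b h1 ⟨V, q, h2, h3, h4, h5, h6⟩ =>
      ⟨V, q, h1.1.trans h2, h3, h1.2.1.trans_lt h4, h5.trans_le h1.2.2, h6⟩)
    ⟨(W, T.lo, T.hi), Ext.refl _ _, le_rfl, hne, le_rfl⟩ ?_
  · obtain ⟨⟨⟨W0, lo', hi'⟩, h1, h2, h3, h4⟩, b, -, h6⟩ := key
    refine ⟨W0, lo', hi', b, h1, h2, h3, h4, fun V hV a c ha hac hc => ?_⟩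
    exact h6 ⟨(V, a, c), h1.trans hV, le_trans h2 ha, hac, le_trans hc h4⟩ ⟨hV, ha, hc⟩
  · rintro ⟨⟨V, lo, hi⟩, h1, h2, h3, h4⟩ -
    obtain ⟨V', q, h5, h6, h7, h8, h9⟩ := h V h1 lo hi h2 h3 h4
    obtain ⟨V'', b, h10, h11⟩ := h9.bit hf (lt_of_lt_of_le hr (h1.trans h5).len_le)
    refine ⟨b, V'', q, h5.trans (h10.mono (h5.dep_le (h1.dep_le hl))), ?_, h7, h8, h11⟩
    rw [h10.get (path_get_lt h6) le_rfl]
    exact h6

end Pool.Agent.Lib.MP_b4a791_lc
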