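import Pool.Agent.Lib.MP_b4a791_lc.A.PSL

/-!
# MP_b4a791_lc, Part A: node states, children, the conditions `UE`
-/

namespace Pool.Agent.Lib.MP_b4a791_lc

variable {f : Col}

lemma NLe.refl (N : NS) : NLe hid id N N :=
  ⟨rfl, rfl, rfl, fun _ _ => FLe.refl _, Ext.refl _ _, fun _ ht => ⟨ht, Tgt.Le.refl _⟩,
    fun t ht => ⟨t, ht, rfl⟩⟩

theorem NLe.trans {h h' : ℕ → ℕ → ℕ} {κ κ' : ℕ → ℕ} {N N' N'' : NS} (a : NLe h κ N' N)
    (b : NLe h' κ' N'' N') : NLe (hcomp h' h) (κ ∘ κ') N'' N := by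
  refine ⟨b.m_eq.trans a.m_eq, b.k_eq.trans a.k_eq, b.r_eq.trans a.r_eq, ?_, ?_, ?_, ?_⟩
  · intro j hj
    exact (a.fle j hj).trans (b.fle j (by rw [a.m_eq]; exact hj))
  · have h1 := b.ext
    rw [a.k_eq] at h1
    exact a.ext.trans h1
  · intro t' ht'
    obtain ⟨h1, h2⟩ := b.map t' ht'
    obtain ⟨h3, h4⟩ := a.map _ h1
    exact ⟨h3, h2.trans h4⟩
  · intro t ht
    obtain ⟨t', h1, h2⟩ := a.surj t ht
    obtain ⟨t'', h3, h4⟩ := b.surj t' h1
    exact ⟨t'', h3, by rw [Function.comp, h4, h2]⟩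

/-- The underlying states are ordered. -/
theorem NLe.ple {h : ℕ → ℕ → ℕ} {κ : ℕ → ℕ} {N N' : NS} (a : NLe h κ N' N) :
    PLe h N'.toPS N.toPS := by
  refine ⟨a.m_eq.ge, a.fle, ?_, a.ext, a.k_eq.ge, ?_⟩
  · intro j h1 h2
    have h3 : N.m ≤ j := h1
    have h4 : j < N'.m := h2
    rw [a.m_eq] at h4
    omega
  · change N.r <+: N'.r
    rw [a.r_eq]

/-- Children persist under extension of the state. -/
theorem Child.ext {h h' : ℕ → ℕ → ℕ} {N : NS} {a : ℕ} {s s' : PS} (hc : Child f h N a s)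
    (hg : Good f s') (hs : PLe h' s' s) : Child f (hcomp h' h) N a s' := by
  refine ⟨hg, ⟨lt_of_lt_of_le hc.desc.m_lt hs.m_le, ?_, ?_, ?_, ?_, ?_⟩, ?_,
    hc.row.trans hs.row⟩
  · intro j hj
    exact (hc.desc.fle j hj).trans (hs.fle j (hj.trans hc.desc.m_lt))
  · exact hc.desc.fr.trans (hs.fle N.m hc.desc.m_lt)
  · intro j h1 h2
    rcases lt_or_ge j s.m with h3 | h3
    · rw [(hs.fle j h3).1]
      exact hc.desc.new j h1 h3
    · exact hc.desc.k_lt.le.trans (hs.new j h3 h2)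
  · exact hc.desc.ext.trans (hs.ext.mono hc.desc.k_lt.le)
  · exact lt_of_lt_of_le hc.desc.k_lt hs.k_le
  · obtain ⟨q, h1, h2, h3⟩ := hc.pos
    refine ⟨q, ?_, h2, h3⟩
    rw [Ext.get hc.desc.k_lt hc.good.k_le hs.ext]
    exact h1

/-- The underlying state of `N` is above its children. -/
theorem Child.ple {h : ℕ → ℕ → ℕ} {N : NS} {a : ℕ} {s : PS} (hc : Child f h N a s)
    (hr : N.r <+: (N.tg a).row) : PLe h s N.toPS := by
  refine ⟨hc.desc.m_lt.le, hc.desc.fle, ?_, hc.desc.ext, hc.desc.k_lt.le, hr.trans hc.row⟩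
  intro j h1 h2
  rcases Nat.eq_or_lt_of_le h1 with h3 | h3
  · have h4 : N.m = j := h3
    rw [← h4, hc.desc.fr.1]
    exact le_rfl
  · exact hc.desc.new j h3 h2

/-- Children of `N'` are children of `N` if every target of `N` has a chosen refinement `ρ t` in
`N'`; `g` are the index maps of the outer frames. -/
theorem Child.weaken {h g : ℕ → ℕ → ℕ} {N N' : NS} {a a' : ℕ} {s : PS} (hc : Child f h N' a' s)
    (ha' : a' < N'.n) (hm : N'.m = N.m) (hk : N'.k = N.k)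
    (hfle : ∀ j < N.m, FLe (g j) (N'.Φ j) (N.Φ j)) (hW : Ext N.k N.W N'.W)
    (hρ : ∀ t < N.n, g N.m t < N'.n ∧ Tgt.Le (N'.tg (g N.m t)) (N.tg t))
    (haa : Tgt.Le (N'.tg a') (N.tg a)) : Child f (hcomp h g) N a s := by
  have _ := ha'
  have hd := hc.desc
  have hfr := hd.fr
  have hext := hd.ext
  have hnew := hd.new
  have hklt := hd.k_lt
  have hmlt := hd.m_lt
  rw [hm] at hfr hnew hmlt
  rw [hk] at hext hklt hnew
  refine ⟨hc.good, ⟨hmlt, ?_, ⟨?_, ?_⟩, hnew, hW.trans hext, hklt⟩, ?_, haa.row.trans hc.row⟩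
  · intro j hj
    exact (hfle j hj).trans (hd.fle j (by rw [hm]; exact hj))
  · exact hfr.1.trans hk
  · intro t ht
    obtain ⟨h1, h2⟩ := hρ t ht
    obtain ⟨h3, h4⟩ := hfr.2 _ h1
    exact ⟨h3, h4.trans h2⟩
  · obtain ⟨q, h1, h2, h3⟩ := hc.pos
    rw [hk] at h1
    exact ⟨q, h1, lt_of_le_of_lt haa.lo h2, lt_of_lt_of_le h3 haa.hi⟩

/-- Opening: every target of a valid node state has a child. -/
theorem exists_child {N : NS} (hN : NGood f N) {a : ℕ} (ha : a < N.n) :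
    ∃ s, Child f hid N a s := by
  obtain ⟨W1, q, hext, hq, hlo, hhi, hrec⟩ :=
    hN.ht a ha N.W (Ext.refl _ _) _ _ le_rfl (hN.ne a ha) le_rfl
  have hk : N.k < dep W1 := path_get_lt hq
  have hlvl : ∀ j < N.m, (N.Φ j).lvl ≤ N.k := hN.good.lvl_le
  obtain ⟨Φ', hΦ1, hΦ2⟩ : ∃ Φ' : ℕ → Frame, (∀ j < N.m, Φ' j = N.Φ j) ∧ Φ' N.m = N.fr :=
    ⟨fun j => if j < N.m then N.Φ j else N.fr, fun j hj => if_pos hj, if_neg (lt_irrefl _)⟩
  have hlvl' : ∀ j < N.m + 1, (Φ' j).lvl ≤ N.k := by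
    intro j hj
    rcases Nat.lt_succ_iff_lt_or_eq.1 hj with h1 | h1
    · rw [hΦ1 j h1]
      exact hlvl j h1
    · rw [h1, hΦ2]
      exact le_rfl
  refine ⟨⟨N.m + 1, Φ', W1, dep W1, (N.tg a).row⟩, ⟨le_rfl, ?_, ?_, hrec, ?_, ?_⟩,
    ⟨Nat.lt_succ_self _, ?_, ?_, ?_, hext, hk⟩, ⟨q, hq, hlo, hhi⟩, List.prefix_rfl⟩
  · intro i j hij hj
    rcases Nat.lt_succ_iff_lt_or_eq.1 hj with h1 | h1
    · simp only
      rw [hΦ1 j h1, hΦ1 i (lt_of_le_of_lt hij h1)]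
      exact hN.good.lvl_mono i j hij h1
    · simp only
      rw [h1, hΦ2]
      exact hlvl' i (by omega)
  · intro j hj
    exact (hlvl' j hj).trans hk.le
  · intro W' hW'
    have hNW' : Ext N.k N.W W' := hext.trans (hW'.mono hk.le)
    simp only
    rw [hΦ2]
    refine ⟨W', N.fr, Ext.refl _ _, ⟨rfl, rfl, fun t _ => Tgt.Le.refl _, fun t _ => rfl, hN.ne⟩,
      fun t ht => (hN.ht t ht).mono hNW' le_rfl le_rfl List.prefix_rfl, ?_⟩
    rw [Cl.congr hΦ1]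
    exact Cl.mono hN.good.cl hNW' le_rfl
  · exact (hN.len a ha).trans hext.len_le
  · intro j hj
    simp only
    rw [hΦ1 j hj]
    exact FLe.refl _
  · simp only
    rw [hΦ2]
    exact FLe.refl _
  · intro j h1 h2
    have h3 : j < N.m + 1 := h2
    omega

/-- No constraint on the targets of `N`: the outer constraints are sustained in all children. -/
theorem UE.zero {N : NS} {c : Cons} (hN : NGood f N) (hs : Sust f N.toPS c) (C : ℕ → ℕ → Bool) :
    UE f N c (fun _ _ => False) C := by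
  have _ := hN
  intro N' h κ hN' hle a ha
  obtain ⟨s, hc⟩ := exists_child hN' ha
  refine ⟨s, hid, hc, ?_⟩
  refine ((hs.mono hle.ple).mono (hc.ple (hN'.row a ha))).sub (push_mono ?_)
  rintro j t b (h1 | h1)
  · exact h1
  · exact h1.2.2.1.elim

/-- Inheritance: `UE` at `N` gives `UE` at `N'` for the pulled back relation and matrix. -/
theorem UE.inherit {N N' : NS} {c : Cons} {E : ℕ → ℕ → Prop} {C : ℕ → ℕ → Bool}
    {h : ℕ → ℕ → ℕ} {κ : ℕ → ℕ} (hU : UE f N c E C) (hN' : NGood f N') (hle : NLe h κ N' N) :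
    UE f N' (push h c) (fun a b => E (κ a) (κ b)) (fun a b => C (κ a) (κ b)) := by
  have _ := hN'
  intro N2 h2 κ2 hN2 hle2 a ha
  obtain ⟨s, h', h3, h4⟩ := hU N2 _ _ hN2 (hle.trans hle2) a ha
  refine ⟨s, h', h3, ?_⟩
  rw [push_push, hle.m_eq]
  exact h4

/-- `UE` only depends on the relation and the matrix at indices `< N.n`. -/
theorem UE.congr {N : NS} {c : Cons} {E E' : ℕ → ℕ → Prop} {C C' : ℕ → ℕ → Bool}
    (hU : UE f N c E C) (hE : ∀ a < N.n, ∀ b < N.n, E' a b → E a b)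
    (hC : ∀ a < N.n, ∀ b < N.n, E' a b → C' a b = C a b) : UE f N c E' C' := by
  intro N' h κ hN' hle a ha
  obtain ⟨s, h', h1, h2⟩ := hU N' h κ hN' hle a ha
  refine ⟨s, h', h1, h2.sub (push_mono ?_)⟩
  rintro j b v (h3 | ⟨h3, h4, h5, h6⟩)
  · exact Or.inl h3
  · have h7 := (hle.map a ha).1
    have h8 := (hle.map b h4).1
    exact Or.inr ⟨h3, h4, hE _ h7 _ h8 h5, h6.trans (hC _ h7 _ h8 h5)⟩

/-- `Full` is inherited when `κ` is injective on the targets of `N'`. -/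
theorem Full.inherit {N N' : NS} {c : Cons} {C : ℕ → ℕ → Bool}
    {h : ℕ → ℕ → ℕ} {κ : ℕ → ℕ} (hU : Full f N c C) (hN' : NGood f N') (hle : NLe h κ N' N)
    (hinj : ∀ a < N'.n, ∀ b < N'.n, κ a = κ b → a = b) :
    Full f N' (push h c) (fun a b => C (κ a) (κ b)) :=
  (UE.inherit hU hN' hle).congr (fun a ha b hb hne hk => hne (hinj a ha b hb hk))
    (fun _ _ _ _ _ => rfl)

/-- The use of `Full`: children with a sustained full row. -/
theorem Full.child {N : NS} {c : Cons} {C : ℕ → ℕ → Bool} (hN : NGood f N) (hU : Full f N c C)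
    {a : ℕ} (ha : a < N.n) :
    ∃ s h, Child f h N a s ∧
      Sust f s (push h (cup c (fun j b v => j = N.m ∧ b < N.n ∧ a ≠ b ∧ v = C a b))) := by
  obtain ⟨s, h', h1, h2⟩ := hU N hid id hN (NLe.refl N) a ha
  rw [push_hid] at h2
  exact ⟨s, h', h1, h2⟩

end Pool.Agent.Lib.MP_b4a791_lc
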