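import Mathlib

/-!
# MP_b4a791_lc, Part A: the pigeonhole principle for preorders
-/

namespace Pool.Agent.Lib.MP_b4a791_lc

/-- Pigeonhole principle with a finite set of candidates. -/
theorem ph_finset {S α : Type*} [DecidableEq α] (le : S → S → Prop) (hrefl : ∀ s, le s s)
    (htrans : ∀ a b c, le a b → le b c → le a c) (P : S → α → Prop)
    (hup : ∀ s' s b, le s' s → P s' b → P s b) (F : Finset α) :
    ∀ s : S, (∀ s', le s' s → ∃ b ∈ F, P s' b) →
      ∃ s0 b, b ∈ F ∧ le s0 s ∧ ∀ s', le s' s0 → P s' b := by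
  induction F using Finset.induction_on with
  | empty =>
    intro s H
    obtain ⟨b, hb, _⟩ := H s (hrefl s)
    simp at hb
  | insert a F ha ih =>
    intro s H
    by_cases h : ∀ s', le s' s → P s' a
    · exact ⟨s, a, by simp, hrefl s, h⟩
    · push_neg at h
      obtain ⟨s1, hs1, hP⟩ := h
      obtain ⟨s0, b, hb, h0, h1⟩ := ih s1 fun s' hs' => by
        obtain ⟨b, hb, hPb⟩ := H s' (htrans _ _ _ hs' hs1)
        rcases Finset.mem_insert.1 hb with rfl | hb
        · exact absurd (hup _ _ _ hs' hPb) hP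
        · exact ⟨b, hb, hPb⟩
      exact ⟨s0, b, by simp [hb], htrans _ _ _ h0 hs1, h1⟩

/-- Pigeonhole principle with two candidates. -/
theorem ph {S : Type*} (le : S → S → Prop) (hrefl : ∀ s, le s s)
    (htrans : ∀ a b c, le a b → le b c → le a c) (P : S → Bool → Prop)
    (hup : ∀ s' s b, le s' s → P s' b → P s b)
    (s : S) (H : ∀ s', le s' s → ∃ b, P s' b) :
    ∃ s0 b, le s0 s ∧ ∀ s', le s' s0 → P s' b := by
  obtain ⟨s0, b, _, h1, h2⟩ := ph_finset le hrefl htrans P hup Finset.univ s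
    fun s' hs' => by simpa using H s' hs'
  exact ⟨s0, b, h1, h2⟩

/-- Pigeonhole principle with candidates in a finite type. -/
theorem ph_fin {S α : Type*} [Fintype α] [DecidableEq α] (le : S → S → Prop)
    (hrefl : ∀ s, le s s) (htrans : ∀ a b c, le a b → le b c → le a c) (P : S → α → Prop)
    (hup : ∀ s' s b, le s' s → P s' b → P s b)
    (s : S) (H : ∀ s', le s' s → ∃ b, P s' b) :
    ∃ s0 b, le s0 s ∧ ∀ s', le s' s0 → P s' b := by
  obtain ⟨s0, b, _, h1, h2⟩ := ph_finset le hrefl htrans P hup Finset.univ s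
    fun s' hs' => by simpa using H s' hs'
  exact ⟨s0, b, h1, h2⟩

end Pool.Agent.Lib.MP_b4a791_lc
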