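import Pool.Agent.Lib.MP_b4a791_lc.A.ClBit

/-!
# MP_b4a791_lc, Part A: states, their order, sustained constraints
-/

namespace Pool.Agent.Lib.MP_b4a791_lc

variable {f : Col}

/-- Composition of index maps. -/
def hcomp (h' h : ℕ → ℕ → ℕ) : ℕ → ℕ → ℕ := fun j t => h' j (h j t)

/-- Identity of index maps. -/
def hid : ℕ → ℕ → ℕ := fun _ t => t

lemma push_push (h' h : ℕ → ℕ → ℕ) (c : Cons) : push h' (push h c) = push (hcomp h' h) c := by
  funext j t b
  apply propext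
  constructor
  · rintro ⟨t', rfl, t'', rfl, hc⟩
    exact ⟨t'', rfl, hc⟩
  · rintro ⟨t'', rfl, hc⟩
    exact ⟨h j t'', rfl, t'', rfl, hc⟩

lemma push_hid (c : Cons) : push hid c = c := by
  funext j t b
  apply propext
  constructor
  · rintro ⟨t', rfl, hc⟩
    exact hc
  · intro hc
    exact ⟨t, rfl, hc⟩

lemma push_mono {h : ℕ → ℕ → ℕ} {c c' : Cons} (hc : ∀ j t b, c j t b → c' j t b) :
    ∀ j t b, push h c j t b → push h c' j t b := by
  rintro j t b ⟨t', rfl, h1⟩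
  exact ⟨t', rfl, hc _ _ _ h1⟩

lemma push_cup (h : ℕ → ℕ → ℕ) (c c' : Cons) : push h (cup c c') = cup (push h c) (push h c') := by
  funext j t b
  apply propext
  constructor
  · rintro ⟨t', rfl, hc | hc⟩
    · exact Or.inl ⟨t', rfl, hc⟩
    · exact Or.inr ⟨t', rfl, hc⟩
  · rintro (⟨t', rfl, hc⟩ | ⟨t', rfl, hc⟩)
    · exact ⟨t', rfl, Or.inl hc⟩
    · exact ⟨t', rfl, Or.inr hc⟩

lemma push_one (h : ℕ → ℕ → ℕ) (j t : ℕ) (b : Bool) : push h (one j t b) = one j (h j t) b := by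
  funext j' t' b'
  apply propext
  constructor
  · rintro ⟨t'', rfl, rfl, rfl, rfl⟩
    exact ⟨rfl, rfl, rfl⟩
  · rintro ⟨rfl, rfl, rfl⟩
    exact ⟨t, rfl, rfl, rfl, rfl⟩

lemma PLe.refl (s : PS) : PLe hid s s :=
  ⟨le_rfl, fun _ _ => FLe.refl _, fun _ h1 h2 => absurd h2 (not_lt.2 h1), Ext.refl _ _, le_rfl,
    List.prefix_rfl⟩

theorem PLe.trans {h h' : ℕ → ℕ → ℕ} {s s' s'' : PS} (a : PLe h s' s) (b : PLe h' s'' s') :
    PLe (hcomp h' h) s'' s := by
  refine ⟨a.m_le.trans b.m_le, fun j hj => ?_, fun j h1 h2 => ?_, ?_, a.k_le.trans b.k_le,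
    a.row.trans b.row⟩
  · exact (a.fle j hj).trans (b.fle j (hj.trans_le a.m_le))
  · rcases lt_or_ge j s'.m with hlt | hge
    · rw [(b.fle j hlt).1]
      exact a.new j h1 hlt
    · exact a.k_le.trans (b.new j hge h2)
  · exact a.ext.trans (b.ext.mono a.k_le)

/-- A state with extended word, deeper level. -/
theorem AddP.up {s1 s' s'' : PS} {h : ℕ → ℕ → ℕ} {x : ℕ} (a : PLe h s' s1)
    (b : AddP f s' s'' x) : AddP f s1 s'' x := by
  exact ⟨a.ext.len_le.trans b.le, b.lt, b.row.pre a.row, b.res, b.prom⟩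

/-- Sustained constraints are inherited by extensions. -/
theorem Sust.mono {s s' : PS} {c : Cons} {h : ℕ → ℕ → ℕ} (hs : Sust f s c) (a : PLe h s' s) :
    Sust f s' (push h c) := by
  intro t g ht hg
  obtain ⟨s'', h', x, h1, h2, h3, h4⟩ := hs t (hcomp g h) ht (a.trans hg)
  refine ⟨s'', h', x, h1, h2, h3, ?_⟩
  rw [push_push g h]
  exact h4

theorem Sust.sub {s : PS} {c c' : Cons} (hs : Sust f s c) (hc : ∀ j t b, c' j t b → c j t b) :
    Sust f s c' := by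
  intro t g ht hg
  obtain ⟨s'', h', x, h1, h2, h3, h4⟩ := hs t g ht hg
  refine ⟨s'', h', x, h1, h2, h3, fun j t b hj => h4 j t b ?_⟩
  exact push_mono (push_mono hc) _ _ _ hj

/-- A new point can always be added: `Rec`, `Rec.extend`, `Cl.extend`. -/
theorem exists_add (hf : MD f) {s : PS} (hs : Good f s) :
    ∃ s' x, Good f s' ∧ PLe hid s' s ∧ AddP f s s' x := by
  obtain ⟨W1, z, e1, z1, z2, r1⟩ := hs.rec_ s.W (Ext.refl _ _)
  have e1' : Ext s.k s.W W1 := e1.mono hs.k_le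
  have hk1 : s.k ≤ dep W1 := e1'.dep_le hs.k_le
  obtain ⟨W2, r', e2, rr, hr, hl, hlen⟩ :=
    (hs.rec_.mono e1' hk1 : Rec f W1 (dep W1) s.r).extend hf W1.length le_rfl
  have e2' : Ext s.k s.W W2 := e1'.trans (e2.mono hk1)
  have hk2 : s.k ≤ dep W2 := e2'.dep_le hs.k_le
  have hlen' : r'.length ≤ W2.length := by
    rcases hlen with h | h
    · exact h
    · rw [h]
      exact hs.len.trans e2'.len_le
  have hc2 : Cl f s.Φ s.m W2 (dep W2) := hs.cl.mono e2' hk2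
  obtain ⟨W3, Φ', e3, hc3, hlv, hle⟩ := hc2.extend hf hs.lvl_mono
    (fun i hi => (hs.lvl_le i hi).trans hk2) le_rfl W1.length e2.len_le
  have e3' : Ext s.k s.W W3 := e2'.trans (e3.mono hk2)
  refine ⟨⟨s.m, Φ', W3, dep W2, r'⟩, z, ?_, ?_, ?_⟩
  · refine ⟨e3.dep_le le_rfl, fun i j hij hj => ?_, fun j hj => ?_, rr.mono e3 le_rfl, hc3,
      hlen'.trans e3.len_le⟩
    · rw [(hlv i (hij.trans_lt hj)).1, (hlv j hj).1]
      exact hs.lvl_mono i j hij hj
    · show (Φ' j).lvl ≤ dep W2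
      rw [(hlv j hj).1]
      exact (hs.lvl_le j hj).trans hk2
  · refine ⟨le_rfl, fun j hj => ⟨(hlv j hj).1, fun t ht => ⟨?_, (hle j hj t ht).1⟩⟩,
      fun j h1 h2 => absurd h2 (not_lt.2 h1), e3', hk2, hr⟩
    show t < (Φ' j).n
    rw [(hlv j hj).2]
    exact ht
  · refine ⟨z1, z2.trans_le (e2.len_le.trans e3.len_le),
      r1.mono hf (e2.pfx.trans e3.pfx), z2.trans_le hl, fun j hj t ht => ?_⟩
    have ht' : t < (s.Φ j).n := by
      rw [← (hlv j hj).2]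
      exact ht
    exact z2.trans_le (hle j hj t ht').2

/-- The empty constraint is sustained at every state. -/
theorem Sust.empty (hf : MD f) (s : PS) : Sust f s (fun _ _ _ => False) := by
  intro s' h hs' _
  obtain ⟨s'', x, h1, h2, h3⟩ := exists_add hf hs'
  refine ⟨s'', hid, x, h1, h2, h3, ?_⟩
  rintro j t b ⟨_, _, _, _, hF⟩
  exact hF.elim

/-- One more target (pigeonhole `ph` on pairs (state, map)). -/
theorem Sust.bit {s : PS} (hs : Good f s) {c : Cons} (hc : Sust f s c) {j t : ℕ} (hj : j < s.m)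
    (ht : t < (s.Φ j).n) :
    ∃ s' h b, Good f s' ∧ PLe h s' s ∧ Sust f s' (push h (cup c (one j t b))) := by
  have key := ph (S := {p : PS × (ℕ → ℕ → ℕ) // Good f p.1 ∧ PLe p.2 p.1 s})
    (fun p' p => ∃ g, PLe g p'.1.1 p.1.1 ∧ p'.1.2 = hcomp g p.1.2)
    (fun p => ⟨hid, PLe.refl _, rfl⟩)
    (fun a b c ⟨g, h1, h2⟩ ⟨g', h3, h4⟩ => ⟨hcomp g g', h3.trans h1, by rw [h2, h4]; rfl⟩)
    (fun p b => ∃ s'' h' x, Good f s'' ∧ PLe h' s'' p.1.1 ∧ AddP f p.1.1 s'' x ∧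
      Sat s''.Φ x (push h' (push p.1.2 (cup c (one j t b)))))
    (fun p' p b ⟨g, hg1, hg2⟩ ⟨s'', h', x, h1, h2, h3, h4⟩ =>
      ⟨s'', hcomp h' g, x, h1, hg1.trans h2, h3.up hg1, by
        rw [hg2, ← push_push g p.1.2, push_push h' g] at h4
        exact h4⟩)
    ⟨(s, hid), hs, PLe.refl s⟩ ?_
  · obtain ⟨⟨⟨s0, h0⟩, hg0, hl0⟩, b, -, h2⟩ := key
    refine ⟨s0, h0, b, hg0, hl0, ?_⟩
    intro s' g hs' hg
    obtain ⟨s'', h', x, h3, h4, h5, h6⟩ := h2 ⟨(s', hcomp g h0), hs', hl0.trans hg⟩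
      ⟨g, hg, rfl⟩
    refine ⟨s'', h', x, h3, h4, h5, ?_⟩
    rw [push_push g h0]
    exact h6
  · rintro ⟨⟨s', h⟩, hg', hl'⟩ -
    obtain ⟨s'', h', x, h3, h4, h5, h6⟩ := hc s' h hg' hl'
    have hj' : j < s'.m := hj.trans_le hl'.m_le
    have ht' : h j t < (s'.Φ j).n := ((hl'.fle j hj).2 t ht).1
    have ht'' : h' j (h j t) < (s''.Φ j).n := ((h4.fle j hj').2 _ ht').1
    have hx := h5.prom j (hj'.trans_le h4.m_le) _ ht''
    refine ⟨(((s''.Φ j).tg (h' j (h j t))).row[x]), s'', h', x, h3, h4, h5, ?_⟩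
    show Sat s''.Φ x (push h' (push h (cup c (one j t _))))
    rw [push_cup, push_cup, push_one, push_one]
    rintro j' t' b' (hb | ⟨rfl, rfl, rfl⟩)
    · exact h6 _ _ _ hb
    · exact List.getElem?_eq_getElem hx

/-- All targets of the frame `j` get a sustained label. -/
theorem Sust.bits {s : PS} (hs : Good f s) {c : Cons} (hc : Sust f s c) {j : ℕ} (hj : j < s.m)
    (n : ℕ) (hn : n ≤ (s.Φ j).n) :
    ∃ s' h, ∃ e : ℕ → Bool, Good f s' ∧ PLe h s' s ∧
      Sust f s' (push h (cup c (fun j' t b => j' = j ∧ t < n ∧ b = e t))) := by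
  induction n with
  | zero =>
    refine ⟨s, hid, fun _ => false, hs, PLe.refl s, ?_⟩
    rw [push_hid]
    refine hc.sub ?_
    rintro j' t b (h | ⟨_, h, _⟩)
    · exact h
    · exact absurd h (Nat.not_lt_zero _)
  | succ n ih =>
    obtain ⟨s1, h1, e, hg1, hl1, hS1⟩ := ih (by omega)
    have hj1 : j < s1.m := hj.trans_le hl1.m_le
    have ht1 : h1 j n < (s1.Φ j).n := ((hl1.fle j hj).2 n (by omega)).1
    obtain ⟨s2, h2, b, hg2, hl2, hS2⟩ := hS1.bit hg1 hj1 ht1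
    refine ⟨s2, hcomp h2 h1, fun t => if t = n then b else e t, hg2, hl1.trans hl2, ?_⟩
    rw [← push_one h1, ← push_cup, push_push] at hS2
    refine hS2.sub (push_mono ?_)
    rintro j' t b' (h | ⟨rfl, h, rfl⟩)
    · exact Or.inl (Or.inl h)
    · by_cases htn : t = n
      · subst htn
        exact Or.inr ⟨rfl, rfl, if_pos rfl⟩
      · exact Or.inl (Or.inr ⟨rfl, by omega, if_neg htn⟩)

end Pool.Agent.Lib.MP_b4a791_lc
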