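import Mathlib

/-! Ramsey's theorem for triples out of pairs, four colors. -/

namespace Pool.Agent.Lib.MP_b4a791_lc

private theorem Ram_aux (n : ℕ) : ∃ K : ℕ, ∀ (col : ℕ → ℕ → Bool × Bool) (A : Finset (Bool × Bool))
    (S : Finset ℕ), A.card ≤ n → K < S.card → (∀ x ∈ S, ∀ y ∈ S, x < y → col x y ∈ A) →
    ∃ x ∈ S, ∃ y ∈ S, ∃ z ∈ S, x < y ∧ y < z ∧ col x z = col x y ∧ col y z = col x y := by
  induction n with
  | zero =>
    refine ⟨1, fun col A S hA hS h => ?_⟩
    obtain ⟨x, hx, y, hy, hxy⟩ := Finset.one_lt_card.1 hS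
    have hA0 : A = ∅ := Finset.card_eq_zero.1 (Nat.le_zero.1 hA)
    rcases lt_or_gt_of_ne hxy with h1 | h1
    · exact absurd (h x hx y hy h1) (by simp [hA0])
    · exact absurd (h y hy x hx h1) (by simp [hA0])
  | succ n ih =>
    obtain ⟨K, hK⟩ := ih
    refine ⟨(n + 1) * K + 1, fun col A S hA hS h => ?_⟩
    have hne : S.Nonempty := Finset.card_pos.1 (by omega)
    have hx := S.min'_mem hne
    set x := S.min' hne
    have hmin : ∀ y ∈ S.erase x, x < y := fun y hy =>
      lt_of_le_of_ne (S.min'_le y (Finset.mem_of_mem_erase hy)) (Finset.ne_of_mem_erase hy).symm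
    have hcard : (S.erase x).card = S.card - 1 := Finset.card_erase_of_mem hx
    have hmul : A.card * K ≤ (n + 1) * K := Nat.mul_le_mul_right K hA
    obtain ⟨a, ha, hak⟩ := Finset.exists_lt_card_fiber_of_mul_lt_card_of_maps_to
      (s := S.erase x) (t := A) (f := fun y => col x y) (n := K)
      (fun y hy => h x hx y (Finset.mem_of_mem_erase hy) (hmin y hy)) (by rw [hcard]; omega)
    by_cases hc : ∃ y ∈ (S.erase x).filter (fun y => col x y = a),
        ∃ z ∈ (S.erase x).filter (fun y => col x y = a), y < z ∧ col y z = a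
    · obtain ⟨y, hy, z, hz, hyz, hcol⟩ := hc
      rw [Finset.mem_filter] at hy hz
      refine ⟨x, hx, y, Finset.mem_of_mem_erase hy.1, z, Finset.mem_of_mem_erase hz.1,
        hmin y hy.1, hyz, ?_, ?_⟩
      · rw [hy.2, hz.2]
      · rw [hcol, hy.2]
    · push Not at hc
      have hA' : (A.erase a).card ≤ n := by
        rw [Finset.card_erase_of_mem ha]
        omega
      obtain ⟨u, hu, v, hv, w, hw, h1, h2, h3, h4⟩ := hK col (A.erase a)
        ((S.erase x).filter (fun y => col x y = a)) hA' hak (fun y hy z hz hyz => by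
          refine Finset.mem_erase.2 ⟨hc y hy z hz hyz, ?_⟩
          rw [Finset.mem_filter] at hy hz
          exact h y (Finset.mem_of_mem_erase hy.1) z (Finset.mem_of_mem_erase hz.1) hyz)
      rw [Finset.mem_filter] at hu hv hw
      exact ⟨u, Finset.mem_of_mem_erase hu.1, v, Finset.mem_of_mem_erase hv.1, w,
        Finset.mem_of_mem_erase hw.1, h1, h2, h3, h4⟩

theorem ramsey3 : ∃ K : ℕ, ∀ col : ℕ → ℕ → Bool × Bool, ∃ x y z, x < y ∧ y < z ∧ z < K ∧
    col x z = col x y ∧ col y z = col x y := by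
  obtain ⟨K, hK⟩ := Ram_aux 4
  refine ⟨K + 1, fun col => ?_⟩
  obtain ⟨x, _, y, _, z, hz, h1, h2, h3, h4⟩ := hK col Finset.univ (Finset.range (K + 1))
    (by decide) (by rw [Finset.card_range]; omega) (fun _ _ _ _ _ => Finset.mem_univ _)
  exact ⟨x, y, z, h1, h2, Finset.mem_range.1 hz, h3, h4⟩

end Pool.Agent.Lib.MP_b4a791_lc
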