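import Pool.Agent.Lib.MP_b4a791_lc.A.Words
import Pool.Agent.Lib.MP_b4a791_lc.A.PH

/-!
# MP_b4a791_lc, Part A: recurrent rows
-/

namespace Pool.Agent.Lib.MP_b4a791_lc

variable {f : Col}

lemma RowAt.mono (hf : MD f) {W W' : Word} {r : List Bool} {z : ℕ} (hW : W <+: W')
    (h : RowAt f W r z) : RowAt f W' r z :=
  fun i b hi => hf.mono W W' hW _ _ _ (h i b hi)

lemma RowAt.pre {W : Word} {r r' : List Bool} {z : ℕ} (hr : r <+: r')
    (h : RowAt f W r' z) : RowAt f W r z := by
  intro i b hi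
  obtain ⟨t, rfl⟩ := hr
  refine h i b ?_
  rw [List.getElem?_append_left]
  · exact hi
  · exact (List.getElem?_eq_some_iff.1 hi).1

lemma Rec.mono {W W' : Word} {k k' : ℕ} {r : List Bool} (h : Rec f W k r)
    (hW : Ext k W W') (hk : k ≤ k') : Rec f W' k' r :=
  fun V hV => h V (hW.trans (hV.mono hk))

lemma Rec.pre {W : Word} {k : ℕ} {r r' : List Bool} (hr : r <+: r') (h : Rec f W k r') :
    Rec f W k r := by
  intro V hV
  obtain ⟨V', z, h1, h2, h3, h4⟩ := h V hV
  exact ⟨V', z, h1, h2, h3, h4.pre hr⟩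

lemma Rec.nil (W : Word) (k : ℕ) : Rec f W k [] := by
  intro V _
  refine ⟨V ++ [(dep V, 0)], V.length, Ext.snoc V le_rfl, le_rfl, by simp, ?_⟩
  intro i b hi
  simp at hi

/-- One more bit of a recurrent row, after going to a deeper node. -/
theorem Rec.bit (hf : MD f) {W : Word} {r : List Bool} (h : Rec f W (dep W) r)
    (hr : r.length < W.length) :
    ∃ W' b, Ext (dep W) W W' ∧ Rec f W' (dep W') (r ++ [b]) := by
  have key := ph (S := {V : Word // Ext (dep W) W V})
    (fun V' V => Ext (dep V.1) V.1 V'.1) (fun V => Ext.refl _ _)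
    (fun a b c h1 h2 => h2.trans (h1.mono (h2.dep_le le_rfl)))
    (fun V b => ∃ V' z, Ext (dep V.1) V.1 V' ∧ V.1.length ≤ z ∧ z < V'.length ∧
      RowAt f V' (r ++ [b]) z)
    (fun V' V b h1 ⟨X, z, h2, h3, h4, h5⟩ =>
      ⟨X, z, h1.trans (h2.mono (h1.dep_le le_rfl)), h1.len_le.trans h3, h4, h5⟩)
    ⟨W, Ext.refl _ _⟩ ?_
  · obtain ⟨⟨W0, hW0⟩, b, h1, h2⟩ := key
    refine ⟨W0, b, hW0, fun V hV => ?_⟩
    exact h2 ⟨V, hW0.trans (hV.mono (hW0.dep_le le_rfl))⟩ hV
  · rintro ⟨V, hV⟩ -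
    obtain ⟨V', z, h1, h2, h3, h4⟩ := h V hV
    obtain ⟨V'', b, h5, h6⟩ := hf.dense V' r.length z
      (lt_of_lt_of_le hr (hV.len_le.trans h2)) h3
    refine ⟨b, V'', z, h1.trans (h5.mono (h1.dep_le le_rfl)), h2, h3.trans_le h5.len_le, ?_⟩
    intro i c hi
    rcases lt_or_ge i r.length with hlt | hge
    · rw [List.getElem?_append_left hlt] at hi
      exact hf.mono _ _ h5.pfx _ _ _ (h4 i c hi)
    · rw [List.getElem?_append_right hge] at hi
      have h0 : i - r.length = 0 := by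
        by_contra hne
        rw [List.getElem?_eq_none (by simp; omega)] at hi
        simp at hi
      have h0' : i = r.length := by omega
      subst h0'
      simp at hi
      subst hi
      exact h6

/-- A recurrent row can be extended to any length at most the number of points. -/
theorem Rec.extend (hf : MD f) {W : Word} {r : List Bool} (h : Rec f W (dep W) r)
    (N : ℕ) (hN : N ≤ W.length) :
    ∃ W' r', Ext (dep W) W W' ∧ Rec f W' (dep W') r' ∧ r <+: r' ∧ N ≤ r'.length ∧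
      (r'.length ≤ W'.length ∨ r' = r) := by
  induction N with
  | zero => exact ⟨W, r, Ext.refl _ _, h, List.prefix_rfl, by simp, Or.inr rfl⟩
  | succ N ih =>
    obtain ⟨W1, r1, h1, h2, h3, h4, h5⟩ := ih (by omega)
    rcases Nat.lt_or_ge N r1.length with hlt | hge
    · exact ⟨W1, r1, h1, h2, h3, hlt, h5⟩
    · obtain ⟨W2, b, h6, h7⟩ := h2.bit hf (lt_of_le_of_lt hge (lt_of_lt_of_le (by omega) h1.len_le))
      refine ⟨W2, r1 ++ [b], h1.trans (h6.mono (h1.dep_le le_rfl)), h7,
        h3.trans (List.prefix_append _ _), by simp; omega, Or.inl ?_⟩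
      have := h1.len_le
      have := h6.len_le
      simp
      omega

end Pool.Agent.Lib.MP_b4a791_lc
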