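import Pool.Agent.Lib.MP_b4a791_lc.A.FullL
import Pool.Agent.Lib.MP_b4a791_lc.A.Ram

/-!
# MP_b4a791_lc, Part A: types of homogeneous triples
-/

namespace Pool.Agent.Lib.MP_b4a791_lc

variable {f : Col}

/-- Add `K` consecutive subintervals of the target `g` as new targets `N.n, …, N.n + K - 1`. -/
def split (N : NS) (g K : ℕ) : NS :=
  ⟨N.m, N.Φ, N.W, N.k, N.r, N.n + K,
    fun t => if t < N.n then N.tg t else
      ⟨(N.tg g).lo + ((N.tg g).hi - (N.tg g).lo) * (((t - N.n : ℕ) : ℚ) / K),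
        (N.tg g).lo + ((N.tg g).hi - (N.tg g).lo) * (((t - N.n : ℕ) + 1 : ℚ) / K),
        (N.tg g).row⟩⟩

theorem split_good {N : NS} (hN : NGood f N) {g : ℕ} (hg : g < N.n) (K : ℕ) :
    NGood f (split N g K) ∧
      NLe hid (fun t => if t < N.n then t else g) (split N g K) N := by
  have hlt : ∀ t, t < N.n → (split N g K).tg t = N.tg t := fun t ht => if_pos ht
  have hge : ∀ t, ¬ t < N.n → (split N g K).tg t =
      ⟨(N.tg g).lo + ((N.tg g).hi - (N.tg g).lo) * (((t - N.n : ℕ) : ℚ) / K),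
        (N.tg g).lo + ((N.tg g).hi - (N.tg g).lo) * (((t - N.n : ℕ) + 1 : ℚ) / K),
        (N.tg g).row⟩ := fun t ht => if_neg ht
  have hd : 0 < (N.tg g).hi - (N.tg g).lo := sub_pos.2 (hN.ne g hg)
  have hle : ∀ t, ¬ t < N.n → t < N.n + K → Tgt.Le ((split N g K).tg t) (N.tg g) := by
    intro t h1 h2
    rw [hge t h1]
    have hK : (0 : ℚ) < K := by
      have : 0 < K := by omega
      exact_mod_cast this
    have h3 : (((t - N.n : ℕ) + 1 : ℚ) / K) ≤ 1 := by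
      rw [div_le_one hK]
      have : (t - N.n) + 1 ≤ K := by omega
      exact_mod_cast this
    have h4 : 0 ≤ (((t - N.n : ℕ) : ℚ) / K) := by positivity
    refine ⟨?_, ?_, List.prefix_rfl⟩
    · show (N.tg g).lo ≤ (N.tg g).lo + ((N.tg g).hi - (N.tg g).lo) * (((t - N.n : ℕ) : ℚ) / K)
      have := mul_nonneg hd.le h4
      linarith
    · show (N.tg g).lo + ((N.tg g).hi - (N.tg g).lo) * (((t - N.n : ℕ) + 1 : ℚ) / K) ≤
        (N.tg g).hi
      have := mul_le_mul_of_nonneg_left h3 hd.le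
      linarith
  refine ⟨⟨hN.good, fun t ht => ?_, fun t ht => ?_, fun t ht => ?_, fun t ht => ?_⟩,
    ⟨rfl, rfl, rfl, fun _ _ => FLe.refl _, Ext.refl _ _, fun t ht => ?_, fun t ht => ?_⟩⟩
  · by_cases h : t < N.n
    · rw [hlt t h]
      exact hN.ne t h
    · rw [hge t h]
      have hK : (0 : ℚ) < K := by
        have h2 : t < N.n + K := ht
        have : 0 < K := by omega
        exact_mod_cast this
      show (N.tg g).lo + ((N.tg g).hi - (N.tg g).lo) * (((t - N.n : ℕ) : ℚ) / K) <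
        (N.tg g).lo + ((N.tg g).hi - (N.tg g).lo) * (((t - N.n : ℕ) + 1 : ℚ) / K)
      have h3 : (((t - N.n : ℕ) : ℚ) / K) < (((t - N.n : ℕ) + 1 : ℚ) / K) :=
        div_lt_div_of_pos_right (by linarith) hK
      have := mul_lt_mul_of_pos_left h3 hd
      linarith
  · by_cases h : t < N.n
    · rw [hlt t h]
      exact hN.ht t h
    · have h5 := hle t h ht
      refine (hN.ht g hg).mono (Ext.refl _ _) h5.lo h5.hi ?_
      rw [hge t h]
  · by_cases h : t < N.n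
    · rw [hlt t h]
      exact hN.row t h
    · rw [hge t h]
      exact hN.row g hg
  · by_cases h : t < N.n
    · rw [hlt t h]
      exact hN.len t h
    · rw [hge t h]
      exact hN.len g hg
  · by_cases h : t < N.n
    · rw [hlt t h, if_pos h]
      exact ⟨h, Tgt.Le.refl _⟩
    · rw [if_neg h]
      exact ⟨hg, hle t h ht⟩
  · exact ⟨t, Nat.lt_add_right K ht, if_pos ht⟩

theorem split_lt (N : NS) (g K : ℕ) {x y : ℕ} (hx : N.n ≤ x) (hxy : x < y) (hy : y < N.n + K)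
    (hne : (N.tg g).lo < (N.tg g).hi) :
    ((split N g K).tg x).hi ≤ ((split N g K).tg y).lo := by
  have hx' : ¬ x < N.n := not_lt.2 hx
  have hy' : ¬ y < N.n := not_lt.2 (hx.trans hxy.le)
  have e1 : (split N g K).tg x = ⟨(N.tg g).lo + ((N.tg g).hi - (N.tg g).lo) *
        (((x - N.n : ℕ) : ℚ) / K),
        (N.tg g).lo + ((N.tg g).hi - (N.tg g).lo) * (((x - N.n : ℕ) + 1 : ℚ) / K),
        (N.tg g).row⟩ := if_neg hx'
  have e2 : (split N g K).tg y = ⟨(N.tg g).lo + ((N.tg g).hi - (N.tg g).lo) *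
        (((y - N.n : ℕ) : ℚ) / K),
        (N.tg g).lo + ((N.tg g).hi - (N.tg g).lo) * (((y - N.n : ℕ) + 1 : ℚ) / K),
        (N.tg g).row⟩ := if_neg hy'
  rw [e1, e2]
  show (N.tg g).lo + ((N.tg g).hi - (N.tg g).lo) * (((x - N.n : ℕ) + 1 : ℚ) / K) ≤
    (N.tg g).lo + ((N.tg g).hi - (N.tg g).lo) * (((y - N.n : ℕ) : ℚ) / K)
  have hd : 0 < (N.tg g).hi - (N.tg g).lo := sub_pos.2 hne
  have h1 : ((x - N.n : ℕ) + 1 : ℚ) ≤ ((y - N.n : ℕ) : ℚ) := by
    have : (x - N.n) + 1 ≤ y - N.n := by omega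
    exact_mod_cast this
  have h2 : (((x - N.n : ℕ) + 1 : ℚ) / K) ≤ (((y - N.n : ℕ) : ℚ) / K) :=
    div_le_div_of_nonneg_right h1 (by positivity)
  have := mul_le_mul_of_nonneg_left h2 hd.le
  linarith

lemma Compat.trans {κ κ' : ℕ → ℕ} {n n' : ℕ} {C C' C'' : ℕ → ℕ → Bool}
    (h : Compat κ n C' C) (h' : Compat κ' n' C'' C') (hκ : ∀ t < n', κ' t < n) :
    Compat (κ ∘ κ') n' C'' C := by
  intro a ha b hb hne
  have h1 : κ' a ≠ κ' b := fun h2 => hne (by simp [h2])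
  rw [h' a ha b hb h1, h _ (hκ a ha) _ (hκ b hb) hne]
  rfl

/-- Some type occurs (split the target, full matrix, Ramsey). -/
theorem exists_ty (hf : MD f) {N : NS} {c : Cons} {C : ℕ → ℕ → Bool} (hN : NGood f N)
    (hcd : CDom c N.m) (hF : Full f N c C) {g : ℕ} (hg : g < N.n) : ∃ ψ, Ty f N c C g ψ := by
  obtain ⟨K, hK⟩ := ramsey3
  obtain ⟨hN1, hle1⟩ := split_good hN hg K
  have hU := UE.inherit hF hN1 hle1
  have hcd1 : CDom (push hid c) (split N g K).m := by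
    rw [push_hid]
    exact hcd
  obtain ⟨N', h, C', hN', hle', hn, hF', hC'⟩ := exists_full hf hN1 hcd1 hU
  obtain ⟨x, y, z, hxy, hyz, hz, c1, c2⟩ := hK fun i j =>
    (C' (N.n + i) (N.n + j), C' (N.n + j) (N.n + i))
  rw [Prod.mk.injEq] at c1 c2
  have hn' : N'.n = N.n + K := hn
  have hκ : ∀ i, (fun t => if t < N.n then t else g) (N.n + i) = g := fun i =>
    if_neg (by omega)
  have hord : ∀ i j, i < j → j < K → (N'.tg (N.n + i)).hi ≤ (N'.tg (N.n + j)).lo := by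
    intro i j hij hj
    have h1 := (hle'.map (N.n + i) (by rw [hn']; omega)).2.hi
    have h2 := (hle'.map (N.n + j) (by rw [hn']; omega)).2.lo
    exact h1.trans ((split_lt N g K (x := N.n + i) (y := N.n + j) (by omega) (by omega)
      (by omega) (hN.ne g hg)).trans h2)
  refine ⟨fun b => if b then C' (N.n + x) (N.n + y) else C' (N.n + y) (N.n + x), N',
    hcomp h hid, (fun t => if t < N.n then t else g) ∘ id, C', N.n + x, N.n + y, N.n + z, hN',
    hle1.trans hle', ?_, ?_, ⟨by omega, by omega, by omega, hord x y hxy (by omega),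
      hord y z hyz hz, rfl, c1.1, c2.1, rfl, c1.2, c2.2⟩, hκ x, hκ y, hκ z⟩
  · rw [← push_push]
    exact hF'
  · intro a _ b _ hne
    exact hC' a b hne

theorem Ty.up {N N' : NS} {c : Cons} {C C' : ℕ → ℕ → Bool} {h : ℕ → ℕ → ℕ} {κ : ℕ → ℕ}
    (hle : NLe h κ N' N) (hC : Compat κ N'.n C' C) {g' : ℕ} {ψ : Bool → Bool}
    (ht : Ty f N' (push h c) C' g' ψ) : Ty f N c C (κ g') ψ := by
  obtain ⟨N2, h2, κ2, C2, x, y, z, g1, g2, g3, g4, g5, g6, g7, g8⟩ := ht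
  rw [push_push] at g3
  exact ⟨N2, hcomp h2 h, κ ∘ κ2, C2, x, y, z, g1, hle.trans g2, g3,
    hC.trans g4 fun t ht => (g2.map t ht).1, g5, by rw [Function.comp_apply, g6],
    by rw [Function.comp_apply, g7], by rw [Function.comp_apply, g8]⟩

theorem Hom.inherit {N N' : NS} {c : Cons} {C C' : ℕ → ℕ → Bool} {h : ℕ → ℕ → ℕ} {κ : ℕ → ℕ}
    (hle : NLe h κ N' N) (hC : Compat κ N'.n C' C) {g' : ℕ} {ψ : Bool → Bool}
    (ht : Hom f N c C (κ g') ψ) : Hom f N' (push h c) C' g' ψ := by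
  intro N2 h2 κ2 C2 g2 hN2 hle2 hF2 hC2 hg2 hκ2
  rw [push_push] at hF2 ⊢
  exact ht N2 (hcomp h2 h) (κ ∘ κ2) C2 g2 hN2 (hle.trans hle2) hF2
    (hC.trans hC2 fun t ht => (hle2.map t ht).1) hg2 (by rw [Function.comp_apply, hκ2])

/-- A hereditary type exists after a refinement (`ph_fin` with the four types). -/
theorem exists_hom (hf : MD f) {N : NS} {c : Cons} {C : ℕ → ℕ → Bool} (hN : NGood f N)
    (hcd : CDom c N.m) (hF : Full f N c C) {g : ℕ} (hg : g < N.n) :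
    ∃ N' h κ C' g' ψ, NGood f N' ∧ NLe h κ N' N ∧ Full f N' (push h c) C' ∧
      Compat κ N'.n C' C ∧ g' < N'.n ∧ κ g' = g ∧ Hom f N' (push h c) C' g' ψ := by
  have hcdp : ∀ h : ℕ → ℕ → ℕ, CDom (push h c) N.m := by
    rintro h j t b ⟨t', -, h1⟩
    exact hcd _ _ _ h1
  have key := ph_fin (α := Bool → Bool)
    (S := {p : NS × (ℕ → ℕ → ℕ) × (ℕ → ℕ) × (ℕ → ℕ → Bool) × ℕ // NGood f p.1 ∧
      NLe p.2.1 p.2.2.1 p.1 N ∧ Full f p.1 (push p.2.1 c) p.2.2.2.1 ∧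
      Compat p.2.2.1 p.1.n p.2.2.2.1 C ∧ p.2.2.2.2 < p.1.n ∧ p.2.2.1 p.2.2.2.2 = g})
    (fun p' p => ∃ h κ, NLe h κ p'.1.1 p.1.1 ∧
      Compat κ p'.1.1.n p'.1.2.2.2.1 p.1.2.2.2.1 ∧ κ p'.1.2.2.2.2 = p.1.2.2.2.2 ∧
      p'.1.2.1 = hcomp h p.1.2.1)
    (fun p => ⟨hid, id, NLe.refl _, fun _ _ _ _ _ => rfl, rfl, rfl⟩)
    (fun p q r ⟨h1, κ1, a1, a2, a3, a4⟩ ⟨h2, κ2, b1, b2, b3, b4⟩ =>
      ⟨hcomp h1 h2, κ2 ∘ κ1, b1.trans a1, b2.trans a2 fun t ht => (a1.map t ht).1,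
        by rw [Function.comp_apply, a3, b3], by rw [a4, b4]; rfl⟩)
    (fun p ψ => Ty f p.1.1 (push p.1.2.1 c) p.1.2.2.2.1 p.1.2.2.2.2 ψ)
    (fun p' p ψ ⟨h1, κ1, a1, a2, a3, a4⟩ ht => by
      rw [a4, ← push_push] at ht
      have := Ty.up a1 a2 ht
      rw [a3] at this
      exact this)
    ⟨(N, hid, id, C, g), hN, NLe.refl N, by rw [push_hid]; exact hF,
      fun _ _ _ _ _ => rfl, hg, rfl⟩
    (fun p' _ => by
      obtain ⟨⟨N', h, κ, C', g'⟩, h1, h2, h3, h4, h5, h6⟩ := p'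
      have hcd' : CDom (push h c) N'.m := by
        have := h2.m_eq
        simp only at this
        rw [this]
        exact hcdp h
      exact exists_ty hf h1 hcd' h3 h5)
  obtain ⟨⟨⟨N', h, κ, C', g'⟩, h1, h2, h3, h4, h5, h6⟩, ψ, -, hψ⟩ := key
  refine ⟨N', h, κ, C', g', ψ, h1, h2, h3, h4, h5, h6, ?_⟩
  intro N2 h2' κ2 C2 g2 hN2 hle2 hF2 hC2 hg2 hκ2
  have hF2' : Full f N2 (push (hcomp h2' h) c) C2 := by
    rw [← push_push]
    exact hF2
  have := hψ ⟨(N2, hcomp h2' h, κ ∘ κ2, C2, g2), hN2, h2.trans hle2, hF2',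
    h4.trans hC2 fun t ht => (hle2.map t ht).1, hg2, by
      show κ (κ2 g2) = g
      rw [hκ2]
      exact h6⟩ ⟨h2', κ2, hle2, hC2, hκ2, rfl⟩
  rw [push_push]
  exact this

end Pool.Agent.Lib.MP_b4a791_lc
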