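import Pool.Agent.Lib.MP_b4a791_lc.A.NSL

/-!
# MP_b4a791_lc, Part A: the trap argument (Lemma U1 of the paper proof)
-/

namespace Pool.Agent.Lib.MP_b4a791_lc

variable {f : Col}

/-- Add the pair `(i, j)` to a relation. -/
def addE (E : ℕ → ℕ → Prop) (i j : ℕ) : ℕ → ℕ → Prop := fun a b => E a b ∨ (a = i ∧ b = j)

/-- Change the matrix at `(i, j)`. -/
def updC (C : ℕ → ℕ → Bool) (i j : ℕ) (v : Bool) : ℕ → ℕ → Bool :=
  fun a b => if a = i ∧ b = j then v else C a b

/-- Replace the targets `i` and `j` of `N` by the targets `a` and `d` of the refinement `N'`;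
the word and the outer frames are those of `N'`. -/
def repl (N N' : NS) (i j a d : ℕ) : NS :=
  ⟨N.m, N'.Φ, N'.W, N.k, N.r, N.n,
    fun t => if t = i then N'.tg a else if t = j then N'.tg d else N.tg t⟩

theorem repl_good {N N' : NS} {h : ℕ → ℕ → ℕ} {κ : ℕ → ℕ} (hN : NGood f N) (hN' : NGood f N')
    (hle : NLe h κ N' N) {i j a d : ℕ} (hij : i ≠ j) (hi : i < N.n) (hj : j < N.n)
    (ha : a < N'.n) (hd : d < N'.n) (hκa : κ a = i) (hκd : κ d = j) :
    NGood f (repl N N' i j a d) ∧ NLe h id (repl N N' i j a d) N := by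
  have _ := hij
  have _ := hi
  have _ := hj
  have hm := hle.m_eq
  have hk := hle.k_eq
  have hr := hle.r_eq
  have hps : (repl N N' i j a d).toPS = N'.toPS := by
    unfold repl NS.toPS
    simp only
    rw [hm, hk, hr]
  have hcase : ∀ (P : Tgt → Prop), P (N'.tg a) → P (N'.tg d) → ∀ t, P (N.tg t) →
      P ((repl N N' i j a d).tg t) := by
    intro P h1 h2 t h3
    change P (if t = i then N'.tg a else if t = j then N'.tg d else N.tg t)
    split_ifs
    · exact h1
    · exact h2
    · exact h3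
  refine ⟨⟨by rw [hps]; exact hN'.good, ?_, ?_, ?_, ?_⟩,
    ⟨rfl, rfl, rfl, hle.fle, hle.ext, ?_, fun t ht => ⟨t, ht, rfl⟩⟩⟩
  · intro t ht
    exact hcase (fun T => T.lo < T.hi) (hN'.ne a ha) (hN'.ne d hd) t (hN.ne t ht)
  · intro t ht
    refine hcase (fun T => HT f N'.W N.k T) ?_ ?_ t ?_
    · rw [← hk]
      exact hN'.ht a ha
    · rw [← hk]
      exact hN'.ht d hd
    · exact (hN.ht t ht).mono hle.ext le_rfl le_rfl List.prefix_rfl
  · intro t ht
    refine hcase (fun T => N.r <+: T.row) ?_ ?_ t (hN.row t ht)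
    · rw [← hr]
      exact hN'.row a ha
    · rw [← hr]
      exact hN'.row d hd
  · intro t ht
    exact hcase (fun T => T.row.length ≤ N'.W.length) (hN'.len a ha) (hN'.len d hd) t
      ((hN.len t ht).trans hle.ext.len_le)
  · intro t ht
    refine ⟨ht, ?_⟩
    change Tgt.Le (if t = i then N'.tg a else if t = j then N'.tg d else N.tg t) (N.tg t)
    split_ifs with h1 h2
    · rw [h1, ← hκa]
      exact (hle.map a ha).2
    · rw [h2, ← hκd]
      exact (hle.map d hd).2
    · exact Tgt.Le.refl _

/-- Disjoint union of the targets of `N'` (at the later word of `N1`) and of `N1`. -/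
def uni (N' N1 : NS) : NS :=
  ⟨N1.m, N1.Φ, N1.W, N1.k, N1.r, N'.n + N1.n,
    fun t => if t < N'.n then N'.tg t else N1.tg (t - N'.n)⟩

/-- The union is a valid node state refining `N`. -/
theorem uni_good {N N' N0 N1 : NS} {h h1 : ℕ → ℕ → ℕ} {κ κ1 : ℕ → ℕ} (hN : NGood f N)
    (hN' : NGood f N') (hN1 : NGood f N1) (hle : NLe h κ N' N) (h0 : NLe h id N0 N)
    (hle1 : NLe h1 κ1 N1 N0) (hΦ : N0.Φ = N'.Φ) (hW : N0.W = N'.W) :
    NGood f (uni N' N1) ∧
      NLe (hcomp h1 h) (fun t => if t < N'.n then κ t else κ1 (t - N'.n)) (uni N' N1) N := by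
  have _ := hN
  have _ := hΦ
  have hk0 : N0.k = N.k := h0.k_eq
  have hk1 : N1.k = N.k := hle1.k_eq.trans h0.k_eq
  have hr1 : N1.r = N.r := hle1.r_eq.trans h0.r_eq
  have hm1 : N1.m = N.m := hle1.m_eq.trans h0.m_eq
  have hext : Ext N.k N'.W N1.W := by
    have h2 := hle1.ext
    rw [hk0, hW] at h2
    exact h2
  have hcase : ∀ (P : Tgt → Prop), (∀ t < N'.n, P (N'.tg t)) → (∀ t < N1.n, P (N1.tg t)) →
      ∀ t, t < N'.n + N1.n → P ((uni N' N1).tg t) := by
    intro P h2 h3 t ht
    change P (if t < N'.n then N'.tg t else N1.tg (t - N'.n))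
    split_ifs with h4
    · exact h2 t h4
    · exact h3 _ (by omega)
  refine ⟨⟨hN1.good, fun t ht => hcase (fun T => T.lo < T.hi) hN'.ne hN1.ne t ht,
    fun t ht => hcase (fun T => HT f N1.W N1.k T) ?_ hN1.ht t ht,
    fun t ht => hcase (fun T => N1.r <+: T.row) ?_ hN1.row t ht,
    fun t ht => hcase (fun T => T.row.length ≤ N1.W.length) ?_ hN1.len t ht⟩,
    ⟨hm1, hk1, hr1, ?_, ?_, ?_, ?_⟩⟩
  · intro t ht
    rw [hk1]
    have h2 := hN'.ht t ht
    rw [hle.k_eq] at h2
    exact h2.mono hext le_rfl le_rfl List.prefix_rfl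
  · intro t ht
    rw [hr1, ← hle.r_eq]
    exact hN'.row t ht
  · intro t ht
    exact (hN'.len t ht).trans hext.len_le
  · intro j hj
    refine (hle.fle j hj).trans ?_
    rw [← hΦ]
    exact hle1.fle j (by rw [h0.m_eq]; exact hj)
  · exact hle.ext.trans hext
  · intro t ht
    have ht' : t < N'.n + N1.n := ht
    change (if t < N'.n then κ t else κ1 (t - N'.n)) < N.n ∧
      Tgt.Le (if t < N'.n then N'.tg t else N1.tg (t - N'.n))
        (N.tg (if t < N'.n then κ t else κ1 (t - N'.n)))
    split_ifs with h4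
    · exact hle.map t h4
    · obtain ⟨h5, h6⟩ := hle1.map (t - N'.n) (by omega)
      obtain ⟨h7, h8⟩ := h0.map _ h5
      exact ⟨h7, h6.trans h8⟩
  · intro t ht
    obtain ⟨t', h2, h3⟩ := hle.surj t ht
    refine ⟨t', ?_, ?_⟩
    · change t' < N'.n + N1.n
      omega
    · simp only [h2, if_true]
      exact h3

/-- The trap property at `(N', a)` for the target `d` (a target of an earlier node state):
whenever a child has a sustained row with total labels `e` on the targets over `j`, one of the
targets over `j` below `d` has label `true`. -/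
def Trap (f : Col) (N : NS) (c : Cons) (E : ℕ → ℕ → Prop) (C : ℕ → ℕ → Bool) (i j : ℕ)
    (N' : NS) (h : ℕ → ℕ → ℕ) (κ : ℕ → ℕ) (a : ℕ) (d : Tgt) : Prop :=
  ∀ s h' (e : ℕ → Bool), Child f h' N' a s →
    Sust f s (push h' (cup (push h c) (fun j' b v => j' = N.m ∧ b < N'.n ∧
      ((E i (κ b) ∧ v = C i (κ b)) ∨ (κ b = j ∧ v = e b))))) →
    ∃ b < N'.n, κ b = j ∧ e b = true ∧ Tgt.Le (N'.tg b) d

/-- The inductive construction: all targets over `j` of `N'` get trapped. In the conclusion `ρ`
gives refinements of the targets of `N'`. `Δ` is the list of targets over `j` already treated. -/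
theorem exists_trap (hf : MD f) {N : NS} {c : Cons} {E : ℕ → ℕ → Prop} {C : ℕ → ℕ → Bool}
    {i j : ℕ} (hN : NGood f N) (hij : i ≠ j) (hi : i < N.n) (hj : j < N.n) (hE : ¬ E i j)
    (hcd : CDom c N.m) (hU : UE f N c E C)
    (hbad : ∀ N' h, NGood f N' → NLe h id N' N → N'.n = N.n →
      ¬ UE f N' (push h c) (addE E i j) (updC C i j false))
    {N' : NS} {h : ℕ → ℕ → ℕ} {κ : ℕ → ℕ} (hN' : NGood f N') (hle : NLe h κ N' N) {a : ℕ}
    (ha : a < N'.n) (hκa : κ a = i) (Δ : List ℕ) (hΔ : ∀ d ∈ Δ, d < N'.n ∧ κ d = j) :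
    ∃ N2 g κ2 a2, NGood f N2 ∧ NLe (hcomp g h) κ2 N2 N ∧
      (∀ t < N.m, FLe (g t) (N2.Φ t) (N'.Φ t)) ∧ Ext N.k N'.W N2.W ∧
      (∀ t < N'.n, g N.m t < N2.n ∧ Tgt.Le (N2.tg (g N.m t)) (N'.tg t) ∧ κ2 (g N.m t) = κ t) ∧
      a2 < N2.n ∧ κ2 a2 = i ∧ Tgt.Le (N2.tg a2) (N'.tg a) ∧
      ∀ d ∈ Δ, Trap f N c E C i j N2 (hcomp g h) κ2 a2 (N'.tg d) := by
  induction Δ with
  | nil =>
    refine ⟨N', hid, κ, a, hN', ?_, ?_, Ext.refl _ _, ?_, ha, hκa, Tgt.Le.refl _, ?_⟩
    · exact hle
    · intro t _
      exact FLe.refl _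
    · intro t ht
      exact ⟨ht, Tgt.Le.refl _, rfl⟩
    · intro d hd
      exact absurd hd (by simp)
  | cons d Δ ih =>
    obtain ⟨N2, g, κ2, a2, hN2, hle2, hfle2, hext2, hmap2, ha2, hκa2, hta2, htrap2⟩ :=
      ih (fun d' hd' => hΔ d' (List.mem_cons_of_mem _ hd'))
    obtain ⟨hdn, hκd⟩ := hΔ d (by simp)
    obtain ⟨hgd, hgdt, hgdκ⟩ := hmap2 d hdn
    rw [hκd] at hgdκ
    obtain ⟨hN0, hle0⟩ := repl_good hN hN2 hle2 hij hi hj ha2 hgd hκa2 hgdκ
    have hb := hbad (repl N N2 i j a2 (g N.m d)) (hcomp g h) hN0 hle0 rfl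
    unfold UE at hb
    push Not at hb
    obtain ⟨N1, h1, κ1, hN1, hle1, a1, ha1, hno⟩ := hb
    have hm0 : (repl N N2 i j a2 (g N.m d)).m = N.m := rfl
    have hk0 : (repl N N2 i j a2 (g N.m d)).k = N.k := rfl
    have hm1 : N1.m = N.m := hle1.m_eq
    have hk1 : N1.k = N.k := hle1.k_eq
    have hm2 : N2.m = N.m := hle2.m_eq
    have hk2 : N2.k = N.k := hle2.k_eq
    rw [hm0] at hno
    -- the index `a1` lies over `i`
    have hκa1 : κ1 a1 = i := by
      by_contra hne
      obtain ⟨s, h', hc, hs⟩ := hU N1 (hcomp h1 (hcomp g h)) (id ∘ κ1) hN1 (hle0.trans hle1) a1 ha1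
      refine hno s h' hc (hs.sub ?_)
      apply push_mono
      rintro j' t b (h3 | h3)
      · left
        rw [← push_push]
        exact h3
      · right
        obtain ⟨h4, h5, h6, h7⟩ := h3
        refine ⟨h4, h5, ?_, ?_⟩
        · rcases h6 with h6 | h6
          · exact h6
          · exact absurd h6.1 hne
        · rw [h7]
          unfold updC
          rw [if_neg (fun hh => hne hh.1)]
          rfl
    obtain ⟨hN3, hle3⟩ := uni_good hN hN2 hN1 hle2 hle0 hle1 rfl rfl
    have htgL : ∀ t, t < N2.n → (uni N2 N1).tg t = N2.tg t := fun t ht => if_pos ht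
    have htgR : ∀ t, (uni N2 N1).tg (N2.n + t) = N1.tg t := by
      intro t
      show (if N2.n + t < N2.n then N2.tg (N2.n + t) else N1.tg (N2.n + t - N2.n)) = N1.tg t
      rw [if_neg (by omega), Nat.add_sub_cancel_left]
    have hn3 : (uni N2 N1).n = N2.n + N1.n := rfl
    have hm3 : (uni N2 N1).m = N.m := hm1
    have hk3 : (uni N2 N1).k = N.k := hk1
    have hΦ3 : (uni N2 N1).Φ = N1.Φ := rfl
    have hW3 : (uni N2 N1).W = N1.W := rfl
    -- index maps
    set g3 : ℕ → ℕ → ℕ := fun j' t => if j' = N.m then g N.m t else h1 j' (g j' t) with hg3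
    set κ3 : ℕ → ℕ := fun t => if t < N2.n then κ2 t else κ1 (t - N2.n) with hκ3
    have hκL : ∀ t, t < N2.n → κ3 t = κ2 t := fun t ht => if_pos ht
    have hκR : ∀ t, κ3 (N2.n + t) = κ1 t := by
      intro t
      show (if N2.n + t < N2.n then κ2 (N2.n + t) else κ1 (N2.n + t - N2.n)) = κ1 t
      rw [if_neg (by omega), Nat.add_sub_cancel_left]
    have hg3lt : ∀ j', j' < N.m → g3 j' = h1 j' ∘ g j' := by
      intro j' hj'
      funext t
      show (if j' = N.m then g N.m t else h1 j' (g j' t)) = h1 j' (g j' t)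
      rw [if_neg (by omega)]
    have hg3m : ∀ t, g3 N.m t = g N.m t := fun t => if_pos rfl
    have hfle13 : ∀ j' < N.m, FLe (h1 j') (N1.Φ j') (N2.Φ j') := fun j' hj' => hle1.fle j' hj'
    have hta3 : Tgt.Le ((uni N2 N1).tg (N2.n + a1)) (N2.tg a2) := by
      rw [htgR]
      have h3 := (hle1.map a1 ha1).2
      rw [hκa1] at h3
      have h4 : (repl N N2 i j a2 (g N.m d)).tg i = N2.tg a2 := if_pos rfl
      rw [h4] at h3
      exact h3
    have hext13 : Ext N.k N2.W N1.W := hle1.ext
    have hle3' : NLe (hcomp g3 h) κ3 (uni N2 N1) N := by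
      refine ⟨hle3.m_eq, hle3.k_eq, hle3.r_eq, ?_, hle3.ext, hle3.map, hle3.surj⟩
      intro j' hj'
      have h3 := hle3.fle j' hj'
      have h4 : hcomp g3 h j' = hcomp h1 (hcomp g h) j' := by
        funext t
        show g3 j' (h j' t) = h1 j' (g j' (h j' t))
        rw [hg3lt j' hj']
        rfl
      rw [h4]
      exact h3
    refine ⟨uni N2 N1, g3, κ3, N2.n + a1, hN3, hle3', ?_, hext2.trans hext13, ?_, ?_, ?_,
      hta3.trans hta2, ?_⟩
    · intro t ht
      rw [hg3lt t ht]
      exact (hfle2 t ht).trans (hfle13 t ht)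
    · intro t ht
      obtain ⟨h3, h4, h5⟩ := hmap2 t ht
      rw [hg3m]
      refine ⟨by rw [hn3]; omega, ?_, ?_⟩
      · rw [htgL _ h3]
        exact h4
      · rw [hκL _ h3]
        exact h5
    · rw [hn3]
      omega
    · rw [hκR]
      exact hκa1
    · intro d' hd'
      rcases List.mem_cons.1 hd' with hd' | hd'
      · -- the new trap
        rw [hd']
        intro s h' e hc hs
        by_contra hcon
        push Not at hcon
        set g' : ℕ → ℕ → ℕ := fun j' t => if j' = N.m then N2.n + t else t with hg'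
        have hg'lt : ∀ j', j' < N.m → g' j' = id := by
          intro j' hj'
          funext t
          show (if j' = N.m then N2.n + t else t) = t
          rw [if_neg (by omega)]
        have hg'm : ∀ t, g' N.m t = N2.n + t := fun t => if_pos rfl
        have hc1 : Child f (hcomp h' g') N1 a1 s := by
          refine Child.weaken (g := g') hc (by rw [hn3]; omega) rfl rfl ?_ (Ext.refl _ _) ?_ ?_
          · intro j' hj'
            rw [hm1] at hj'
            rw [hg'lt j' hj']
            exact FLe.refl _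
          · intro t ht
            rw [hm1, hg'm, htgR]
            exact ⟨by rw [hn3]; omega, Tgt.Le.refl _⟩
          · rw [htgR]
            exact Tgt.Le.refl _
        refine hno s (hcomp h' g') hc1 ?_
        refine hs.sub ?_
        rw [← push_push]
        apply push_mono
        rintro _ _ b ⟨t1, rfl, h3 | h3⟩
        · -- outer constraints
          left
          rw [push_push] at h3
          obtain ⟨t2, rfl, h4⟩ := h3
          have hj' := hcd _ _ _ h4
          refine ⟨t2, ?_, h4⟩
          rw [hg'lt _ hj']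
          show h1 _ (g _ (h _ t2)) = g3 _ (h _ t2)
          rw [hg3lt _ hj']
          rfl
        · right
          obtain ⟨h4, h5, h6, h7⟩ := h3
          subst h4
          rw [hg'm, hκR, hn3]
          rw [hκa1] at h6 h7
          refine ⟨rfl, by omega, ?_⟩
          by_cases hκt : κ1 t1 = j
          · right
            refine ⟨hκt, ?_⟩
            have h8 : b = false := by
              rw [h7]
              exact if_pos ⟨rfl, hκt⟩
            rw [h8]
            have h9 := hcon (N2.n + t1) (by rw [hn3]; omega) (by rw [hκR]; exact hκt)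
            cases he : e (N2.n + t1) with
            | false => rfl
            | true =>
              exfalso
              apply h9 he
              rw [htgR]
              have h10 := (hle1.map t1 h5).2
              rw [hκt] at h10
              have h11 : (repl N N2 i j a2 (g N.m d)).tg j = N2.tg (g N.m d) := by
                show (if j = i then N2.tg a2 else if j = j then N2.tg (g N.m d) else N.tg j) = _
                rw [if_neg (fun hh => hij hh.symm), if_pos rfl]
              rw [h11] at h10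
              exact h10.trans hgdt
          · left
            constructor
            · rcases h6 with h6 | h6
              · exact h6
              · exact absurd h6.2 hκt
            · rw [h7]
              exact if_neg (fun hh => hκt hh.2)
      · -- the old traps
        intro s h' e hc hs
        set g' : ℕ → ℕ → ℕ := fun j' t => if j' = N.m then t else h1 j' t with hg'
        have hg'lt : ∀ j', j' < N.m → g' j' = h1 j' := by
          intro j' hj'
          funext t
          show (if j' = N.m then t else h1 j' t) = h1 j' t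
          rw [if_neg (by omega)]
        have hg'm : ∀ t, g' N.m t = t := fun t => if_pos rfl
        have hc2 : Child f (hcomp h' g') N2 a2 s := by
          refine Child.weaken (g := g') hc (by rw [hn3]; omega) (hm3.trans hm2.symm)
            (hk3.trans hk2.symm) ?_ ?_ ?_ hta3
          · intro j' hj'
            rw [hm2] at hj'
            rw [hg'lt j' hj']
            exact hfle13 j' hj'
          · rw [hk2]
            exact hext13
          · intro t ht
            rw [hm2, hg'm, htgL t ht]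
            exact ⟨by rw [hn3]; omega, Tgt.Le.refl _⟩
        obtain ⟨b, hb, hκb, heb, htb⟩ := htrap2 d' hd' s (hcomp h' g') e hc2 (hs.sub (by
          rw [← push_push]
          apply push_mono
          rintro _ _ b ⟨t1, rfl, h3 | h3⟩
          · left
            obtain ⟨t2, rfl, h4⟩ := h3
            have hj' := hcd _ _ _ h4
            refine ⟨t2, ?_, h4⟩
            rw [hg'lt _ hj']
            show h1 _ (g _ (h _ t2)) = g3 _ (h _ t2)
            rw [hg3lt _ hj']
            rfl
          · right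
            obtain ⟨h4, h5, h6⟩ := h3
            subst h4
            rw [hg'm, hκL _ h5, hn3]
            exact ⟨rfl, by omega, h6⟩))
        refine ⟨b, by rw [hn3]; omega, ?_, heb, ?_⟩
        · rw [hκL b hb]
          exact hκb
        · rw [htgL b hb]
          exact htb

/-- Lemma U1. -/
theorem UE.add (hf : MD f) {N : NS} {c : Cons} {E : ℕ → ℕ → Prop} {C : ℕ → ℕ → Bool}
    {i j : ℕ} (hN : NGood f N) (hij : i ≠ j) (hi : i < N.n) (hj : j < N.n) (hE : ¬ E i j)
    (hcd : CDom c N.m) (hU : UE f N c E C) :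
    ∃ N' h b, NGood f N' ∧ NLe h id N' N ∧ N'.n = N.n ∧
      UE f N' (push h c) (addE E i j) (updC C i j b) := by
  classical
  by_cases hgood : ∃ N' h, NGood f N' ∧ NLe h id N' N ∧ N'.n = N.n ∧
      UE f N' (push h c) (addE E i j) (updC C i j false)
  · obtain ⟨N', h, h1, h2, h3, h4⟩ := hgood
    exact ⟨N', h, false, h1, h2, h3, h4⟩
  have hbad : ∀ N' h, NGood f N' → NLe h id N' N → N'.n = N.n →
      ¬ UE f N' (push h c) (addE E i j) (updC C i j false) :=
    fun N' h h1 h2 h3 h4 => hgood ⟨N', h, h1, h2, h3, h4⟩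
  refine ⟨N, hid, true, hN, NLe.refl N, rfl, ?_⟩
  rw [push_hid]
  intro N' h κ hN' hle a ha
  by_cases hκa : κ a = i
  · -- the target `a` is over `i`
    obtain ⟨N2, g, κ2, a2, hN2, hle2, hfle, hext, hρ, ha2, hκa2, haa, htrap⟩ :=
      exists_trap hf hN hij hi hj hE hcd hU hbad hN' hle ha hκa
        ((List.range N'.n).filter (fun d => κ d = j))
        (fun d hd => by
          rw [List.mem_filter, List.mem_range] at hd
          exact ⟨hd.1, of_decide_eq_true hd.2⟩)
    obtain ⟨s, h', hchild, hsust⟩ := hU N2 (hcomp g h) κ2 hN2 hle2 a2 ha2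
    have hm : N.m < s.m := by
      have := hchild.desc.m_lt
      rwa [hle2.m_eq] at this
    have hfr : ∀ t < N2.n, h' N.m t < (s.Φ N.m).n := by
      intro t ht
      have := (hchild.desc.fr.2 t ht).1
      rwa [hle2.m_eq] at this
    obtain ⟨s', h'', e, hs', hple, hsust'⟩ :=
      Sust.bits hchild.good hsust hm (s.Φ N.m).n le_rfl
    have hchild' := hchild.ext hs' hple
    have hb : ∀ d : ℕ, d < N'.n → κ d = j → ∃ b < N2.n, κ2 b = j ∧ e (h' N.m b) = true ∧
        Tgt.Le (N2.tg b) (N'.tg d) := by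
      intro d hd hκd
      refine htrap d (by
        rw [List.mem_filter, List.mem_range]
        exact ⟨hd, decide_eq_true hκd⟩) s' (hcomp h'' h') (fun b => e (h' N.m b)) hchild' ?_
      refine hsust'.sub ?_
      rintro jj t' b ⟨t, rfl, ht⟩
      refine ⟨h' jj t, rfl, ?_⟩
      rcases ht with ht | ⟨rfl, ht1, ht2⟩
      · exact Or.inl ⟨t, rfl, Or.inl ht⟩
      · rcases ht2 with ⟨ht2, ht3⟩ | ⟨ht2, ht3⟩
        · exact Or.inl ⟨t, rfl, Or.inr ⟨rfl, ht1, by rw [hκa2]; exact ht2, by rw [hκa2]; exact ht3⟩⟩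
        · exact Or.inr ⟨rfl, hfr t ht1, ht3⟩
    choose! bt hbt1 hbt2 hbt3 hbt4 using hb
    set g' : ℕ → ℕ → ℕ := fun jj t =>
      if jj = N.m then (if t < N'.n ∧ κ t = j then bt t else g N.m t) else g jj t with hg'
    have hg'1 : ∀ jj, jj < N.m → g' jj = g jj := by
      intro jj hjj
      funext t
      simp only [hg']
      rw [if_neg hjj.ne]
    have hg'2 : ∀ t, t < N'.n → κ t = j → g' N.m t = bt t := by
      intro t ht hκt
      simp only [hg']
      rw [if_pos trivial, if_pos ⟨ht, hκt⟩]
    have hg'3 : ∀ t, κ t ≠ j → g' N.m t = g N.m t := by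
      intro t hκt
      simp only [hg']
      rw [if_pos trivial, if_neg (fun h0 => hκt h0.2)]
    refine ⟨s', hcomp (hcomp h'' h') g', ?_, ?_⟩
    · refine hchild'.weaken ha2 (hle2.m_eq.trans hle.m_eq.symm) (hle2.k_eq.trans hle.k_eq.symm)
        ?_ (by rw [hle.k_eq]; exact hext) ?_ haa
      · intro jj hjj
        rw [hle.m_eq] at hjj
        rw [hg'1 jj hjj]
        exact hfle jj hjj
      · intro t ht
        rw [hle.m_eq]
        by_cases hκt : κ t = j
        · rw [hg'2 t ht hκt]
          exact ⟨hbt1 t ht hκt, hbt4 t ht hκt⟩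
        · rw [hg'3 t hκt]
          exact ⟨(hρ t ht).1, (hρ t ht).2.1⟩
    · refine hsust'.sub ?_
      rintro jj t' b ⟨t, rfl, ht⟩
      refine ⟨h' jj (g' jj t), rfl, ?_⟩
      rcases ht with ⟨t0, rfl, ht⟩ | ⟨rfl, ht1, ht2, ht3⟩
      · refine Or.inl ⟨g' jj (h jj t0), rfl, Or.inl ⟨t0, ?_, ht⟩⟩
        rw [hg'1 jj (hcd _ _ _ ht)]
        rfl
      · rw [hκa] at ht2 ht3
        by_cases hκt : κ t = j
        · have hv : b = true := by
            rw [ht3]
            simp only [updC]
            rw [if_pos ⟨trivial, hκt⟩]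
          rw [hg'2 t ht1 hκt]
          exact Or.inr ⟨rfl, hfr _ (hbt1 t ht1 hκt), by rw [hv, hbt3 t ht1 hκt]⟩
        · have hv : b = C i (κ t) := by
            rw [ht3]
            simp only [updC]
            rw [if_neg (fun h0 => hκt h0.2)]
          have hEt : E i (κ t) := by
            rcases ht2 with h0 | h0
            · exact h0
            · exact absurd h0.2 hκt
          rw [hg'3 t hκt]
          obtain ⟨r1, -, r3⟩ := hρ t ht1
          exact Or.inl ⟨g N.m t, rfl, Or.inr ⟨rfl, r1, by rw [hκa2, r3]; exact hEt,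
            by rw [hκa2, r3]; exact hv⟩⟩
  · obtain ⟨s, h', h1, h2⟩ := hU N' h κ hN' hle a ha
    refine ⟨s, h', h1, h2.sub (push_mono ?_)⟩
    rintro jj t b (ht | ⟨rfl, ht1, ht2, ht3⟩)
    · exact Or.inl ht
    · refine Or.inr ⟨rfl, ht1, ?_, ?_⟩
      · rcases ht2 with h0 | h0
        · exact h0
        · exact absurd h0.1 hκa
      · rw [ht3]
        simp only [updC]
        rw [if_neg (fun h0 => hκa h0.1)]

end Pool.Agent.Lib.MP_b4a791_lc
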