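import Pool.Agent.Lib.MP_b4a791_lc.A.Defs

/-!
# MP_b4a791_lc, Part A: basic facts on words
-/

namespace Pool.Agent.Lib.MP_b4a791_lc

lemma path_append (W L : Word) : path (W ++ L) = L.foldl stepPath (path W) := by
  simp [path, List.foldl_append]

@[simp] lemma path_nil : path [] = [] := rfl

@[simp] lemma dep_nil : dep [] = 0 := rfl

lemma path_snoc (W : Word) (m : Move) : path (W ++ [m]) = (path W).take m.1 ++ [m.2] := by
  simp [path_append, stepPath]

lemma dep_snoc (W : Word) (m : Move) : dep (W ++ [m]) = min m.1 (dep W) + 1 := by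
  simp [dep, path_snoc]

lemma Ext.refl (k : ℕ) (W : Word) : Ext k W W := ⟨[], by simp, by simp⟩

lemma Ext.trans {k : ℕ} {W W' W'' : Word} (h : Ext k W W') (h' : Ext k W' W'') :
    Ext k W W'' := by
  obtain ⟨L, rfl, hL⟩ := h
  obtain ⟨L', rfl, hL'⟩ := h'
  refine ⟨L ++ L', by simp, fun m hm => ?_⟩
  rcases List.mem_append.1 hm with hm | hm
  · exact hL m hm
  · exact hL' m hm

lemma Ext.mono {k k' : ℕ} {W W' : Word} (hk : k' ≤ k) (h : Ext k W W') : Ext k' W W' := by
  obtain ⟨L, rfl, hL⟩ := h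
  exact ⟨L, rfl, fun m hm => hk.trans (hL m hm)⟩

lemma Ext.pfx {k : ℕ} {W W' : Word} (h : Ext k W W') : W <+: W' := by
  obtain ⟨L, rfl, _⟩ := h
  exact ⟨L, rfl⟩

lemma Ext.len_le {k : ℕ} {W W' : Word} (h : Ext k W W') : W.length ≤ W'.length :=
  h.pfx.length_le

lemma Ext.snoc {k : ℕ} (W : Word) {m : Move} (h : k ≤ m.1) : Ext k W (W ++ [m]) :=
  ⟨[m], rfl, by simpa using h⟩

/-- Induction principle: `Ext` is the closure under adding one move. -/
lemma Ext.induct {k : ℕ} {W : Word} {P : Word → Prop} (h0 : P W)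
    (h1 : ∀ W' m, Ext k W W' → P W' → k ≤ m.1 → P (W' ++ [m])) {W' : Word}
    (h : Ext k W W') : P W' := by
  obtain ⟨L, rfl, hL⟩ := h
  induction L using List.reverseRecOn with
  | nil => simpa using h0
  | append_singleton L m ih =>
    rw [← List.append_assoc]
    exact h1 _ _ ⟨L, rfl, fun x hx => hL x (by simp [hx])⟩
      (ih fun x hx => hL x (by simp [hx])) (hL m (by simp))

lemma Ext.dep_le {k : ℕ} {W W' : Word} (hk : k ≤ dep W) (h : Ext k W W') : k ≤ dep W' := by
  refine Ext.induct (P := fun W' => k ≤ dep W') hk (fun W' m _ ih hm => ?_) h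
  rw [dep_snoc]
  have : k ≤ min m.1 (dep W') := le_min hm ih
  omega

lemma Ext.take {k : ℕ} {W W' : Word} (hk : k ≤ dep W) (h : Ext k W W') :
    (path W').take k = (path W).take k := by
  refine Ext.induct (P := fun W' => (path W').take k = (path W).take k) rfl
    (fun W' m h' ih hm => ?_) h
  have h1 : k ≤ dep W' := h'.dep_le hk
  rw [path_snoc, ← ih, List.take_append_of_le_length, List.take_take, min_eq_left hm]
  rw [List.length_take]
  exact le_min hm h1

lemma Ext.get {l k : ℕ} {W W' : Word} (hl : l < k) (hk : k ≤ dep W) (h : Ext k W W') :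
    (path W')[l]? = (path W)[l]? := by
  have h1 := h.take hk
  have h2 : ((path W').take k)[l]? = ((path W).take k)[l]? := by rw [h1]
  simpa [List.getElem?_take, hl] using h2

lemma dep_snoc_le {W : Word} {l : ℕ} (q : ℚ) (h : l ≤ dep W) : dep (W ++ [(l, q)]) = l + 1 := by
  rw [dep_snoc]
  simp [h]

lemma path_snoc_get {W : Word} {l : ℕ} (q : ℚ) (h : l ≤ dep W) :
    (path (W ++ [(l, q)]))[l]? = some q := by
  rw [path_snoc]
  have h1 : ((path W).take l).length = l := by
    rw [List.length_take]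
    exact min_eq_left h
  rw [List.getElem?_append_right (by rw [h1]), h1]
  simp

lemma path_get_lt {W : Word} {l : ℕ} {q : ℚ} (h : (path W)[l]? = some q) : l < dep W := by
  rcases List.getElem?_eq_some_iff.1 h with ⟨h1, _⟩
  exact h1

/-- Words that extend each other inside a common extension. -/
lemma Ext.of_prefix {k : ℕ} {W V W' : Word} (h : Ext k W W') (h1 : W <+: V) (h2 : V <+: W') :
    Ext k W V := by
  obtain ⟨L, rfl, hL⟩ := h
  obtain ⟨A, rfl⟩ := h1
  obtain ⟨B, hB⟩ := h2
  rw [List.append_assoc] at hB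
  have := List.append_cancel_left hB
  subst this
  exact ⟨A, rfl, fun m hm => hL m (by simp [hm])⟩

lemma Ext.of_prefix' {k : ℕ} {W V W' : Word} (h : Ext k W W') (h1 : W <+: V) (h2 : V <+: W') :
    Ext k V W' := by
  obtain ⟨L, rfl, hL⟩ := h
  obtain ⟨A, rfl⟩ := h1
  obtain ⟨B, hB⟩ := h2
  have hB' := hB
  rw [List.append_assoc] at hB
  have := List.append_cancel_left hB
  subst this
  exact ⟨B, by simp, fun m hm => hL m (by simp [hm])⟩

end Pool.Agent.Lib.MP_b4a791_lc
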